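import Pool.Agent.Helper10.KE.Base

set_option autoImplicit false
set_option maxHeartbeats 0
set_option linter.all false

namespace Helper10.KE


theorem a2A0 (a b p : ℤ) (D v : ℝ)
    (g0 : 1 ≤ a - 1)
    (g1 : 1 ≤ -a + 3)
    (g2 : 1 ≤ -a + b)
    (g3 : 1 ≤ -2 * b + p)
    (g4 : 0 < D)
    (g5 : 0 < (p:ℝ) - 2 * D)
    (g6 : 0 < (b:ℝ) + (p:ℝ) - D + 2 * v)
    (g7 : 0 < (b:ℝ) - (p:ℝ) + D - 2 * v)
    (g8 : 0 < (a:ℝ) + (p:ℝ) - D + 2 * v + 2)
    (g9 : 0 < (a:ℝ) - (p:ℝ) + D - 2 * v - 2)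
    (g10 : 1 ≤ -a + b + 2)
    (g11 : 0 < -(a:ℝ) + (p:ℝ) + 2 * v + 2)
    (g12 : 0 < (p:ℝ) - D + 2 * v + 2)
    (g13 : 0 < -(p:ℝ) + D - 2 * v)
    (g14 : 0 < (b:ℝ) + v)
    (g15 : 0 < -(b:ℝ) + (p:ℝ) - v)
    (he_h : FRc p a b D (v) (1) ((p:ℝ) + 2 * v) (2))
    : False := by
  have g0r : (1 : ℝ) ≤ (a:ℝ) - 1 := by exact_mod_cast g0
  clear g0
  have g1r : (1 : ℝ) ≤ -(a:ℝ) + 3 := by exact_mod_cast g1
  clear g1
  have g2r : (1 : ℝ) ≤ -(a:ℝ) + (b:ℝ) := by exact_mod_cast g2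
  clear g2
  have g3r : (1 : ℝ) ≤ -2 * (b:ℝ) + (p:ℝ) := by exact_mod_cast g3
  clear g3
  have g10r : (1 : ℝ) ≤ -(a:ℝ) + (b:ℝ) + 2 := by exact_mod_cast g10
  clear g10
  exact leaf he_h.rb (a + 1) (s10 (ind1 (0) (by first | (push_cast; linarith) | (rcases isp (a) with h | h <;> push_cast at h ⊢ <;> linarith)) (by push_cast; linarith)) (ind0 (0) (by push_cast; linarith) (by push_cast; linarith))) (s10 (ind1 (0) (by first | (push_cast; linarith) | (rcases isp (a - 1) with h | h <;> push_cast at h ⊢ <;> linarith)) (by first | (push_cast; linarith) | (rcases isp (-a + b + 2) with h | h <;> push_cast at h ⊢ <;> linarith))) (ind0 (0) (by push_cast; linarith) (by push_cast; linarith)))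
      (tz (ind0 (0) (by push_cast; linarith) (by push_cast; linarith)))
      (t10 (ind1 (0) (by push_cast; linarith) (by push_cast; linarith)) (ind1 (0) (by push_cast; linarith) (by first | (push_cast; linarith) | (rcases isp (b) with h | h <;> push_cast at h ⊢ <;> linarith))) (ind0 (0) (by push_cast; linarith) (by push_cast; linarith)))
      (tz (ind0 (1) (by push_cast; linarith) (by push_cast; linarith)))
      (t00 (ind0 (1) (by first | (push_cast; linarith) | (rcases isp (-b + p + 1) with h | h <;> push_cast at h ⊢ <;> linarith)) (by first | (push_cast; linarith) | (rcases isp (-a + b) with h | h <;> push_cast at h ⊢ <;> linarith))) (ind0 (0) (by push_cast; linarith) (by push_cast; linarith))) (by decide)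

end Helper10.KE
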