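import Mathlib

set_option autoImplicit false

/-!
# Three-jump rule, real form: basic definitions and the leaf lemma
-/

namespace Helper10.KE

open Classical

/-- indicator of the arc `(k, k + len]` modulo `p` -/
noncomputable def ind (p k len t : ℝ) : ℤ :=
  if ∃ m : ℤ, k < t + m * p ∧ t + m * p ≤ k + len then 1 else 0

/-- the jump function of the exchange of the cluster `0` against the cluster `δ` seen from a
vertical line at `v` and a diagonal line at `d` -/
noncomputable def gg (p a b δ v d w : ℝ) : ℤ :=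
  ind p 0 δ d * ind p 0 b w - ind p a δ d * ind p a b w
    - ind p 0 δ v * ind p 0 a w + ind p (-b) δ v * ind p b a w

/-- three-jump rule for a vertical line at `v` with arc `(kv, kv + a]` and a diagonal line at `d`
with arc `(kd, kd + b]` -/
def FRl (p a b δ v kv d kd : ℝ) : Prop :=
  ∀ W : ℤ, ind p kv a W + ind p kv a (d - v) = 1 → ind p kd b W + ind p kd b (d - v) = 1 →
    gg p a b δ v d W = gg p a b δ v d (d - v)

/-- all vertical lines of the cluster `(z₁, r₁)` against all diagonal lines of `(z₂, r₂)` -/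
structure FRc (p a b δ z₁ r₁ z₂ r₂ : ℝ) : Prop where
  rb : FRl p a b δ z₁ r₁ (z₂ + r₂) r₂
  rt : FRl p a b δ z₁ r₁ (z₂ + r₂ + a) (r₂ + a)
  lb : FRl p a b δ (z₁ - b) (r₁ + b) (z₂ + r₂) r₂
  lt : FRl p a b δ (z₁ - b) (r₁ + b) (z₂ + r₂ + a) (r₂ + a)

theorem ind1 {p k len t : ℝ} (m : ℤ) (h1 : 0 < t + m * p - k) (h2 : 0 ≤ k + len - (t + m * p)) :
    ind p k len t = 1 := by
  unfold ind
  rw [if_pos]
  exact ⟨m, by linarith, by linarith⟩

theorem ind0 {p k len t : ℝ} (m : ℤ) (h1 : 0 < t + m * p - (k + len))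
    (h2 : 0 ≤ k + p - (t + m * p)) : ind p k len t = 0 := by
  unfold ind
  rw [if_neg]
  rintro ⟨n, h3, h4⟩
  by_cases hlen : 0 ≤ len
  · have hp : 0 < p := by linarith
    have e1 : ((n : ℝ) - m) * p < 0 := by nlinarith
    have e2 : (n : ℝ) - m < 0 := by
      by_contra h
      have := mul_nonneg (not_lt.mp h) hp.le
      linarith
    have e3 : n - m < 0 := by exact_mod_cast e2
    have e4 : n - m ≤ -1 := by omega
    have e5 : (n : ℝ) - m ≤ -1 := by exact_mod_cast e4
    nlinarith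
  · linarith

theorem ind01 (p k len t : ℝ) : ind p k len t = 0 ∨ ind p k len t = 1 := by
  unfold ind
  split_ifs <;> simp

/-- splitting for non-integers -/
theorem spl {x : ℝ} (hx : ∀ n : ℤ, x ≠ n) (n : ℤ) : 0 < x + n ∨ 0 < -(x + n) := by
  rcases lt_trichotomy (x + n) 0 with h | h | h
  · right; linarith
  · exact absurd (by push_cast; linarith) (hx (-n))
  · left; exact h

/-- splitting for integers -/
theorem isp (n : ℤ) : (1 : ℝ) ≤ n ∨ (n : ℝ) ≤ 0 := by
  rcases le_or_gt 1 n with h | h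
  · left; exact_mod_cast h
  · right
    have : n ≤ 0 := by omega
    exact_mod_cast this

theorem s10 {x y : ℤ} (hx : x = 1) (hy : y = 0) : x + y = 1 := by rw [hx, hy]; rfl

theorem s01 {x y : ℤ} (hx : x = 0) (hy : y = 1) : x + y = 1 := by rw [hx, hy]; rfl

/-- zone out -/
theorem tz {z x y : ℤ} (hz : z = 0) : z * (x - y) = 0 := by rw [hz]; ring

theorem t11 {z x y : ℤ} (hx : x = 1) (hy : y = 1) : z * (x - y) = 0 := by rw [hx, hy]; ring

theorem t00 {z x y : ℤ} (hx : x = 0) (hy : y = 0) : z * (x - y) = 0 := by rw [hx, hy]; ring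

theorem t10 {z x y : ℤ} (hz : z = 1) (hx : x = 1) (hy : y = 0) : z * (x - y) = 1 := by
  rw [hz, hx, hy]; rfl

theorem t01 {z x y : ℤ} (hz : z = 1) (hx : x = 0) (hy : y = 1) : z * (x - y) = -1 := by
  rw [hz, hx, hy]; rfl

theorem leaf {p a b δ v kv d kd : ℝ} (H : FRl p a b δ v kv d kd) (W : ℤ)
    (hV : ind p kv a W + ind p kv a (d - v) = 1) (hD : ind p kd b W + ind p kd b (d - v) = 1)
    {c1 c2 c3 c4 : ℤ} (h1 : ind p 0 δ d * (ind p 0 b W - ind p 0 b (d - v)) = c1)
    (h2 : ind p a δ d * (ind p a b W - ind p a b (d - v)) = c2)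
    (h3 : ind p 0 δ v * (ind p 0 a W - ind p 0 a (d - v)) = c3)
    (h4 : ind p (-b) δ v * (ind p b a W - ind p b a (d - v)) = c4)
    (hs : c1 - c2 - c3 + c4 ≠ 0) : False := by
  have := H W hV hD
  unfold gg at this
  apply hs
  rw [← h1, ← h2, ← h3, ← h4]
  linarith

end Helper10.KE
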