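import Pool.Agent.Helper10.KE.Base

set_option autoImplicit false
set_option maxHeartbeats 0
set_option linter.all false

namespace Helper10.KE


theorem bjhm (a b P r : ℤ) (E z : ℝ)
    (g0 : 1 ≤ a - 1)
    (g1 : 1 ≤ -a + b + 1)
    (g2 : 1 ≤ -2 * b + 2 * P)
    (g3 : 1 ≤ -r)
    (g4 : 0 < 2 * E)
    (g5 : 0 < 2 * (P:ℝ) - 4 * E)
    (g6 : 0 < (b:ℝ) - z)
    (g7 : 0 < (b:ℝ) + z)
    (g8 : 0 < (a:ℝ) - z - (r:ℝ))
    (g9 : 0 < (a:ℝ) + z + (r:ℝ))
    (g10 : 0 < (b:ℝ) - 2 * E + z)
    (g11 : 0 < (a:ℝ) - 2 * E + z + (r:ℝ))
    (t0 : ∀ n : ℤ, E - z ≠ n)
    (t1 : ∀ n : ℤ, z ≠ n)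
    (t2 : ∀ n : ℤ, E ≠ n)
    (hk_j : FRc (2 * (P:ℝ)) a b (2 * E) (z) ((r:ℝ)) (-(P:ℝ) + E) ((P:ℝ)))
    (hj_k : FRc (2 * (P:ℝ)) a b (2 * E) (-(P:ℝ) + E) ((P:ℝ)) (z) ((r:ℝ)))
    (hf_j : FRc (2 * (P:ℝ)) a b (2 * E) (-(P:ℝ) + E + z) ((P:ℝ) + (r:ℝ)) (-(P:ℝ) + E) ((P:ℝ)))
    : False := by
  have g0r : (1 : ℝ) ≤ (a:ℝ) - 1 := by exact_mod_cast g0
  clear g0
  have g1r : (1 : ℝ) ≤ -(a:ℝ) + (b:ℝ) + 1 := by exact_mod_cast g1
  clear g1
  have g2r : (1 : ℝ) ≤ -2 * (b:ℝ) + 2 * (P:ℝ) := by exact_mod_cast g2
  clear g2
  have g3r : (1 : ℝ) ≤ -(r:ℝ) := by exact_mod_cast g3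
  clear g3
  rcases isp (b + r) with h | h <;> push_cast at h
  · skip
    rcases spl t0 (-r) with h | h <;> push_cast at h
    · skip
      rcases spl t0 (0) with h | h <;> push_cast at h
      · skip
        rcases spl t1 (0) with h | h <;> push_cast at h
        · skip
          rcases isp (a + b - P + 1) with h | h <;> push_cast at h
          · skip
            exact leaf hk_j.rt (0) (s10 (ind1 (0) (by first | (push_cast; linarith) | (rcases isp (-r) with h | h <;> push_cast at h ⊢ <;> linarith)) (by first | (push_cast; linarith) | (rcases isp (a + r + 1) with h | h <;> push_cast at h ⊢ <;> linarith))) (ind0 (0) (by push_cast; linarith) (by push_cast; linarith))) (s10 (ind1 (1) (by first | (push_cast; linarith) | (rcases isp (-a + P) with h | h <;> push_cast at h ⊢ <;> linarith)) (by first | (push_cast; linarith) | (rcases isp (a + b - P + 1) with h | h <;> push_cast at h ⊢ <;> linarith))) (ind0 (1) (by push_cast; linarith) (by push_cast; linarith)))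
                (tz (ind0 (0) (by push_cast; linarith) (by push_cast; linarith)))
                (t01 (ind1 (0) (by push_cast; linarith) (by push_cast; linarith)) (ind0 (1) (by first | (push_cast; linarith) | (rcases isp (-a - b + 2 * P) with h | h <;> push_cast at h ⊢ <;> linarith)) (by first | (push_cast; linarith) | (rcases isp (a + 1) with h | h <;> push_cast at h ⊢ <;> linarith))) (ind1 (0) (by push_cast; linarith) (by push_cast; linarith)))
                (t00 (ind0 (1) (by first | (push_cast; linarith) | (rcases isp (-a + 2 * P) with h | h <;> push_cast at h ⊢ <;> linarith)) (by push_cast; linarith)) (ind0 (0) (by push_cast; linarith) (by push_cast; linarith)))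
                (tz (ind0 (0) (by push_cast; linarith) (by push_cast; linarith))) (by decide)
          · skip
            exact leaf hk_j.lb (P + 1) (s01 (ind0 (0) (by first | (push_cast; linarith) | (rcases isp (-a - b + P - r + 1) with h | h <;> push_cast at h ⊢ <;> linarith)) (by first | (push_cast; linarith) | (rcases isp (b + P + r) with h | h <;> push_cast at h ⊢ <;> linarith))) (ind1 (0) (by push_cast; linarith) (by push_cast; linarith))) (s10 (ind1 (0) (by push_cast; linarith) (by first | (push_cast; linarith) | (rcases isp (b) with h | h <;> push_cast at h ⊢ <;> linarith))) (ind0 (1) (by push_cast; linarith) (by push_cast; linarith)))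
                (t00 (ind0 (0) (by first | (push_cast; linarith) | (rcases isp (-b + P + 1) with h | h <;> push_cast at h ⊢ <;> linarith)) (by first | (push_cast; linarith) | (rcases isp (P) with h | h <;> push_cast at h ⊢ <;> linarith))) (ind0 (0) (by push_cast; linarith) (by push_cast; linarith)))
                (tz (ind0 (1) (by push_cast; linarith) (by push_cast; linarith)))
                (tz (ind0 (1) (by push_cast; linarith) (by push_cast; linarith)))
                (t01 (ind1 (0) (by push_cast; linarith) (by push_cast; linarith)) (ind0 (0) (by first | (push_cast; linarith) | (rcases isp (-a - b + P + 1) with h | h <;> push_cast at h ⊢ <;> linarith)) (by first | (push_cast; linarith) | (rcases isp (b + P) with h | h <;> push_cast at h ⊢ <;> linarith))) (ind1 (0) (by push_cast; linarith) (by push_cast; linarith))) (by decide)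
        · skip
          exact leaf hk_j.rb (P + 1) (s01 (ind0 (0) (by first | (push_cast; linarith) | (rcases isp (-a + P - r + 1) with h | h <;> push_cast at h ⊢ <;> linarith)) (by first | (push_cast; linarith) | (rcases isp (P + r) with h | h <;> push_cast at h ⊢ <;> linarith))) (ind1 (0) (by push_cast; linarith) (by push_cast; linarith))) (s10 (ind1 (0) (by push_cast; linarith) (by first | (push_cast; linarith) | (rcases isp (b) with h | h <;> push_cast at h ⊢ <;> linarith))) (ind0 (1) (by push_cast; linarith) (by push_cast; linarith)))
              (t01 (ind1 (0) (by push_cast; linarith) (by push_cast; linarith)) (ind0 (0) (by first | (push_cast; linarith) | (rcases isp (-b + P + 1) with h | h <;> push_cast at h ⊢ <;> linarith)) (by first | (push_cast; linarith) | (rcases isp (P) with h | h <;> push_cast at h ⊢ <;> linarith))) (ind1 (0) (by push_cast; linarith) (by push_cast; linarith)))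
              (tz (ind0 (1) (by push_cast; linarith) (by push_cast; linarith)))
              (tz (ind0 (1) (by push_cast; linarith) (by push_cast; linarith)))
              (tz (ind0 (0) (by push_cast; linarith) (by push_cast; linarith))) (by decide)
      · skip
        exact leaf hk_j.lb (b + P) (s01 (ind0 (0) (by first | (push_cast; linarith) | (rcases isp (-a + P - r) with h | h <;> push_cast at h ⊢ <;> linarith)) (by first | (push_cast; linarith) | (rcases isp (P + r + 1) with h | h <;> push_cast at h ⊢ <;> linarith))) (ind1 (0) (by push_cast; linarith) (by push_cast; linarith))) (s10 (ind1 (0) (by first | (push_cast; linarith) | (rcases isp (b) with h | h <;> push_cast at h ⊢ <;> linarith)) (by push_cast; linarith)) (ind0 (1) (by push_cast; linarith) (by push_cast; linarith)))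
            (t01 (ind1 (0) (by push_cast; linarith) (by push_cast; linarith)) (ind0 (0) (by first | (push_cast; linarith) | (rcases isp (P) with h | h <;> push_cast at h ⊢ <;> linarith)) (by first | (push_cast; linarith) | (rcases isp (-b + P + 1) with h | h <;> push_cast at h ⊢ <;> linarith))) (ind1 (0) (by push_cast; linarith) (by push_cast; linarith)))
            (tz (ind0 (1) (by push_cast; linarith) (by push_cast; linarith)))
            (tz (ind0 (1) (by push_cast; linarith) (by push_cast; linarith)))
            (t00 (ind0 (0) (by first | (push_cast; linarith) | (rcases isp (-a + P) with h | h <;> push_cast at h ⊢ <;> linarith)) (by first | (push_cast; linarith) | (rcases isp (P + 1) with h | h <;> push_cast at h ⊢ <;> linarith))) (ind0 (1) (by push_cast; linarith) (by push_cast; linarith))) (by decide)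
    · skip
      rcases spl t2 (b - P) with h | h <;> push_cast at h
      · skip
        exact leaf hj_k.rb (0) (s01 (ind0 (1) (by first | (push_cast; linarith) | (rcases isp (-a + P) with h | h <;> push_cast at h ⊢ <;> linarith)) (by first | (push_cast; linarith) | (rcases isp (P + 1) with h | h <;> push_cast at h ⊢ <;> linarith))) (ind1 (0) (by push_cast; linarith) (by push_cast; linarith))) (s10 (ind1 (0) (by first | (push_cast; linarith) | (rcases isp (-r) with h | h <;> push_cast at h ⊢ <;> linarith)) (by first | (push_cast; linarith) | (rcases isp (b + r + 1) with h | h <;> push_cast at h ⊢ <;> linarith))) (ind0 (0) (by push_cast; linarith) (by push_cast; linarith)))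
            (t00 (ind0 (1) (by first | (push_cast; linarith) | (rcases isp (-b + 2 * P) with h | h <;> push_cast at h ⊢ <;> linarith)) (by push_cast; linarith)) (ind0 (0) (by push_cast; linarith) (by push_cast; linarith)))
            (tz (ind0 (1) (by push_cast; linarith) (by push_cast; linarith)))
            (tz (ind0 (1) (by push_cast; linarith) (by push_cast; linarith)))
            (t01 (ind1 (0) (by push_cast; linarith) (by push_cast; linarith)) (ind0 (1) (by first | (push_cast; linarith) | (rcases isp (-a - b + 2 * P) with h | h <;> push_cast at h ⊢ <;> linarith)) (by first | (push_cast; linarith) | (rcases isp (b + 1) with h | h <;> push_cast at h ⊢ <;> linarith))) (ind1 (0) (by push_cast; linarith) (by push_cast; linarith))) (by decide)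
      · skip
        exact leaf hf_j.lt (a + 1) (s01 (ind0 (1) (by first | (push_cast; linarith) | (rcases isp (-b + P - r + 1) with h | h <;> push_cast at h ⊢ <;> linarith)) (by first | (push_cast; linarith) | (rcases isp (-a + b + P + r) with h | h <;> push_cast at h ⊢ <;> linarith))) (ind1 (0) (by push_cast; linarith) (by push_cast; linarith))) (s01 (ind0 (1) (by first | (push_cast; linarith) | (rcases isp (-b + P + 1) with h | h <;> push_cast at h ⊢ <;> linarith)) (by first | (push_cast; linarith) | (rcases isp (P) with h | h <;> push_cast at h ⊢ <;> linarith))) (ind1 (0) (by push_cast; linarith) (by push_cast; linarith)))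
            (tz (ind0 (0) (by push_cast; linarith) (by push_cast; linarith)))
            (t10 (ind1 (0) (by push_cast; linarith) (by push_cast; linarith)) (ind1 (0) (by push_cast; linarith) (by first | (push_cast; linarith) | (rcases isp (b) with h | h <;> push_cast at h ⊢ <;> linarith))) (ind0 (0) (by push_cast; linarith) (by push_cast; linarith)))
            (tz (ind0 (1) (by push_cast; linarith) (by push_cast; linarith)))
            (tz (ind0 (1) (by push_cast; linarith) (by push_cast; linarith))) (by decide)
  · skip
    exact leaf hk_j.lb (P + 1) (s01 (ind0 (0) (by first | (push_cast; linarith) | (rcases isp (-a - b + P - r + 1) with h | h <;> push_cast at h ⊢ <;> linarith)) (by first | (push_cast; linarith) | (rcases isp (b + P + r) with h | h <;> push_cast at h ⊢ <;> linarith))) (ind1 (0) (by push_cast; linarith) (by push_cast; linarith))) (s10 (ind1 (0) (by push_cast; linarith) (by first | (push_cast; linarith) | (rcases isp (b) with h | h <;> push_cast at h ⊢ <;> linarith))) (ind0 (1) (by push_cast; linarith) (by push_cast; linarith)))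
        (t01 (ind1 (0) (by push_cast; linarith) (by push_cast; linarith)) (ind0 (0) (by first | (push_cast; linarith) | (rcases isp (-b + P + 1) with h | h <;> push_cast at h ⊢ <;> linarith)) (by first | (push_cast; linarith) | (rcases isp (P) with h | h <;> push_cast at h ⊢ <;> linarith))) (ind1 (0) (by push_cast; linarith) (by push_cast; linarith)))
        (tz (ind0 (1) (by push_cast; linarith) (by push_cast; linarith)))
        (tz (ind0 (1) (by push_cast; linarith) (by push_cast; linarith)))
        (tz (ind0 (0) (by push_cast; linarith) (by push_cast; linarith))) (by decide)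

end Helper10.KE
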