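import Pool.Agent.Helper10.KE.Base

set_option autoImplicit false
set_option maxHeartbeats 0
set_option linter.all false

namespace Helper10.KE


theorem bjkm (a b p r o : ℤ) (D z w : ℝ)
    (g0 : 1 ≤ a - 1)
    (g1 : 1 ≤ -a + b + 1)
    (g2 : 1 ≤ -2 * b + p)
    (g3 : 1 ≤ -r)
    (g4 : 0 < D)
    (g5 : 0 < (p:ℝ) - 2 * D)
    (g6 : 0 < (b:ℝ) - z)
    (g7 : 0 < (b:ℝ) + z)
    (g8 : 0 < (a:ℝ) - z - (r:ℝ))
    (g9 : 0 < (a:ℝ) + z + (r:ℝ))
    (g10 : 0 < (b:ℝ) - D + z)
    (g11 : 0 < (a:ℝ) - D + z + (r:ℝ))
    (g12 : 1 ≤ o)
    (g13 : 1 ≤ p - o)
    (g14 : 0 < w)
    (g15 : 0 < D - w)
    (t0 : ∀ n : ℤ, D - z - w ≠ n)
    (t1 : ∀ n : ℤ, D - w ≠ n)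
    (t2 : ∀ n : ℤ, z ≠ n)
    (t3 : ∀ n : ℤ, w ≠ n)
    (t4 : ∀ n : ℤ, z - w ≠ n)
    (t5 : ∀ n : ℤ, D - z ≠ n)
    (t6 : ∀ n : ℤ, z + w ≠ n)
    (t7 : ∀ n : ℤ, D - 2 * z ≠ n)
    (t8 : ∀ n : ℤ, D - 2 * w ≠ n)
    (hk_h : FRc p a b D (z) ((r:ℝ)) (D - z) (-(r:ℝ)))
    (hk_j : FRc p a b D (z) ((r:ℝ)) (w - (o:ℝ)) ((o:ℝ)))
    (hk_f : FRc p a b D (z) ((r:ℝ)) (z + w - (o:ℝ)) ((r:ℝ) + (o:ℝ)))
    (hk_m : FRc p a b D (z) ((r:ℝ)) (D - w + (o:ℝ)) (-(o:ℝ)))
    (hj_k : FRc p a b D (w - (o:ℝ)) ((o:ℝ)) (z) ((r:ℝ)))
    (hj_h : FRc p a b D (w - (o:ℝ)) ((o:ℝ)) (D - z) (-(r:ℝ)))
    (hj_f : FRc p a b D (w - (o:ℝ)) ((o:ℝ)) (z + w - (o:ℝ)) ((r:ℝ) + (o:ℝ)))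
    (hj_m : FRc p a b D (w - (o:ℝ)) ((o:ℝ)) (D - w + (o:ℝ)) (-(o:ℝ)))
    (hf_k : FRc p a b D (z + w - (o:ℝ)) ((r:ℝ) + (o:ℝ)) (z) ((r:ℝ)))
    (hf_j : FRc p a b D (z + w - (o:ℝ)) ((r:ℝ) + (o:ℝ)) (w - (o:ℝ)) ((o:ℝ)))
    : False := by
  have g0r : (1 : ℝ) ≤ (a:ℝ) - 1 := by exact_mod_cast g0
  clear g0
  have g1r : (1 : ℝ) ≤ -(a:ℝ) + (b:ℝ) + 1 := by exact_mod_cast g1
  clear g1
  have g2r : (1 : ℝ) ≤ -2 * (b:ℝ) + (p:ℝ) := by exact_mod_cast g2
  clear g2
  have g3r : (1 : ℝ) ≤ -(r:ℝ) := by exact_mod_cast g3
  clear g3
  have g12r : (1 : ℝ) ≤ (o:ℝ) := by exact_mod_cast g12
  clear g12
  have g13r : (1 : ℝ) ≤ (p:ℝ) - (o:ℝ) := by exact_mod_cast g13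
  clear g13
  rcases isp (b + r + o) with h | h <;> push_cast at h
  · skip
    rcases isp (b + p + r - o) with h | h <;> push_cast at h
    · skip
      rcases spl t0 (-r) with h | h <;> push_cast at h
      · skip
        rcases isp (-b + o + 1) with h | h <;> push_cast at h
        · skip
          rcases isp (-r - o + 1) with h | h <;> push_cast at h
          · skip
            exact leaf hk_m.rb (1) (s01 (ind0 (0) (by first | (push_cast; linarith) | (rcases isp (-a - r + 1) with h | h <;> push_cast at h ⊢ <;> linarith)) (by first | (push_cast; linarith) | (rcases isp (p + r) with h | h <;> push_cast at h ⊢ <;> linarith))) (ind1 (0) (by push_cast; linarith) (by push_cast; linarith))) (s01 (ind0 (0) (by first | (push_cast; linarith) | (rcases isp (-b + o + 1) with h | h <;> push_cast at h ⊢ <;> linarith)) (by first | (push_cast; linarith) | (rcases isp (p - o) with h | h <;> push_cast at h ⊢ <;> linarith))) (ind1 (0) (by push_cast; linarith) (by push_cast; linarith)))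
                (t10 (ind1 (0) (by push_cast; linarith) (by push_cast; linarith)) (ind1 (0) (by push_cast; linarith) (by first | (push_cast; linarith) | (rcases isp (b) with h | h <;> push_cast at h ⊢ <;> linarith))) (ind0 (1) (by push_cast; linarith) (by push_cast; linarith)))
                (tz (ind0 (1) (by push_cast; linarith) (by push_cast; linarith)))
                (tz (ind0 (0) (by push_cast; linarith) (by push_cast; linarith)))
                (tz (ind0 (0) (by push_cast; linarith) (by push_cast; linarith))) (by decide)
          · skip
            rcases spl t0 (b - p + o) with h | h <;> push_cast at h
            · skip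
              rcases spl t0 (0) with h | h <;> push_cast at h
              · skip
                rcases spl t1 (-a) with h | h <;> push_cast at h
                · skip
                  rcases spl t0 (-p + o) with h | h <;> push_cast at h
                  · skip
                    exact leaf hk_m.rb (b - o + 1) (s01 (ind0 (1) (by first | (push_cast; linarith) | (rcases isp (-a + b + p - r - o + 1) with h | h <;> push_cast at h ⊢ <;> linarith)) (by first | (push_cast; linarith) | (rcases isp (-b + r + o) with h | h <;> push_cast at h ⊢ <;> linarith))) (ind1 (0) (by push_cast; linarith) (by push_cast; linarith))) (s01 (ind0 (0) (by push_cast; linarith) (by first | (push_cast; linarith) | (rcases isp (-b + p) with h | h <;> push_cast at h ⊢ <;> linarith))) (ind1 (-1) (by push_cast; linarith) (by push_cast; linarith)))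
                        (t01 (ind1 (0) (by push_cast; linarith) (by push_cast; linarith)) (ind0 (1) (by first | (push_cast; linarith) | (rcases isp (p - o + 1) with h | h <;> push_cast at h ⊢ <;> linarith)) (by first | (push_cast; linarith) | (rcases isp (-b + o) with h | h <;> push_cast at h ⊢ <;> linarith))) (ind1 (0) (by push_cast; linarith) (by push_cast; linarith)))
                        (t10 (ind1 (0) (by push_cast; linarith) (by push_cast; linarith)) (ind1 (1) (by first | (push_cast; linarith) | (rcases isp (-a + b + p - o + 1) with h | h <;> push_cast at h ⊢ <;> linarith)) (by first | (push_cast; linarith) | (rcases isp (a - p + o) with h | h <;> push_cast at h ⊢ <;> linarith))) (ind0 (1) (by push_cast; linarith) (by push_cast; linarith)))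
                        (t01 (ind1 (0) (by push_cast; linarith) (by push_cast; linarith)) (ind0 (1) (by first | (push_cast; linarith) | (rcases isp (-a + b + p - o + 1) with h | h <;> push_cast at h ⊢ <;> linarith)) (by first | (push_cast; linarith) | (rcases isp (-b + o) with h | h <;> push_cast at h ⊢ <;> linarith))) (ind1 (0) (by push_cast; linarith) (by push_cast; linarith)))
                        (tz (ind0 (0) (by push_cast; linarith) (by push_cast; linarith))) (by decide)
                  · skip
                    exact leaf hk_m.lb (1) (s01 (ind0 (1) (by first | (push_cast; linarith) | (rcases isp (-a - b + p - r + 1) with h | h <;> push_cast at h ⊢ <;> linarith)) (by first | (push_cast; linarith) | (rcases isp (b + r) with h | h <;> push_cast at h ⊢ <;> linarith))) (ind1 (0) (by push_cast; linarith) (by push_cast; linarith))) (s01 (ind0 (0) (by first | (push_cast; linarith) | (rcases isp (-b + o + 1) with h | h <;> push_cast at h ⊢ <;> linarith)) (by first | (push_cast; linarith) | (rcases isp (p - o) with h | h <;> push_cast at h ⊢ <;> linarith))) (ind1 (-1) (by push_cast; linarith) (by push_cast; linarith)))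
                        (t10 (ind1 (0) (by push_cast; linarith) (by push_cast; linarith)) (ind1 (0) (by push_cast; linarith) (by first | (push_cast; linarith) | (rcases isp (b) with h | h <;> push_cast at h ⊢ <;> linarith))) (ind0 (0) (by push_cast; linarith) (by push_cast; linarith)))
                        (t01 (ind1 (0) (by push_cast; linarith) (by push_cast; linarith)) (ind0 (1) (by first | (push_cast; linarith) | (rcases isp (-a - b + p + 1) with h | h <;> push_cast at h ⊢ <;> linarith)) (by first | (push_cast; linarith) | (rcases isp (a) with h | h <;> push_cast at h ⊢ <;> linarith))) (ind1 (0) (by push_cast; linarith) (by push_cast; linarith)))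
                        (tz (ind0 (1) (by push_cast; linarith) (by push_cast; linarith)))
                        (t01 (ind1 (0) (by push_cast; linarith) (by push_cast; linarith)) (ind0 (1) (by first | (push_cast; linarith) | (rcases isp (-a - b + p + 1) with h | h <;> push_cast at h ⊢ <;> linarith)) (by first | (push_cast; linarith) | (rcases isp (b) with h | h <;> push_cast at h ⊢ <;> linarith))) (ind1 (0) (by push_cast; linarith) (by push_cast; linarith))) (by decide)
                · skip
                  rcases spl t2 (0) with h | h <;> push_cast at h
                  · skip
                    rcases isp (-b + o) with h | h <;> push_cast at h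
                    · skip
                      rcases spl t0 (-p + o) with h | h <;> push_cast at h
                      · skip
                        rcases spl t3 (r) with h | h <;> push_cast at h
                        · skip
                          exact leaf hk_f.rt (0) (s10 (ind1 (0) (by first | (push_cast; linarith) | (rcases isp (-r) with h | h <;> push_cast at h ⊢ <;> linarith)) (by first | (push_cast; linarith) | (rcases isp (a + r + 1) with h | h <;> push_cast at h ⊢ <;> linarith))) (ind0 (0) (by push_cast; linarith) (by push_cast; linarith))) (s01 (ind0 (2) (by first | (push_cast; linarith) | (rcases isp (-a - b + 2 * p - r - o) with h | h <;> push_cast at h ⊢ <;> linarith)) (by first | (push_cast; linarith) | (rcases isp (a - p + r + o + 1) with h | h <;> push_cast at h ⊢ <;> linarith))) (ind1 (1) (by push_cast; linarith) (by push_cast; linarith)))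
                              (tz (ind0 (0) (by push_cast; linarith) (by push_cast; linarith)))
                              (t01 (ind1 (0) (by push_cast; linarith) (by push_cast; linarith)) (ind0 (1) (by first | (push_cast; linarith) | (rcases isp (-a - b + p) with h | h <;> push_cast at h ⊢ <;> linarith)) (by first | (push_cast; linarith) | (rcases isp (a + 1) with h | h <;> push_cast at h ⊢ <;> linarith))) (ind1 (0) (by push_cast; linarith) (by push_cast; linarith)))
                              (t00 (ind0 (1) (by first | (push_cast; linarith) | (rcases isp (-a + p) with h | h <;> push_cast at h ⊢ <;> linarith)) (by push_cast; linarith)) (ind0 (0) (by push_cast; linarith) (by push_cast; linarith)))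
                              (tz (ind0 (0) (by push_cast; linarith) (by push_cast; linarith))) (by decide)
                        · skip
                          exact leaf hk_f.rt (0) (s10 (ind1 (0) (by first | (push_cast; linarith) | (rcases isp (-r) with h | h <;> push_cast at h ⊢ <;> linarith)) (by first | (push_cast; linarith) | (rcases isp (a + r + 1) with h | h <;> push_cast at h ⊢ <;> linarith))) (ind0 (0) (by push_cast; linarith) (by push_cast; linarith))) (s01 (ind0 (2) (by first | (push_cast; linarith) | (rcases isp (-a - b + 2 * p - r - o) with h | h <;> push_cast at h ⊢ <;> linarith)) (by first | (push_cast; linarith) | (rcases isp (a - p + r + o + 1) with h | h <;> push_cast at h ⊢ <;> linarith))) (ind1 (1) (by push_cast; linarith) (by push_cast; linarith)))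
                              (tz (ind0 (0) (by push_cast; linarith) (by push_cast; linarith)))
                              (t00 (ind0 (1) (by first | (push_cast; linarith) | (rcases isp (-a - b + p) with h | h <;> push_cast at h ⊢ <;> linarith)) (by first | (push_cast; linarith) | (rcases isp (a + 1) with h | h <;> push_cast at h ⊢ <;> linarith))) (ind0 (1) (by push_cast; linarith) (by push_cast; linarith)))
                              (t01 (ind1 (0) (by push_cast; linarith) (by push_cast; linarith)) (ind0 (1) (by first | (push_cast; linarith) | (rcases isp (-a + p) with h | h <;> push_cast at h ⊢ <;> linarith)) (by push_cast; linarith)) (ind1 (0) (by push_cast; linarith) (by push_cast; linarith)))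
                              (tz (ind0 (0) (by push_cast; linarith) (by push_cast; linarith))) (by decide)
                      · skip
                        exact leaf hk_m.lb (0) (s01 (ind0 (1) (by first | (push_cast; linarith) | (rcases isp (-a - b + p - r) with h | h <;> push_cast at h ⊢ <;> linarith)) (by first | (push_cast; linarith) | (rcases isp (b + r + 1) with h | h <;> push_cast at h ⊢ <;> linarith))) (ind1 (0) (by push_cast; linarith) (by push_cast; linarith))) (s01 (ind0 (0) (by first | (push_cast; linarith) | (rcases isp (-b + o) with h | h <;> push_cast at h ⊢ <;> linarith)) (by first | (push_cast; linarith) | (rcases isp (p - o + 1) with h | h <;> push_cast at h ⊢ <;> linarith))) (ind1 (-1) (by push_cast; linarith) (by push_cast; linarith)))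
                            (t00 (ind0 (1) (by first | (push_cast; linarith) | (rcases isp (-b + p) with h | h <;> push_cast at h ⊢ <;> linarith)) (by push_cast; linarith)) (ind0 (0) (by push_cast; linarith) (by push_cast; linarith)))
                            (tz (ind0 (1) (by push_cast; linarith) (by push_cast; linarith)))
                            (tz (ind0 (1) (by push_cast; linarith) (by push_cast; linarith)))
                            (t01 (ind1 (0) (by push_cast; linarith) (by push_cast; linarith)) (ind0 (1) (by first | (push_cast; linarith) | (rcases isp (-a - b + p) with h | h <;> push_cast at h ⊢ <;> linarith)) (by first | (push_cast; linarith) | (rcases isp (b + 1) with h | h <;> push_cast at h ⊢ <;> linarith))) (ind1 (0) (by push_cast; linarith) (by push_cast; linarith))) (by decide)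
                    · skip
                      rcases spl t3 (r) with h | h <;> push_cast at h
                      · skip
                        exact leaf hk_f.rt (0) (s10 (ind1 (0) (by first | (push_cast; linarith) | (rcases isp (-r) with h | h <;> push_cast at h ⊢ <;> linarith)) (by first | (push_cast; linarith) | (rcases isp (a + r + 1) with h | h <;> push_cast at h ⊢ <;> linarith))) (ind0 (0) (by push_cast; linarith) (by push_cast; linarith))) (s10 (ind1 (1) (by first | (push_cast; linarith) | (rcases isp (-a + p - r - o) with h | h <;> push_cast at h ⊢ <;> linarith)) (by first | (push_cast; linarith) | (rcases isp (a + b - p + r + o + 1) with h | h <;> push_cast at h ⊢ <;> linarith))) (ind0 (1) (by push_cast; linarith) (by push_cast; linarith)))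
                            (tz (ind0 (0) (by push_cast; linarith) (by push_cast; linarith)))
                            (t01 (ind1 (0) (by push_cast; linarith) (by push_cast; linarith)) (ind0 (1) (by first | (push_cast; linarith) | (rcases isp (-a - b + p) with h | h <;> push_cast at h ⊢ <;> linarith)) (by first | (push_cast; linarith) | (rcases isp (a + 1) with h | h <;> push_cast at h ⊢ <;> linarith))) (ind1 (0) (by push_cast; linarith) (by push_cast; linarith)))
                            (t00 (ind0 (1) (by first | (push_cast; linarith) | (rcases isp (-a + p) with h | h <;> push_cast at h ⊢ <;> linarith)) (by push_cast; linarith)) (ind0 (0) (by push_cast; linarith) (by push_cast; linarith)))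
                            (tz (ind0 (0) (by push_cast; linarith) (by push_cast; linarith))) (by decide)
                      · skip
                        exact leaf hk_f.rt (0) (s10 (ind1 (0) (by first | (push_cast; linarith) | (rcases isp (-r) with h | h <;> push_cast at h ⊢ <;> linarith)) (by first | (push_cast; linarith) | (rcases isp (a + r + 1) with h | h <;> push_cast at h ⊢ <;> linarith))) (ind0 (0) (by push_cast; linarith) (by push_cast; linarith))) (s10 (ind1 (1) (by first | (push_cast; linarith) | (rcases isp (-a + p - r - o) with h | h <;> push_cast at h ⊢ <;> linarith)) (by first | (push_cast; linarith) | (rcases isp (a + b - p + r + o + 1) with h | h <;> push_cast at h ⊢ <;> linarith))) (ind0 (1) (by push_cast; linarith) (by push_cast; linarith)))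
                            (tz (ind0 (0) (by push_cast; linarith) (by push_cast; linarith)))
                            (t00 (ind0 (1) (by first | (push_cast; linarith) | (rcases isp (-a - b + p) with h | h <;> push_cast at h ⊢ <;> linarith)) (by first | (push_cast; linarith) | (rcases isp (a + 1) with h | h <;> push_cast at h ⊢ <;> linarith))) (ind0 (1) (by push_cast; linarith) (by push_cast; linarith)))
                            (t01 (ind1 (0) (by push_cast; linarith) (by push_cast; linarith)) (ind0 (1) (by first | (push_cast; linarith) | (rcases isp (-a + p) with h | h <;> push_cast at h ⊢ <;> linarith)) (by push_cast; linarith)) (ind1 (0) (by push_cast; linarith) (by push_cast; linarith)))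
                            (tz (ind0 (0) (by push_cast; linarith) (by push_cast; linarith))) (by decide)
                  · skip
                    rcases spl t4 (b - p + o) with h | h <;> push_cast at h
                    · skip
                      exact leaf hk_j.rb (b + 1) (s01 (ind0 (0) (by first | (push_cast; linarith) | (rcases isp (-a + b - r + 1) with h | h <;> push_cast at h ⊢ <;> linarith)) (by first | (push_cast; linarith) | (rcases isp (-b + p + r) with h | h <;> push_cast at h ⊢ <;> linarith))) (ind1 (0) (by push_cast; linarith) (by push_cast; linarith))) (s01 (ind0 (1) (by first | (push_cast; linarith) | (rcases isp (p - o + 1) with h | h <;> push_cast at h ⊢ <;> linarith)) (by first | (push_cast; linarith) | (rcases isp (-b + o) with h | h <;> push_cast at h ⊢ <;> linarith))) (ind1 (1) (by push_cast; linarith) (by push_cast; linarith)))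
                          (t01 (ind1 (0) (by push_cast; linarith) (by push_cast; linarith)) (ind0 (0) (by push_cast; linarith) (by first | (push_cast; linarith) | (rcases isp (-b + p) with h | h <;> push_cast at h ⊢ <;> linarith))) (ind1 (0) (by push_cast; linarith) (by push_cast; linarith)))
                          (tz (ind0 (1) (by push_cast; linarith) (by push_cast; linarith)))
                          (tz (ind0 (1) (by push_cast; linarith) (by push_cast; linarith)))
                          (tz (ind0 (0) (by push_cast; linarith) (by push_cast; linarith))) (by decide)
                    · skip
                      exact leaf hk_j.rb (o + 1) (s01 (ind0 (0) (by first | (push_cast; linarith) | (rcases isp (-a - r + o + 1) with h | h <;> push_cast at h ⊢ <;> linarith)) (by first | (push_cast; linarith) | (rcases isp (p + r - o) with h | h <;> push_cast at h ⊢ <;> linarith))) (ind1 (0) (by push_cast; linarith) (by push_cast; linarith))) (s10 (ind1 (0) (by push_cast; linarith) (by first | (push_cast; linarith) | (rcases isp (b) with h | h <;> push_cast at h ⊢ <;> linarith))) (ind0 (1) (by push_cast; linarith) (by push_cast; linarith)))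
                          (t01 (ind1 (0) (by push_cast; linarith) (by push_cast; linarith)) (ind0 (0) (by first | (push_cast; linarith) | (rcases isp (-b + o + 1) with h | h <;> push_cast at h ⊢ <;> linarith)) (by first | (push_cast; linarith) | (rcases isp (p - o) with h | h <;> push_cast at h ⊢ <;> linarith))) (ind1 (0) (by push_cast; linarith) (by push_cast; linarith)))
                          (tz (ind0 (1) (by push_cast; linarith) (by push_cast; linarith)))
                          (tz (ind0 (1) (by push_cast; linarith) (by push_cast; linarith)))
                          (tz (ind0 (0) (by push_cast; linarith) (by push_cast; linarith))) (by decide)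
              · skip
                rcases isp (b + r) with h | h <;> push_cast at h
                · skip
                  rcases spl t1 (-a) with h | h <;> push_cast at h
                  · skip
                    exact leaf hk_m.lb (1) (s01 (ind0 (1) (by first | (push_cast; linarith) | (rcases isp (-a - b + p - r + 1) with h | h <;> push_cast at h ⊢ <;> linarith)) (by first | (push_cast; linarith) | (rcases isp (b + r) with h | h <;> push_cast at h ⊢ <;> linarith))) (ind1 (0) (by push_cast; linarith) (by push_cast; linarith))) (s01 (ind0 (0) (by first | (push_cast; linarith) | (rcases isp (-b + o + 1) with h | h <;> push_cast at h ⊢ <;> linarith)) (by first | (push_cast; linarith) | (rcases isp (p - o) with h | h <;> push_cast at h ⊢ <;> linarith))) (ind1 (-1) (by push_cast; linarith) (by push_cast; linarith)))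
                        (t11 (ind1 (0) (by push_cast; linarith) (by first | (push_cast; linarith) | (rcases isp (b) with h | h <;> push_cast at h ⊢ <;> linarith))) (ind1 (0) (by push_cast; linarith) (by push_cast; linarith)))
                        (t01 (ind1 (0) (by push_cast; linarith) (by push_cast; linarith)) (ind0 (1) (by first | (push_cast; linarith) | (rcases isp (-a - b + p + 1) with h | h <;> push_cast at h ⊢ <;> linarith)) (by first | (push_cast; linarith) | (rcases isp (a) with h | h <;> push_cast at h ⊢ <;> linarith))) (ind1 (0) (by push_cast; linarith) (by push_cast; linarith)))
                        (tz (ind0 (1) (by push_cast; linarith) (by push_cast; linarith)))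
                        (t00 (ind0 (1) (by first | (push_cast; linarith) | (rcases isp (-a - b + p + 1) with h | h <;> push_cast at h ⊢ <;> linarith)) (by first | (push_cast; linarith) | (rcases isp (b) with h | h <;> push_cast at h ⊢ <;> linarith))) (ind0 (1) (by push_cast; linarith) (by push_cast; linarith))) (by decide)
                  · skip
                    exact leaf hk_m.lb (0) (s01 (ind0 (1) (by first | (push_cast; linarith) | (rcases isp (-a - b + p - r) with h | h <;> push_cast at h ⊢ <;> linarith)) (by first | (push_cast; linarith) | (rcases isp (b + r + 1) with h | h <;> push_cast at h ⊢ <;> linarith))) (ind1 (0) (by push_cast; linarith) (by push_cast; linarith))) (s01 (ind0 (0) (by first | (push_cast; linarith) | (rcases isp (-b + o) with h | h <;> push_cast at h ⊢ <;> linarith)) (by first | (push_cast; linarith) | (rcases isp (p - o + 1) with h | h <;> push_cast at h ⊢ <;> linarith))) (ind1 (-1) (by push_cast; linarith) (by push_cast; linarith)))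
                        (t01 (ind1 (0) (by push_cast; linarith) (by push_cast; linarith)) (ind0 (1) (by first | (push_cast; linarith) | (rcases isp (-b + p) with h | h <;> push_cast at h ⊢ <;> linarith)) (by push_cast; linarith)) (ind1 (0) (by push_cast; linarith) (by push_cast; linarith)))
                        (tz (ind0 (1) (by push_cast; linarith) (by push_cast; linarith)))
                        (tz (ind0 (1) (by push_cast; linarith) (by push_cast; linarith)))
                        (t00 (ind0 (1) (by first | (push_cast; linarith) | (rcases isp (-a - b + p) with h | h <;> push_cast at h ⊢ <;> linarith)) (by first | (push_cast; linarith) | (rcases isp (b + 1) with h | h <;> push_cast at h ⊢ <;> linarith))) (ind0 (1) (by push_cast; linarith) (by push_cast; linarith))) (by decide)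
                · skip
                  exact leaf hk_m.lb (b + r) (s01 (ind0 (1) (by first | (push_cast; linarith) | (rcases isp (-a + p) with h | h <;> push_cast at h ⊢ <;> linarith)) (by push_cast; linarith)) (ind1 (0) (by push_cast; linarith) (by push_cast; linarith))) (s01 (ind0 (0) (by first | (push_cast; linarith) | (rcases isp (r + o) with h | h <;> push_cast at h ⊢ <;> linarith)) (by first | (push_cast; linarith) | (rcases isp (-b + p - r - o + 1) with h | h <;> push_cast at h ⊢ <;> linarith))) (ind1 (-1) (by push_cast; linarith) (by push_cast; linarith)))
                      (t01 (ind1 (0) (by push_cast; linarith) (by push_cast; linarith)) (ind0 (1) (by first | (push_cast; linarith) | (rcases isp (p + r) with h | h <;> push_cast at h ⊢ <;> linarith)) (by first | (push_cast; linarith) | (rcases isp (-b - r + 1) with h | h <;> push_cast at h ⊢ <;> linarith))) (ind1 (0) (by push_cast; linarith) (by push_cast; linarith)))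
                      (tz (ind0 (1) (by push_cast; linarith) (by push_cast; linarith)))
                      (tz (ind0 (1) (by push_cast; linarith) (by push_cast; linarith)))
                      (tz (ind0 (0) (by push_cast; linarith) (by push_cast; linarith))) (by decide)
            · skip
              rcases isp (-b - r + 1) with h | h <;> push_cast at h
              · skip
                exact leaf hk_m.lb (b - o) (s01 (ind0 (1) (by first | (push_cast; linarith) | (rcases isp (-a + p - r - o) with h | h <;> push_cast at h ⊢ <;> linarith)) (by first | (push_cast; linarith) | (rcases isp (r + o + 1) with h | h <;> push_cast at h ⊢ <;> linarith))) (ind1 (0) (by push_cast; linarith) (by push_cast; linarith))) (s10 (ind1 (0) (by first | (push_cast; linarith) | (rcases isp (b) with h | h <;> push_cast at h ⊢ <;> linarith)) (by push_cast; linarith)) (ind0 (0) (by push_cast; linarith) (by push_cast; linarith)))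
                    (t01 (ind1 (0) (by push_cast; linarith) (by push_cast; linarith)) (ind0 (1) (by first | (push_cast; linarith) | (rcases isp (p - o) with h | h <;> push_cast at h ⊢ <;> linarith)) (by first | (push_cast; linarith) | (rcases isp (-b + o + 1) with h | h <;> push_cast at h ⊢ <;> linarith))) (ind1 (0) (by push_cast; linarith) (by push_cast; linarith)))
                    (tz (ind0 (1) (by push_cast; linarith) (by push_cast; linarith)))
                    (tz (ind0 (1) (by push_cast; linarith) (by push_cast; linarith)))
                    (tz (ind0 (0) (by push_cast; linarith) (by push_cast; linarith))) (by decide)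
              · skip
                rcases spl t5 (0) with h | h <;> push_cast at h
                · skip
                  rcases spl t2 (r) with h | h <;> push_cast at h
                  · skip
                    rcases spl t6 (-o) with h | h <;> push_cast at h
                    · skip
                      rcases isp (-b + p - o) with h | h <;> push_cast at h
                      · skip
                        exact leaf hf_j.lb (b + o + 1) (s10 (ind1 (0) (by first | (push_cast; linarith) | (rcases isp (-r + 1) with h | h <;> push_cast at h ⊢ <;> linarith)) (by first | (push_cast; linarith) | (rcases isp (a + r) with h | h <;> push_cast at h ⊢ <;> linarith))) (ind0 (1) (by push_cast; linarith) (by push_cast; linarith))) (s01 (ind0 (0) (by push_cast; linarith) (by first | (push_cast; linarith) | (rcases isp (-b + p) with h | h <;> push_cast at h ⊢ <;> linarith))) (ind1 (0) (by push_cast; linarith) (by push_cast; linarith)))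
                            (t00 (ind0 (0) (by first | (push_cast; linarith) | (rcases isp (o + 1) with h | h <;> push_cast at h ⊢ <;> linarith)) (by first | (push_cast; linarith) | (rcases isp (-b + p - o) with h | h <;> push_cast at h ⊢ <;> linarith))) (ind0 (0) (by push_cast; linarith) (by push_cast; linarith)))
                            (tz (ind0 (1) (by push_cast; linarith) (by push_cast; linarith)))
                            (tz (ind0 (1) (by push_cast; linarith) (by push_cast; linarith)))
                            (t01 (ind1 (0) (by push_cast; linarith) (by push_cast; linarith)) (ind0 (0) (by first | (push_cast; linarith) | (rcases isp (-a + o + 1) with h | h <;> push_cast at h ⊢ <;> linarith)) (by first | (push_cast; linarith) | (rcases isp (p - o) with h | h <;> push_cast at h ⊢ <;> linarith))) (ind1 (0) (by push_cast; linarith) (by push_cast; linarith))) (by decide)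
                      · skip
                        rcases spl t3 (r) with h | h <;> push_cast at h
                        · skip
                          exact leaf hk_f.rt (0) (s10 (ind1 (0) (by first | (push_cast; linarith) | (rcases isp (-r) with h | h <;> push_cast at h ⊢ <;> linarith)) (by first | (push_cast; linarith) | (rcases isp (a + r + 1) with h | h <;> push_cast at h ⊢ <;> linarith))) (ind0 (0) (by push_cast; linarith) (by push_cast; linarith))) (s10 (ind1 (1) (by first | (push_cast; linarith) | (rcases isp (-a + p - r - o) with h | h <;> push_cast at h ⊢ <;> linarith)) (by first | (push_cast; linarith) | (rcases isp (a + b - p + r + o + 1) with h | h <;> push_cast at h ⊢ <;> linarith))) (ind0 (1) (by push_cast; linarith) (by push_cast; linarith)))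
                              (tz (ind0 (0) (by push_cast; linarith) (by push_cast; linarith)))
                              (t01 (ind1 (0) (by push_cast; linarith) (by push_cast; linarith)) (ind0 (1) (by first | (push_cast; linarith) | (rcases isp (-a - b + p) with h | h <;> push_cast at h ⊢ <;> linarith)) (by first | (push_cast; linarith) | (rcases isp (a + 1) with h | h <;> push_cast at h ⊢ <;> linarith))) (ind1 (0) (by push_cast; linarith) (by push_cast; linarith)))
                              (t00 (ind0 (1) (by first | (push_cast; linarith) | (rcases isp (-a + p) with h | h <;> push_cast at h ⊢ <;> linarith)) (by push_cast; linarith)) (ind0 (0) (by push_cast; linarith) (by push_cast; linarith)))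
                              (tz (ind0 (0) (by push_cast; linarith) (by push_cast; linarith))) (by decide)
                        · skip
                          exact leaf hk_f.rt (0) (s10 (ind1 (0) (by first | (push_cast; linarith) | (rcases isp (-r) with h | h <;> push_cast at h ⊢ <;> linarith)) (by first | (push_cast; linarith) | (rcases isp (a + r + 1) with h | h <;> push_cast at h ⊢ <;> linarith))) (ind0 (0) (by push_cast; linarith) (by push_cast; linarith))) (s10 (ind1 (1) (by first | (push_cast; linarith) | (rcases isp (-a + p - r - o) with h | h <;> push_cast at h ⊢ <;> linarith)) (by first | (push_cast; linarith) | (rcases isp (a + b - p + r + o + 1) with h | h <;> push_cast at h ⊢ <;> linarith))) (ind0 (1) (by push_cast; linarith) (by push_cast; linarith)))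
                              (tz (ind0 (0) (by push_cast; linarith) (by push_cast; linarith)))
                              (t00 (ind0 (1) (by first | (push_cast; linarith) | (rcases isp (-a - b + p) with h | h <;> push_cast at h ⊢ <;> linarith)) (by first | (push_cast; linarith) | (rcases isp (a + 1) with h | h <;> push_cast at h ⊢ <;> linarith))) (ind0 (1) (by push_cast; linarith) (by push_cast; linarith)))
                              (t01 (ind1 (0) (by push_cast; linarith) (by push_cast; linarith)) (ind0 (1) (by first | (push_cast; linarith) | (rcases isp (-a + p) with h | h <;> push_cast at h ⊢ <;> linarith)) (by push_cast; linarith)) (ind1 (0) (by push_cast; linarith) (by push_cast; linarith)))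
                              (tz (ind0 (0) (by push_cast; linarith) (by push_cast; linarith))) (by decide)
                    · skip
                      exact leaf hf_k.lt (a + b + r) (s01 (ind0 (1) (by first | (push_cast; linarith) | (rcases isp (p - o) with h | h <;> push_cast at h ⊢ <;> linarith)) (by first | (push_cast; linarith) | (rcases isp (-a + o + 1) with h | h <;> push_cast at h ⊢ <;> linarith))) (ind1 (0) (by push_cast; linarith) (by push_cast; linarith))) (s10 (ind1 (0) (by first | (push_cast; linarith) | (rcases isp (b) with h | h <;> push_cast at h ⊢ <;> linarith)) (by push_cast; linarith)) (ind0 (0) (by push_cast; linarith) (by push_cast; linarith)))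
                          (tz (ind0 (0) (by push_cast; linarith) (by push_cast; linarith)))
                          (t10 (ind1 (0) (by push_cast; linarith) (by push_cast; linarith)) (ind1 (0) (by first | (push_cast; linarith) | (rcases isp (b + r) with h | h <;> push_cast at h ⊢ <;> linarith)) (by first | (push_cast; linarith) | (rcases isp (-r + 1) with h | h <;> push_cast at h ⊢ <;> linarith))) (ind0 (0) (by push_cast; linarith) (by push_cast; linarith)))
                          (tz (ind0 (1) (by push_cast; linarith) (by push_cast; linarith)))
                          (tz (ind0 (1) (by push_cast; linarith) (by push_cast; linarith))) (by decide)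
                  · skip
                    rcases spl t2 (0) with h | h <;> push_cast at h
                    · skip
                      rcases spl t6 (-o) with h | h <;> push_cast at h
                      · skip
                        exact leaf hf_k.rb (r + o + 1) (s10 (ind1 (0) (by push_cast; linarith) (by first | (push_cast; linarith) | (rcases isp (a) with h | h <;> push_cast at h ⊢ <;> linarith))) (ind0 (1) (by push_cast; linarith) (by push_cast; linarith))) (s01 (ind0 (0) (by first | (push_cast; linarith) | (rcases isp (-b + o + 1) with h | h <;> push_cast at h ⊢ <;> linarith)) (by first | (push_cast; linarith) | (rcases isp (p - o) with h | h <;> push_cast at h ⊢ <;> linarith))) (ind1 (0) (by push_cast; linarith) (by push_cast; linarith)))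
                            (tz (ind0 (1) (by push_cast; linarith) (by push_cast; linarith)))
                            (tz (ind0 (1) (by push_cast; linarith) (by push_cast; linarith)))
                            (t10 (ind1 (0) (by push_cast; linarith) (by push_cast; linarith)) (ind1 (0) (by first | (push_cast; linarith) | (rcases isp (r + o + 1) with h | h <;> push_cast at h ⊢ <;> linarith)) (by first | (push_cast; linarith) | (rcases isp (a - r - o) with h | h <;> push_cast at h ⊢ <;> linarith))) (ind0 (1) (by push_cast; linarith) (by push_cast; linarith)))
                            (tz (ind0 (0) (by push_cast; linarith) (by push_cast; linarith))) (by decide)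
                      · skip
                        exact leaf hf_j.lb (b) (s01 (ind0 (1) (by first | (push_cast; linarith) | (rcases isp (-a + p - r - o) with h | h <;> push_cast at h ⊢ <;> linarith)) (by first | (push_cast; linarith) | (rcases isp (r + o + 1) with h | h <;> push_cast at h ⊢ <;> linarith))) (ind1 (0) (by push_cast; linarith) (by push_cast; linarith))) (s01 (ind0 (1) (by first | (push_cast; linarith) | (rcases isp (p - o) with h | h <;> push_cast at h ⊢ <;> linarith)) (by first | (push_cast; linarith) | (rcases isp (-b + o + 1) with h | h <;> push_cast at h ⊢ <;> linarith))) (ind1 (0) (by push_cast; linarith) (by push_cast; linarith)))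
                            (t10 (ind1 (0) (by push_cast; linarith) (by push_cast; linarith)) (ind1 (0) (by first | (push_cast; linarith) | (rcases isp (b) with h | h <;> push_cast at h ⊢ <;> linarith)) (by push_cast; linarith)) (ind0 (0) (by push_cast; linarith) (by push_cast; linarith)))
                            (tz (ind0 (1) (by push_cast; linarith) (by push_cast; linarith)))
                            (tz (ind0 (1) (by push_cast; linarith) (by push_cast; linarith)))
                            (tz (ind0 (1) (by push_cast; linarith) (by push_cast; linarith))) (by decide)
                    · skip
                      exact leaf hk_m.rb (-o + 1) (s01 (ind0 (1) (by first | (push_cast; linarith) | (rcases isp (-a + p - r - o + 1) with h | h <;> push_cast at h ⊢ <;> linarith)) (by first | (push_cast; linarith) | (rcases isp (r + o) with h | h <;> push_cast at h ⊢ <;> linarith))) (ind1 (0) (by push_cast; linarith) (by push_cast; linarith))) (s10 (ind1 (0) (by push_cast; linarith) (by first | (push_cast; linarith) | (rcases isp (b) with h | h <;> push_cast at h ⊢ <;> linarith))) (ind0 (0) (by push_cast; linarith) (by push_cast; linarith)))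
                          (t01 (ind1 (0) (by push_cast; linarith) (by push_cast; linarith)) (ind0 (1) (by first | (push_cast; linarith) | (rcases isp (-b + p - o + 1) with h | h <;> push_cast at h ⊢ <;> linarith)) (by first | (push_cast; linarith) | (rcases isp (o) with h | h <;> push_cast at h ⊢ <;> linarith))) (ind1 (0) (by push_cast; linarith) (by push_cast; linarith)))
                          (tz (ind0 (1) (by push_cast; linarith) (by push_cast; linarith)))
                          (tz (ind0 (1) (by push_cast; linarith) (by push_cast; linarith)))
                          (tz (ind0 (0) (by push_cast; linarith) (by push_cast; linarith))) (by decide)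
                · skip
                  rcases spl t1 (-a) with h | h <;> push_cast at h
                  · skip
                    rcases isp (a + b - p + o) with h | h <;> push_cast at h
                    · skip
                      exact leaf hk_m.lb (a + b) (s01 (ind0 (0) (by first | (push_cast; linarith) | (rcases isp (-r) with h | h <;> push_cast at h ⊢ <;> linarith)) (by first | (push_cast; linarith) | (rcases isp (-a + p + r + 1) with h | h <;> push_cast at h ⊢ <;> linarith))) (ind1 (0) (by push_cast; linarith) (by push_cast; linarith))) (s10 (ind1 (-1) (by first | (push_cast; linarith) | (rcases isp (a + b - p + o) with h | h <;> push_cast at h ⊢ <;> linarith)) (by first | (push_cast; linarith) | (rcases isp (-a + p - o + 1) with h | h <;> push_cast at h ⊢ <;> linarith))) (ind0 (0) (by push_cast; linarith) (by push_cast; linarith)))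
                          (t01 (ind1 (0) (by push_cast; linarith) (by push_cast; linarith)) (ind0 (0) (by first | (push_cast; linarith) | (rcases isp (a) with h | h <;> push_cast at h ⊢ <;> linarith)) (by first | (push_cast; linarith) | (rcases isp (-a - b + p + 1) with h | h <;> push_cast at h ⊢ <;> linarith))) (ind1 (0) (by push_cast; linarith) (by push_cast; linarith)))
                          (t11 (ind1 (0) (by first | (push_cast; linarith) | (rcases isp (b) with h | h <;> push_cast at h ⊢ <;> linarith)) (by push_cast; linarith)) (ind1 (0) (by push_cast; linarith) (by push_cast; linarith)))
                          (tz (ind0 (1) (by push_cast; linarith) (by push_cast; linarith)))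
                          (tz (ind0 (0) (by push_cast; linarith) (by push_cast; linarith))) (by decide)
                    · skip
                      exact leaf hf_j.lt (1) (s01 (ind0 (1) (by first | (push_cast; linarith) | (rcases isp (-a - b + p - r - o + 1) with h | h <;> push_cast at h ⊢ <;> linarith)) (by first | (push_cast; linarith) | (rcases isp (b + r + o) with h | h <;> push_cast at h ⊢ <;> linarith))) (ind1 (0) (by push_cast; linarith) (by push_cast; linarith))) (s01 (ind0 (1) (by first | (push_cast; linarith) | (rcases isp (-a - b + p - o + 1) with h | h <;> push_cast at h ⊢ <;> linarith)) (by first | (push_cast; linarith) | (rcases isp (a + o) with h | h <;> push_cast at h ⊢ <;> linarith))) (ind1 (0) (by push_cast; linarith) (by push_cast; linarith)))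
                          (t10 (ind1 (0) (by push_cast; linarith) (by push_cast; linarith)) (ind1 (0) (by push_cast; linarith) (by first | (push_cast; linarith) | (rcases isp (b) with h | h <;> push_cast at h ⊢ <;> linarith))) (ind0 (0) (by push_cast; linarith) (by push_cast; linarith)))
                          (t00 (ind0 (1) (by first | (push_cast; linarith) | (rcases isp (-a - b + p + 1) with h | h <;> push_cast at h ⊢ <;> linarith)) (by first | (push_cast; linarith) | (rcases isp (a) with h | h <;> push_cast at h ⊢ <;> linarith))) (ind0 (0) (by push_cast; linarith) (by push_cast; linarith)))
                          (tz (ind0 (1) (by push_cast; linarith) (by push_cast; linarith)))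
                          (t00 (ind0 (1) (by first | (push_cast; linarith) | (rcases isp (-a - b + p + 1) with h | h <;> push_cast at h ⊢ <;> linarith)) (by first | (push_cast; linarith) | (rcases isp (b) with h | h <;> push_cast at h ⊢ <;> linarith))) (ind0 (0) (by push_cast; linarith) (by push_cast; linarith))) (by decide)
                  · skip
                    exact leaf hk_m.lb (b - o) (s01 (ind0 (1) (by first | (push_cast; linarith) | (rcases isp (-a + p - r - o) with h | h <;> push_cast at h ⊢ <;> linarith)) (by first | (push_cast; linarith) | (rcases isp (r + o + 1) with h | h <;> push_cast at h ⊢ <;> linarith))) (ind1 (0) (by push_cast; linarith) (by push_cast; linarith))) (s10 (ind1 (0) (by first | (push_cast; linarith) | (rcases isp (b) with h | h <;> push_cast at h ⊢ <;> linarith)) (by push_cast; linarith)) (ind0 (0) (by push_cast; linarith) (by push_cast; linarith)))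
                        (t01 (ind1 (0) (by push_cast; linarith) (by push_cast; linarith)) (ind0 (1) (by first | (push_cast; linarith) | (rcases isp (p - o) with h | h <;> push_cast at h ⊢ <;> linarith)) (by first | (push_cast; linarith) | (rcases isp (-b + o + 1) with h | h <;> push_cast at h ⊢ <;> linarith))) (ind1 (0) (by push_cast; linarith) (by push_cast; linarith)))
                        (tz (ind0 (1) (by push_cast; linarith) (by push_cast; linarith)))
                        (tz (ind0 (1) (by push_cast; linarith) (by push_cast; linarith)))
                        (tz (ind0 (0) (by push_cast; linarith) (by push_cast; linarith))) (by decide)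
        · skip
          rcases spl t0 (0) with h | h <;> push_cast at h
          · skip
            rcases spl t3 (-r - o) with h | h <;> push_cast at h
            · skip
              exact leaf hk_m.rt (0) (s10 (ind1 (0) (by first | (push_cast; linarith) | (rcases isp (-r) with h | h <;> push_cast at h ⊢ <;> linarith)) (by first | (push_cast; linarith) | (rcases isp (a + r + 1) with h | h <;> push_cast at h ⊢ <;> linarith))) (ind0 (0) (by push_cast; linarith) (by push_cast; linarith))) (s01 (ind0 (1) (by first | (push_cast; linarith) | (rcases isp (-a - b + p + o) with h | h <;> push_cast at h ⊢ <;> linarith)) (by first | (push_cast; linarith) | (rcases isp (a - o + 1) with h | h <;> push_cast at h ⊢ <;> linarith))) (ind1 (0) (by push_cast; linarith) (by push_cast; linarith)))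
                  (tz (ind0 (0) (by push_cast; linarith) (by push_cast; linarith)))
                  (t01 (ind1 (0) (by push_cast; linarith) (by push_cast; linarith)) (ind0 (1) (by first | (push_cast; linarith) | (rcases isp (-a - b + p) with h | h <;> push_cast at h ⊢ <;> linarith)) (by first | (push_cast; linarith) | (rcases isp (a + 1) with h | h <;> push_cast at h ⊢ <;> linarith))) (ind1 (0) (by push_cast; linarith) (by push_cast; linarith)))
                  (t00 (ind0 (1) (by first | (push_cast; linarith) | (rcases isp (-a + p) with h | h <;> push_cast at h ⊢ <;> linarith)) (by push_cast; linarith)) (ind0 (0) (by push_cast; linarith) (by push_cast; linarith)))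
                  (tz (ind0 (0) (by push_cast; linarith) (by push_cast; linarith))) (by decide)
            · skip
              rcases spl t1 (-a) with h | h <;> push_cast at h
              · skip
                rcases spl t0 (b - p + o) with h | h <;> push_cast at h
                · skip
                  exact leaf hk_m.lb (b - o + 1) (s01 (ind0 (1) (by first | (push_cast; linarith) | (rcases isp (-a + p - r - o + 1) with h | h <;> push_cast at h ⊢ <;> linarith)) (by first | (push_cast; linarith) | (rcases isp (r + o) with h | h <;> push_cast at h ⊢ <;> linarith))) (ind1 (0) (by push_cast; linarith) (by push_cast; linarith))) (s01 (ind0 (0) (by push_cast; linarith) (by first | (push_cast; linarith) | (rcases isp (-b + p) with h | h <;> push_cast at h ⊢ <;> linarith))) (ind1 (-1) (by push_cast; linarith) (by push_cast; linarith)))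
                      (t10 (ind1 (0) (by push_cast; linarith) (by push_cast; linarith)) (ind1 (0) (by first | (push_cast; linarith) | (rcases isp (b - o + 1) with h | h <;> push_cast at h ⊢ <;> linarith)) (by first | (push_cast; linarith) | (rcases isp (o) with h | h <;> push_cast at h ⊢ <;> linarith))) (ind0 (0) (by push_cast; linarith) (by push_cast; linarith)))
                      (t01 (ind1 (0) (by push_cast; linarith) (by push_cast; linarith)) (ind0 (1) (by first | (push_cast; linarith) | (rcases isp (-a + p - o + 1) with h | h <;> push_cast at h ⊢ <;> linarith)) (by first | (push_cast; linarith) | (rcases isp (a - b + o) with h | h <;> push_cast at h ⊢ <;> linarith))) (ind1 (0) (by push_cast; linarith) (by push_cast; linarith)))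
                      (tz (ind0 (1) (by push_cast; linarith) (by push_cast; linarith)))
                      (t01 (ind1 (0) (by push_cast; linarith) (by push_cast; linarith)) (ind0 (1) (by first | (push_cast; linarith) | (rcases isp (-a + p - o + 1) with h | h <;> push_cast at h ⊢ <;> linarith)) (by first | (push_cast; linarith) | (rcases isp (o) with h | h <;> push_cast at h ⊢ <;> linarith))) (ind1 (0) (by push_cast; linarith) (by push_cast; linarith))) (by decide)
                · skip
                  exact leaf hk_m.lb (1) (s01 (ind0 (1) (by first | (push_cast; linarith) | (rcases isp (-a - b + p - r + 1) with h | h <;> push_cast at h ⊢ <;> linarith)) (by first | (push_cast; linarith) | (rcases isp (b + r) with h | h <;> push_cast at h ⊢ <;> linarith))) (ind1 (0) (by push_cast; linarith) (by push_cast; linarith))) (s10 (ind1 (0) (by first | (push_cast; linarith) | (rcases isp (o + 1) with h | h <;> push_cast at h ⊢ <;> linarith)) (by first | (push_cast; linarith) | (rcases isp (b - o) with h | h <;> push_cast at h ⊢ <;> linarith))) (ind0 (0) (by push_cast; linarith) (by push_cast; linarith)))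
                      (t10 (ind1 (0) (by push_cast; linarith) (by push_cast; linarith)) (ind1 (0) (by push_cast; linarith) (by first | (push_cast; linarith) | (rcases isp (b) with h | h <;> push_cast at h ⊢ <;> linarith))) (ind0 (0) (by push_cast; linarith) (by push_cast; linarith)))
                      (t01 (ind1 (0) (by push_cast; linarith) (by push_cast; linarith)) (ind0 (1) (by first | (push_cast; linarith) | (rcases isp (-a - b + p + 1) with h | h <;> push_cast at h ⊢ <;> linarith)) (by first | (push_cast; linarith) | (rcases isp (a) with h | h <;> push_cast at h ⊢ <;> linarith))) (ind1 (0) (by push_cast; linarith) (by push_cast; linarith)))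
                      (tz (ind0 (1) (by push_cast; linarith) (by push_cast; linarith)))
                      (t01 (ind1 (0) (by push_cast; linarith) (by push_cast; linarith)) (ind0 (1) (by first | (push_cast; linarith) | (rcases isp (-a - b + p + 1) with h | h <;> push_cast at h ⊢ <;> linarith)) (by first | (push_cast; linarith) | (rcases isp (b) with h | h <;> push_cast at h ⊢ <;> linarith))) (ind1 (0) (by push_cast; linarith) (by push_cast; linarith))) (by decide)
              · skip
                rcases spl t2 (0) with h | h <;> push_cast at h
                · skip
                  rcases spl t0 (b - p + o) with h | h <;> push_cast at h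
                  · skip
                    rcases spl t3 (r) with h | h <;> push_cast at h
                    · skip
                      exact leaf hk_f.rt (0) (s10 (ind1 (0) (by first | (push_cast; linarith) | (rcases isp (-r) with h | h <;> push_cast at h ⊢ <;> linarith)) (by first | (push_cast; linarith) | (rcases isp (a + r + 1) with h | h <;> push_cast at h ⊢ <;> linarith))) (ind0 (0) (by push_cast; linarith) (by push_cast; linarith))) (s10 (ind1 (1) (by first | (push_cast; linarith) | (rcases isp (-a + p - r - o) with h | h <;> push_cast at h ⊢ <;> linarith)) (by first | (push_cast; linarith) | (rcases isp (a + b - p + r + o + 1) with h | h <;> push_cast at h ⊢ <;> linarith))) (ind0 (1) (by push_cast; linarith) (by push_cast; linarith)))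
                          (tz (ind0 (0) (by push_cast; linarith) (by push_cast; linarith)))
                          (t01 (ind1 (0) (by push_cast; linarith) (by push_cast; linarith)) (ind0 (1) (by first | (push_cast; linarith) | (rcases isp (-a - b + p) with h | h <;> push_cast at h ⊢ <;> linarith)) (by first | (push_cast; linarith) | (rcases isp (a + 1) with h | h <;> push_cast at h ⊢ <;> linarith))) (ind1 (0) (by push_cast; linarith) (by push_cast; linarith)))
                          (t00 (ind0 (1) (by first | (push_cast; linarith) | (rcases isp (-a + p) with h | h <;> push_cast at h ⊢ <;> linarith)) (by push_cast; linarith)) (ind0 (0) (by push_cast; linarith) (by push_cast; linarith)))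
                          (tz (ind0 (0) (by push_cast; linarith) (by push_cast; linarith))) (by decide)
                    · skip
                      exact leaf hk_f.rt (0) (s10 (ind1 (0) (by first | (push_cast; linarith) | (rcases isp (-r) with h | h <;> push_cast at h ⊢ <;> linarith)) (by first | (push_cast; linarith) | (rcases isp (a + r + 1) with h | h <;> push_cast at h ⊢ <;> linarith))) (ind0 (0) (by push_cast; linarith) (by push_cast; linarith))) (s10 (ind1 (1) (by first | (push_cast; linarith) | (rcases isp (-a + p - r - o) with h | h <;> push_cast at h ⊢ <;> linarith)) (by first | (push_cast; linarith) | (rcases isp (a + b - p + r + o + 1) with h | h <;> push_cast at h ⊢ <;> linarith))) (ind0 (1) (by push_cast; linarith) (by push_cast; linarith)))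
                          (tz (ind0 (0) (by push_cast; linarith) (by push_cast; linarith)))
                          (t00 (ind0 (1) (by first | (push_cast; linarith) | (rcases isp (-a - b + p) with h | h <;> push_cast at h ⊢ <;> linarith)) (by first | (push_cast; linarith) | (rcases isp (a + 1) with h | h <;> push_cast at h ⊢ <;> linarith))) (ind0 (1) (by push_cast; linarith) (by push_cast; linarith)))
                          (t01 (ind1 (0) (by push_cast; linarith) (by push_cast; linarith)) (ind0 (1) (by first | (push_cast; linarith) | (rcases isp (-a + p) with h | h <;> push_cast at h ⊢ <;> linarith)) (by push_cast; linarith)) (ind1 (0) (by push_cast; linarith) (by push_cast; linarith)))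
                          (tz (ind0 (0) (by push_cast; linarith) (by push_cast; linarith))) (by decide)
                  · skip
                    exact leaf hk_m.lb (0) (s01 (ind0 (1) (by first | (push_cast; linarith) | (rcases isp (-a - b + p - r) with h | h <;> push_cast at h ⊢ <;> linarith)) (by first | (push_cast; linarith) | (rcases isp (b + r + 1) with h | h <;> push_cast at h ⊢ <;> linarith))) (ind1 (0) (by push_cast; linarith) (by push_cast; linarith))) (s10 (ind1 (0) (by first | (push_cast; linarith) | (rcases isp (o) with h | h <;> push_cast at h ⊢ <;> linarith)) (by first | (push_cast; linarith) | (rcases isp (b - o + 1) with h | h <;> push_cast at h ⊢ <;> linarith))) (ind0 (0) (by push_cast; linarith) (by push_cast; linarith)))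
                        (t00 (ind0 (1) (by first | (push_cast; linarith) | (rcases isp (-b + p) with h | h <;> push_cast at h ⊢ <;> linarith)) (by push_cast; linarith)) (ind0 (0) (by push_cast; linarith) (by push_cast; linarith)))
                        (tz (ind0 (1) (by push_cast; linarith) (by push_cast; linarith)))
                        (tz (ind0 (1) (by push_cast; linarith) (by push_cast; linarith)))
                        (t01 (ind1 (0) (by push_cast; linarith) (by push_cast; linarith)) (ind0 (1) (by first | (push_cast; linarith) | (rcases isp (-a - b + p) with h | h <;> push_cast at h ⊢ <;> linarith)) (by first | (push_cast; linarith) | (rcases isp (b + 1) with h | h <;> push_cast at h ⊢ <;> linarith))) (ind1 (0) (by push_cast; linarith) (by push_cast; linarith))) (by decide)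
                · skip
                  rcases spl t4 (o) with h | h <;> push_cast at h
                  · skip
                    exact leaf hk_j.rb (b + 1) (s01 (ind0 (0) (by first | (push_cast; linarith) | (rcases isp (-a + b - r + 1) with h | h <;> push_cast at h ⊢ <;> linarith)) (by first | (push_cast; linarith) | (rcases isp (-b + p + r) with h | h <;> push_cast at h ⊢ <;> linarith))) (ind1 (0) (by push_cast; linarith) (by push_cast; linarith))) (s10 (ind1 (0) (by first | (push_cast; linarith) | (rcases isp (b - o + 1) with h | h <;> push_cast at h ⊢ <;> linarith)) (by first | (push_cast; linarith) | (rcases isp (o) with h | h <;> push_cast at h ⊢ <;> linarith))) (ind0 (1) (by push_cast; linarith) (by push_cast; linarith)))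
                        (t01 (ind1 (0) (by push_cast; linarith) (by push_cast; linarith)) (ind0 (0) (by push_cast; linarith) (by first | (push_cast; linarith) | (rcases isp (-b + p) with h | h <;> push_cast at h ⊢ <;> linarith))) (ind1 (0) (by push_cast; linarith) (by push_cast; linarith)))
                        (tz (ind0 (1) (by push_cast; linarith) (by push_cast; linarith)))
                        (tz (ind0 (1) (by push_cast; linarith) (by push_cast; linarith)))
                        (tz (ind0 (0) (by push_cast; linarith) (by push_cast; linarith))) (by decide)
                  · skip
                    exact leaf hk_j.rt (a + r) (s10 (ind1 (0) (by first | (push_cast; linarith) | (rcases isp (a) with h | h <;> push_cast at h ⊢ <;> linarith)) (by push_cast; linarith)) (ind0 (0) (by push_cast; linarith) (by push_cast; linarith))) (s01 (ind0 (1) (by first | (push_cast; linarith) | (rcases isp (-b + p + r - o) with h | h <;> push_cast at h ⊢ <;> linarith)) (by first | (push_cast; linarith) | (rcases isp (-r + o + 1) with h | h <;> push_cast at h ⊢ <;> linarith))) (ind1 (0) (by push_cast; linarith) (by push_cast; linarith)))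
                        (tz (ind0 (0) (by push_cast; linarith) (by push_cast; linarith)))
                        (t01 (ind1 (0) (by push_cast; linarith) (by push_cast; linarith)) (ind0 (1) (by first | (push_cast; linarith) | (rcases isp (-b + p + r) with h | h <;> push_cast at h ⊢ <;> linarith)) (by first | (push_cast; linarith) | (rcases isp (-r + 1) with h | h <;> push_cast at h ⊢ <;> linarith))) (ind1 (0) (by push_cast; linarith) (by push_cast; linarith)))
                        (tz (ind0 (1) (by push_cast; linarith) (by push_cast; linarith)))
                        (tz (ind0 (0) (by push_cast; linarith) (by push_cast; linarith))) (by decide)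
          · skip
            rcases spl t0 (o) with h | h <;> push_cast at h
            · skip
              rcases isp (b + r) with h | h <;> push_cast at h
              · skip
                rcases spl t1 (-a) with h | h <;> push_cast at h
                · skip
                  exact leaf hk_m.lb (1) (s01 (ind0 (1) (by first | (push_cast; linarith) | (rcases isp (-a - b + p - r + 1) with h | h <;> push_cast at h ⊢ <;> linarith)) (by first | (push_cast; linarith) | (rcases isp (b + r) with h | h <;> push_cast at h ⊢ <;> linarith))) (ind1 (0) (by push_cast; linarith) (by push_cast; linarith))) (s10 (ind1 (0) (by first | (push_cast; linarith) | (rcases isp (o + 1) with h | h <;> push_cast at h ⊢ <;> linarith)) (by first | (push_cast; linarith) | (rcases isp (b - o) with h | h <;> push_cast at h ⊢ <;> linarith))) (ind0 (0) (by push_cast; linarith) (by push_cast; linarith)))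
                      (t11 (ind1 (0) (by push_cast; linarith) (by first | (push_cast; linarith) | (rcases isp (b) with h | h <;> push_cast at h ⊢ <;> linarith))) (ind1 (0) (by push_cast; linarith) (by push_cast; linarith)))
                      (t01 (ind1 (0) (by push_cast; linarith) (by push_cast; linarith)) (ind0 (1) (by first | (push_cast; linarith) | (rcases isp (-a - b + p + 1) with h | h <;> push_cast at h ⊢ <;> linarith)) (by first | (push_cast; linarith) | (rcases isp (a) with h | h <;> push_cast at h ⊢ <;> linarith))) (ind1 (0) (by push_cast; linarith) (by push_cast; linarith)))
                      (tz (ind0 (1) (by push_cast; linarith) (by push_cast; linarith)))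
                      (t00 (ind0 (1) (by first | (push_cast; linarith) | (rcases isp (-a - b + p + 1) with h | h <;> push_cast at h ⊢ <;> linarith)) (by first | (push_cast; linarith) | (rcases isp (b) with h | h <;> push_cast at h ⊢ <;> linarith))) (ind0 (1) (by push_cast; linarith) (by push_cast; linarith))) (by decide)
                · skip
                  exact leaf hk_m.lb (0) (s01 (ind0 (1) (by first | (push_cast; linarith) | (rcases isp (-a - b + p - r) with h | h <;> push_cast at h ⊢ <;> linarith)) (by first | (push_cast; linarith) | (rcases isp (b + r + 1) with h | h <;> push_cast at h ⊢ <;> linarith))) (ind1 (0) (by push_cast; linarith) (by push_cast; linarith))) (s10 (ind1 (0) (by first | (push_cast; linarith) | (rcases isp (o) with h | h <;> push_cast at h ⊢ <;> linarith)) (by first | (push_cast; linarith) | (rcases isp (b - o + 1) with h | h <;> push_cast at h ⊢ <;> linarith))) (ind0 (0) (by push_cast; linarith) (by push_cast; linarith)))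
                      (t01 (ind1 (0) (by push_cast; linarith) (by push_cast; linarith)) (ind0 (1) (by first | (push_cast; linarith) | (rcases isp (-b + p) with h | h <;> push_cast at h ⊢ <;> linarith)) (by push_cast; linarith)) (ind1 (0) (by push_cast; linarith) (by push_cast; linarith)))
                      (tz (ind0 (1) (by push_cast; linarith) (by push_cast; linarith)))
                      (tz (ind0 (1) (by push_cast; linarith) (by push_cast; linarith)))
                      (t00 (ind0 (1) (by first | (push_cast; linarith) | (rcases isp (-a - b + p) with h | h <;> push_cast at h ⊢ <;> linarith)) (by first | (push_cast; linarith) | (rcases isp (b + 1) with h | h <;> push_cast at h ⊢ <;> linarith))) (ind0 (1) (by push_cast; linarith) (by push_cast; linarith))) (by decide)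
              · skip
                exact leaf hk_m.lb (-o + 1) (s01 (ind0 (1) (by first | (push_cast; linarith) | (rcases isp (-a - b + p - r - o + 1) with h | h <;> push_cast at h ⊢ <;> linarith)) (by first | (push_cast; linarith) | (rcases isp (b + r + o) with h | h <;> push_cast at h ⊢ <;> linarith))) (ind1 (0) (by push_cast; linarith) (by push_cast; linarith))) (s10 (ind1 (0) (by push_cast; linarith) (by first | (push_cast; linarith) | (rcases isp (b) with h | h <;> push_cast at h ⊢ <;> linarith))) (ind0 (0) (by push_cast; linarith) (by push_cast; linarith)))
                    (t01 (ind1 (0) (by push_cast; linarith) (by push_cast; linarith)) (ind0 (1) (by first | (push_cast; linarith) | (rcases isp (-b + p - o + 1) with h | h <;> push_cast at h ⊢ <;> linarith)) (by first | (push_cast; linarith) | (rcases isp (o) with h | h <;> push_cast at h ⊢ <;> linarith))) (ind1 (0) (by push_cast; linarith) (by push_cast; linarith)))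
                    (tz (ind0 (1) (by push_cast; linarith) (by push_cast; linarith)))
                    (tz (ind0 (1) (by push_cast; linarith) (by push_cast; linarith)))
                    (tz (ind0 (0) (by push_cast; linarith) (by push_cast; linarith))) (by decide)
            · skip
              rcases spl t2 (r) with h | h <;> push_cast at h
              · skip
                rcases spl t3 (-o) with h | h <;> push_cast at h
                · skip
                  rcases spl t3 (-b - r - o) with h | h <;> push_cast at h
                  · skip
                    exact leaf hf_k.lt (a + b + 1) (s01 (ind0 (0) (by first | (push_cast; linarith) | (rcases isp (-r - o + 1) with h | h <;> push_cast at h ⊢ <;> linarith)) (by first | (push_cast; linarith) | (rcases isp (-a + p + r + o) with h | h <;> push_cast at h ⊢ <;> linarith))) (ind1 (0) (by push_cast; linarith) (by push_cast; linarith))) (s01 (ind0 (0) (by first | (push_cast; linarith) | (rcases isp (-r + 1) with h | h <;> push_cast at h ⊢ <;> linarith)) (by first | (push_cast; linarith) | (rcases isp (-b + p + r) with h | h <;> push_cast at h ⊢ <;> linarith))) (ind1 (0) (by push_cast; linarith) (by push_cast; linarith)))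
                        (tz (ind0 (0) (by push_cast; linarith) (by push_cast; linarith)))
                        (t00 (ind0 (0) (by push_cast; linarith) (by first | (push_cast; linarith) | (rcases isp (-b + p) with h | h <;> push_cast at h ⊢ <;> linarith))) (ind0 (1) (by push_cast; linarith) (by push_cast; linarith)))
                        (t01 (ind1 (0) (by push_cast; linarith) (by push_cast; linarith)) (ind0 (0) (by first | (push_cast; linarith) | (rcases isp (b + 1) with h | h <;> push_cast at h ⊢ <;> linarith)) (by first | (push_cast; linarith) | (rcases isp (-a - b + p) with h | h <;> push_cast at h ⊢ <;> linarith))) (ind1 (0) (by push_cast; linarith) (by push_cast; linarith)))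
                        (tz (ind0 (0) (by push_cast; linarith) (by push_cast; linarith))) (by decide)
                  · skip
                    exact leaf hf_k.lt (a + b + 1) (s01 (ind0 (0) (by first | (push_cast; linarith) | (rcases isp (-r - o + 1) with h | h <;> push_cast at h ⊢ <;> linarith)) (by first | (push_cast; linarith) | (rcases isp (-a + p + r + o) with h | h <;> push_cast at h ⊢ <;> linarith))) (ind1 (0) (by push_cast; linarith) (by push_cast; linarith))) (s01 (ind0 (0) (by first | (push_cast; linarith) | (rcases isp (-r + 1) with h | h <;> push_cast at h ⊢ <;> linarith)) (by first | (push_cast; linarith) | (rcases isp (-b + p + r) with h | h <;> push_cast at h ⊢ <;> linarith))) (ind1 (0) (by push_cast; linarith) (by push_cast; linarith)))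
                        (tz (ind0 (0) (by push_cast; linarith) (by push_cast; linarith)))
                        (t01 (ind1 (0) (by push_cast; linarith) (by push_cast; linarith)) (ind0 (0) (by push_cast; linarith) (by first | (push_cast; linarith) | (rcases isp (-b + p) with h | h <;> push_cast at h ⊢ <;> linarith))) (ind1 (0) (by push_cast; linarith) (by push_cast; linarith)))
                        (t00 (ind0 (0) (by first | (push_cast; linarith) | (rcases isp (b + 1) with h | h <;> push_cast at h ⊢ <;> linarith)) (by first | (push_cast; linarith) | (rcases isp (-a - b + p) with h | h <;> push_cast at h ⊢ <;> linarith))) (ind0 (0) (by push_cast; linarith) (by push_cast; linarith)))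
                        (tz (ind0 (0) (by push_cast; linarith) (by push_cast; linarith))) (by decide)
                · skip
                  exact leaf hj_h.rb (b - r) (s01 (ind0 (0) (by first | (push_cast; linarith) | (rcases isp (-a + b - r - o) with h | h <;> push_cast at h ⊢ <;> linarith)) (by first | (push_cast; linarith) | (rcases isp (-b + p + r + o + 1) with h | h <;> push_cast at h ⊢ <;> linarith))) (ind1 (0) (by push_cast; linarith) (by push_cast; linarith))) (s10 (ind1 (0) (by first | (push_cast; linarith) | (rcases isp (b) with h | h <;> push_cast at h ⊢ <;> linarith)) (by push_cast; linarith)) (ind0 (1) (by push_cast; linarith) (by push_cast; linarith)))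
                      (t01 (ind1 (0) (by push_cast; linarith) (by push_cast; linarith)) (ind0 (0) (by first | (push_cast; linarith) | (rcases isp (-r) with h | h <;> push_cast at h ⊢ <;> linarith)) (by first | (push_cast; linarith) | (rcases isp (-b + p + r + 1) with h | h <;> push_cast at h ⊢ <;> linarith))) (ind1 (0) (by push_cast; linarith) (by push_cast; linarith)))
                      (tz (ind0 (1) (by push_cast; linarith) (by push_cast; linarith)))
                      (tz (ind0 (1) (by push_cast; linarith) (by push_cast; linarith)))
                      (tz (ind0 (0) (by push_cast; linarith) (by push_cast; linarith))) (by decide)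
              · skip
                rcases spl t5 (0) with h | h <;> push_cast at h
                · skip
                  exact leaf hj_h.rb (b - r) (s01 (ind0 (0) (by first | (push_cast; linarith) | (rcases isp (-a + b - r - o) with h | h <;> push_cast at h ⊢ <;> linarith)) (by first | (push_cast; linarith) | (rcases isp (-b + p + r + o + 1) with h | h <;> push_cast at h ⊢ <;> linarith))) (ind1 (0) (by push_cast; linarith) (by push_cast; linarith))) (s10 (ind1 (0) (by first | (push_cast; linarith) | (rcases isp (b) with h | h <;> push_cast at h ⊢ <;> linarith)) (by push_cast; linarith)) (ind0 (1) (by push_cast; linarith) (by push_cast; linarith)))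
                      (tz (ind0 (0) (by push_cast; linarith) (by push_cast; linarith)))
                      (tz (ind0 (1) (by push_cast; linarith) (by push_cast; linarith)))
                      (t01 (ind1 (0) (by push_cast; linarith) (by push_cast; linarith)) (ind0 (0) (by first | (push_cast; linarith) | (rcases isp (-a + b - r) with h | h <;> push_cast at h ⊢ <;> linarith)) (by first | (push_cast; linarith) | (rcases isp (-b + p + r + 1) with h | h <;> push_cast at h ⊢ <;> linarith))) (ind1 (0) (by push_cast; linarith) (by push_cast; linarith)))
                      (tz (ind0 (0) (by push_cast; linarith) (by push_cast; linarith))) (by decide)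
                · skip
                  exact leaf hk_m.rb (b - o) (s01 (ind0 (0) (by first | (push_cast; linarith) | (rcases isp (-a + b - r - o) with h | h <;> push_cast at h ⊢ <;> linarith)) (by first | (push_cast; linarith) | (rcases isp (-b + p + r + o + 1) with h | h <;> push_cast at h ⊢ <;> linarith))) (ind1 (0) (by push_cast; linarith) (by push_cast; linarith))) (s10 (ind1 (0) (by first | (push_cast; linarith) | (rcases isp (b) with h | h <;> push_cast at h ⊢ <;> linarith)) (by push_cast; linarith)) (ind0 (1) (by push_cast; linarith) (by push_cast; linarith)))
                      (t10 (ind1 (0) (by push_cast; linarith) (by push_cast; linarith)) (ind1 (0) (by first | (push_cast; linarith) | (rcases isp (b - o) with h | h <;> push_cast at h ⊢ <;> linarith)) (by first | (push_cast; linarith) | (rcases isp (o + 1) with h | h <;> push_cast at h ⊢ <;> linarith))) (ind0 (1) (by push_cast; linarith) (by push_cast; linarith)))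
                      (tz (ind0 (1) (by push_cast; linarith) (by push_cast; linarith)))
                      (tz (ind0 (0) (by push_cast; linarith) (by push_cast; linarith)))
                      (tz (ind0 (0) (by push_cast; linarith) (by push_cast; linarith))) (by decide)
      · skip
        rcases spl t4 (-b + r + o) with h | h <;> push_cast at h
        · skip
          rcases spl t2 (-b + p - o) with h | h <;> push_cast at h
          · skip
            rcases isp (-b + o) with h | h <;> push_cast at h
            · skip
              rcases isp (-a + r + o) with h | h <;> push_cast at h
              · skip
                rcases spl t0 (b - p + o) with h | h <;> push_cast at h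
                · skip
                  exact leaf hf_j.lt (a + b + 1) (s01 (ind0 (1) (by first | (push_cast; linarith) | (rcases isp (p - r - o + 1) with h | h <;> push_cast at h ⊢ <;> linarith)) (by first | (push_cast; linarith) | (rcases isp (-a + r + o) with h | h <;> push_cast at h ⊢ <;> linarith))) (ind1 (0) (by push_cast; linarith) (by push_cast; linarith))) (s01 (ind0 (1) (by first | (push_cast; linarith) | (rcases isp (p - o + 1) with h | h <;> push_cast at h ⊢ <;> linarith)) (by first | (push_cast; linarith) | (rcases isp (-b + o) with h | h <;> push_cast at h ⊢ <;> linarith))) (ind1 (0) (by push_cast; linarith) (by push_cast; linarith)))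
                      (tz (ind0 (0) (by push_cast; linarith) (by push_cast; linarith)))
                      (t00 (ind0 (0) (by push_cast; linarith) (by first | (push_cast; linarith) | (rcases isp (-b + p) with h | h <;> push_cast at h ⊢ <;> linarith))) (ind0 (0) (by push_cast; linarith) (by push_cast; linarith)))
                      (t01 (ind1 (1) (by push_cast; linarith) (by push_cast; linarith)) (ind0 (0) (by first | (push_cast; linarith) | (rcases isp (b + 1) with h | h <;> push_cast at h ⊢ <;> linarith)) (by first | (push_cast; linarith) | (rcases isp (-a - b + p) with h | h <;> push_cast at h ⊢ <;> linarith))) (ind1 (-1) (by push_cast; linarith) (by push_cast; linarith)))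
                      (tz (ind0 (1) (by push_cast; linarith) (by push_cast; linarith))) (by decide)
                · skip
                  rcases spl t6 (-o) with h | h <;> push_cast at h
                  · skip
                    rcases isp (a - p + o + 1) with h | h <;> push_cast at h
                    · skip
                      rcases spl t0 (b - p - r + o) with h | h <;> push_cast at h
                      · skip
                        exact leaf hj_h.lt (a + b + 1) (s01 (ind0 (1) (by first | (push_cast; linarith) | (rcases isp (p - o + 1) with h | h <;> push_cast at h ⊢ <;> linarith)) (by first | (push_cast; linarith) | (rcases isp (-a + o) with h | h <;> push_cast at h ⊢ <;> linarith))) (ind1 (0) (by push_cast; linarith) (by push_cast; linarith))) (s10 (ind1 (0) (by first | (push_cast; linarith) | (rcases isp (b + r + 1) with h | h <;> push_cast at h ⊢ <;> linarith)) (by first | (push_cast; linarith) | (rcases isp (-r) with h | h <;> push_cast at h ⊢ <;> linarith))) (ind0 (0) (by push_cast; linarith) (by push_cast; linarith)))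
                            (tz (ind0 (0) (by push_cast; linarith) (by push_cast; linarith)))
                            (t01 (ind1 (0) (by push_cast; linarith) (by push_cast; linarith)) (ind0 (0) (by push_cast; linarith) (by first | (push_cast; linarith) | (rcases isp (-b + p) with h | h <;> push_cast at h ⊢ <;> linarith))) (ind1 (-1) (by push_cast; linarith) (by push_cast; linarith)))
                            (t00 (ind0 (0) (by first | (push_cast; linarith) | (rcases isp (b + 1) with h | h <;> push_cast at h ⊢ <;> linarith)) (by first | (push_cast; linarith) | (rcases isp (-a - b + p) with h | h <;> push_cast at h ⊢ <;> linarith))) (ind0 (-1) (by push_cast; linarith) (by push_cast; linarith)))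
                            (tz (ind0 (1) (by push_cast; linarith) (by push_cast; linarith))) (by decide)
                      · skip
                        exact leaf hj_h.lt (a + b + 1) (s01 (ind0 (1) (by first | (push_cast; linarith) | (rcases isp (p - o + 1) with h | h <;> push_cast at h ⊢ <;> linarith)) (by first | (push_cast; linarith) | (rcases isp (-a + o) with h | h <;> push_cast at h ⊢ <;> linarith))) (ind1 (0) (by push_cast; linarith) (by push_cast; linarith))) (s10 (ind1 (0) (by first | (push_cast; linarith) | (rcases isp (b + r + 1) with h | h <;> push_cast at h ⊢ <;> linarith)) (by first | (push_cast; linarith) | (rcases isp (-r) with h | h <;> push_cast at h ⊢ <;> linarith))) (ind0 (0) (by push_cast; linarith) (by push_cast; linarith)))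
                            (tz (ind0 (0) (by push_cast; linarith) (by push_cast; linarith)))
                            (t00 (ind0 (0) (by push_cast; linarith) (by first | (push_cast; linarith) | (rcases isp (-b + p) with h | h <;> push_cast at h ⊢ <;> linarith))) (ind0 (0) (by push_cast; linarith) (by push_cast; linarith)))
                            (t01 (ind1 (1) (by push_cast; linarith) (by push_cast; linarith)) (ind0 (0) (by first | (push_cast; linarith) | (rcases isp (b + 1) with h | h <;> push_cast at h ⊢ <;> linarith)) (by first | (push_cast; linarith) | (rcases isp (-a - b + p) with h | h <;> push_cast at h ⊢ <;> linarith))) (ind1 (-1) (by push_cast; linarith) (by push_cast; linarith)))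
                            (tz (ind0 (1) (by push_cast; linarith) (by push_cast; linarith))) (by decide)
                    · skip
                      rcases spl t0 (-b + o) with h | h <;> push_cast at h
                      · skip
                        rcases isp (-a + b) with h | h <;> push_cast at h
                        · skip
                          exact leaf hf_j.lt (b) (s01 (ind0 (1) (by first | (push_cast; linarith) | (rcases isp (-a + p - r - o) with h | h <;> push_cast at h ⊢ <;> linarith)) (by first | (push_cast; linarith) | (rcases isp (r + o + 1) with h | h <;> push_cast at h ⊢ <;> linarith))) (ind1 (0) (by push_cast; linarith) (by push_cast; linarith))) (s01 (ind0 (1) (by first | (push_cast; linarith) | (rcases isp (-a + p - o) with h | h <;> push_cast at h ⊢ <;> linarith)) (by first | (push_cast; linarith) | (rcases isp (a - b + o + 1) with h | h <;> push_cast at h ⊢ <;> linarith))) (ind1 (0) (by push_cast; linarith) (by push_cast; linarith)))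
                              (tz (ind0 (0) (by push_cast; linarith) (by push_cast; linarith)))
                              (t10 (ind1 (0) (by push_cast; linarith) (by push_cast; linarith)) (ind1 (0) (by first | (push_cast; linarith) | (rcases isp (-a + b) with h | h <;> push_cast at h ⊢ <;> linarith)) (by first | (push_cast; linarith) | (rcases isp (a + 1) with h | h <;> push_cast at h ⊢ <;> linarith))) (ind0 (0) (by push_cast; linarith) (by push_cast; linarith)))
                              (tz (ind0 (1) (by push_cast; linarith) (by push_cast; linarith)))
                              (t00 (ind0 (1) (by first | (push_cast; linarith) | (rcases isp (-a + p) with h | h <;> push_cast at h ⊢ <;> linarith)) (by push_cast; linarith)) (ind0 (0) (by push_cast; linarith) (by push_cast; linarith))) (by decide)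
                        · skip
                          rcases spl t7 (-2 * r) with h | h <;> push_cast at h
                          · skip
                            rcases spl t6 (a - p + r) with h | h <;> push_cast at h
                            · skip
                              exact leaf hj_f.rt (a + r + o) (s10 (ind1 (0) (by first | (push_cast; linarith) | (rcases isp (a + r) with h | h <;> push_cast at h ⊢ <;> linarith)) (by first | (push_cast; linarith) | (rcases isp (-r + 1) with h | h <;> push_cast at h ⊢ <;> linarith))) (ind0 (0) (by push_cast; linarith) (by push_cast; linarith))) (s01 (ind0 (1) (by first | (push_cast; linarith) | (rcases isp (-b + p) with h | h <;> push_cast at h ⊢ <;> linarith)) (by push_cast; linarith)) (ind1 (0) (by push_cast; linarith) (by push_cast; linarith)))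
                                  (t01 (ind1 (-1) (by push_cast; linarith) (by push_cast; linarith)) (ind0 (0) (by first | (push_cast; linarith) | (rcases isp (a - b + r + o) with h | h <;> push_cast at h ⊢ <;> linarith)) (by first | (push_cast; linarith) | (rcases isp (-a + p - r - o + 1) with h | h <;> push_cast at h ⊢ <;> linarith))) (ind1 (-1) (by push_cast; linarith) (by push_cast; linarith)))
                                  (tz (ind0 (0) (by push_cast; linarith) (by push_cast; linarith)))
                                  (tz (ind0 (1) (by push_cast; linarith) (by push_cast; linarith)))
                                  (t00 (ind0 (0) (by first | (push_cast; linarith) | (rcases isp (-b + r + o) with h | h <;> push_cast at h ⊢ <;> linarith)) (by first | (push_cast; linarith) | (rcases isp (-a + b + p - r - o + 1) with h | h <;> push_cast at h ⊢ <;> linarith))) (ind0 (0) (by push_cast; linarith) (by push_cast; linarith))) (by decide)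
                            · skip
                              exact leaf hk_f.lt (a + b + r) (s10 (ind1 (0) (by first | (push_cast; linarith) | (rcases isp (a) with h | h <;> push_cast at h ⊢ <;> linarith)) (by push_cast; linarith)) (ind0 (0) (by push_cast; linarith) (by push_cast; linarith))) (s01 (ind0 (1) (by first | (push_cast; linarith) | (rcases isp (p - o) with h | h <;> push_cast at h ⊢ <;> linarith)) (by first | (push_cast; linarith) | (rcases isp (-b + o + 1) with h | h <;> push_cast at h ⊢ <;> linarith))) (ind1 (0) (by push_cast; linarith) (by push_cast; linarith)))
                                  (tz (ind0 (0) (by push_cast; linarith) (by push_cast; linarith)))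
                                  (tz (ind0 (0) (by push_cast; linarith) (by push_cast; linarith)))
                                  (tz (ind0 (1) (by push_cast; linarith) (by push_cast; linarith)))
                                  (t10 (ind1 (0) (by push_cast; linarith) (by push_cast; linarith)) (ind1 (0) (by first | (push_cast; linarith) | (rcases isp (a + r) with h | h <;> push_cast at h ⊢ <;> linarith)) (by first | (push_cast; linarith) | (rcases isp (-r + 1) with h | h <;> push_cast at h ⊢ <;> linarith))) (ind0 (0) (by push_cast; linarith) (by push_cast; linarith))) (by decide)
                          · skip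
                            exact leaf hk_h.rt (a + b + 1) (s01 (ind0 (0) (by first | (push_cast; linarith) | (rcases isp (b - r + 1) with h | h <;> push_cast at h ⊢ <;> linarith)) (by first | (push_cast; linarith) | (rcases isp (-a - b + p + r) with h | h <;> push_cast at h ⊢ <;> linarith))) (ind1 (0) (by push_cast; linarith) (by push_cast; linarith))) (s10 (ind1 (0) (by first | (push_cast; linarith) | (rcases isp (b + r + 1) with h | h <;> push_cast at h ⊢ <;> linarith)) (by first | (push_cast; linarith) | (rcases isp (-r) with h | h <;> push_cast at h ⊢ <;> linarith))) (ind0 (1) (by push_cast; linarith) (by push_cast; linarith)))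
                                (tz (ind0 (0) (by push_cast; linarith) (by push_cast; linarith)))
                                (t00 (ind0 (0) (by push_cast; linarith) (by first | (push_cast; linarith) | (rcases isp (-b + p) with h | h <;> push_cast at h ⊢ <;> linarith))) (ind0 (1) (by push_cast; linarith) (by push_cast; linarith)))
                                (t01 (ind1 (0) (by push_cast; linarith) (by push_cast; linarith)) (ind0 (0) (by first | (push_cast; linarith) | (rcases isp (b + 1) with h | h <;> push_cast at h ⊢ <;> linarith)) (by first | (push_cast; linarith) | (rcases isp (-a - b + p) with h | h <;> push_cast at h ⊢ <;> linarith))) (ind1 (0) (by push_cast; linarith) (by push_cast; linarith)))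
                                (tz (ind0 (0) (by push_cast; linarith) (by push_cast; linarith))) (by decide)
                      · skip
                        exact leaf hf_j.rt (a + o + 1) (s01 (ind0 (0) (by first | (push_cast; linarith) | (rcases isp (-r + 1) with h | h <;> push_cast at h ⊢ <;> linarith)) (by first | (push_cast; linarith) | (rcases isp (-a + p + r) with h | h <;> push_cast at h ⊢ <;> linarith))) (ind1 (0) (by push_cast; linarith) (by push_cast; linarith))) (s10 (ind1 (0) (by push_cast; linarith) (by first | (push_cast; linarith) | (rcases isp (b) with h | h <;> push_cast at h ⊢ <;> linarith))) (ind0 (1) (by push_cast; linarith) (by push_cast; linarith)))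
                            (tz (ind0 (0) (by push_cast; linarith) (by push_cast; linarith)))
                            (t01 (ind1 (0) (by push_cast; linarith) (by push_cast; linarith)) (ind0 (0) (by first | (push_cast; linarith) | (rcases isp (-b + o + 1) with h | h <;> push_cast at h ⊢ <;> linarith)) (by first | (push_cast; linarith) | (rcases isp (p - o) with h | h <;> push_cast at h ⊢ <;> linarith))) (ind1 (0) (by push_cast; linarith) (by push_cast; linarith)))
                            (t00 (ind0 (0) (by first | (push_cast; linarith) | (rcases isp (o + 1) with h | h <;> push_cast at h ⊢ <;> linarith)) (by first | (push_cast; linarith) | (rcases isp (-a + p - o) with h | h <;> push_cast at h ⊢ <;> linarith))) (ind0 (0) (by push_cast; linarith) (by push_cast; linarith)))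
                            (tz (ind0 (0) (by push_cast; linarith) (by push_cast; linarith))) (by decide)
                  · skip
                    exact leaf hf_j.lt (a + b) (s01 (ind0 (1) (by first | (push_cast; linarith) | (rcases isp (p - r - o) with h | h <;> push_cast at h ⊢ <;> linarith)) (by first | (push_cast; linarith) | (rcases isp (-a + r + o + 1) with h | h <;> push_cast at h ⊢ <;> linarith))) (ind1 (0) (by push_cast; linarith) (by push_cast; linarith))) (s01 (ind0 (1) (by first | (push_cast; linarith) | (rcases isp (p - o) with h | h <;> push_cast at h ⊢ <;> linarith)) (by first | (push_cast; linarith) | (rcases isp (-b + o + 1) with h | h <;> push_cast at h ⊢ <;> linarith))) (ind1 (0) (by push_cast; linarith) (by push_cast; linarith)))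
                        (tz (ind0 (0) (by push_cast; linarith) (by push_cast; linarith)))
                        (t10 (ind1 (0) (by push_cast; linarith) (by push_cast; linarith)) (ind1 (0) (by first | (push_cast; linarith) | (rcases isp (b) with h | h <;> push_cast at h ⊢ <;> linarith)) (by push_cast; linarith)) (ind0 (0) (by push_cast; linarith) (by push_cast; linarith)))
                        (tz (ind0 (1) (by push_cast; linarith) (by push_cast; linarith)))
                        (tz (ind0 (1) (by push_cast; linarith) (by push_cast; linarith))) (by decide)
              · skip
                rcases spl t5 (0) with h | h <;> push_cast at h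
                · skip
                  exact leaf hf_k.rt (0) (s01 (ind0 (1) (by first | (push_cast; linarith) | (rcases isp (-a + p - r - o) with h | h <;> push_cast at h ⊢ <;> linarith)) (by first | (push_cast; linarith) | (rcases isp (r + o + 1) with h | h <;> push_cast at h ⊢ <;> linarith))) (ind1 (0) (by push_cast; linarith) (by push_cast; linarith))) (s01 (ind0 (1) (by first | (push_cast; linarith) | (rcases isp (-a - b + p - r) with h | h <;> push_cast at h ⊢ <;> linarith)) (by first | (push_cast; linarith) | (rcases isp (a + r + 1) with h | h <;> push_cast at h ⊢ <;> linarith))) (ind1 (0) (by push_cast; linarith) (by push_cast; linarith)))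
                      (tz (ind0 (0) (by push_cast; linarith) (by push_cast; linarith)))
                      (t01 (ind1 (0) (by push_cast; linarith) (by push_cast; linarith)) (ind0 (1) (by first | (push_cast; linarith) | (rcases isp (-a - b + p) with h | h <;> push_cast at h ⊢ <;> linarith)) (by first | (push_cast; linarith) | (rcases isp (a + 1) with h | h <;> push_cast at h ⊢ <;> linarith))) (ind1 (0) (by push_cast; linarith) (by push_cast; linarith)))
                      (t00 (ind0 (1) (by first | (push_cast; linarith) | (rcases isp (-a + p) with h | h <;> push_cast at h ⊢ <;> linarith)) (by push_cast; linarith)) (ind0 (0) (by push_cast; linarith) (by push_cast; linarith)))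
                      (tz (ind0 (0) (by push_cast; linarith) (by push_cast; linarith))) (by decide)
                · skip
                  exact leaf hk_m.rt (a + 1) (s01 (ind0 (0) (by first | (push_cast; linarith) | (rcases isp (-r + 1) with h | h <;> push_cast at h ⊢ <;> linarith)) (by first | (push_cast; linarith) | (rcases isp (-a + p + r) with h | h <;> push_cast at h ⊢ <;> linarith))) (ind1 (0) (by push_cast; linarith) (by push_cast; linarith))) (s01 (ind0 (0) (by first | (push_cast; linarith) | (rcases isp (-b + o + 1) with h | h <;> push_cast at h ⊢ <;> linarith)) (by first | (push_cast; linarith) | (rcases isp (p - o) with h | h <;> push_cast at h ⊢ <;> linarith))) (ind1 (0) (by push_cast; linarith) (by push_cast; linarith)))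
                      (tz (ind0 (0) (by push_cast; linarith) (by push_cast; linarith)))
                      (t10 (ind1 (0) (by push_cast; linarith) (by push_cast; linarith)) (ind1 (0) (by push_cast; linarith) (by first | (push_cast; linarith) | (rcases isp (b) with h | h <;> push_cast at h ⊢ <;> linarith))) (ind0 (1) (by push_cast; linarith) (by push_cast; linarith)))
                      (tz (ind0 (0) (by push_cast; linarith) (by push_cast; linarith)))
                      (tz (ind0 (0) (by push_cast; linarith) (by push_cast; linarith))) (by decide)
            · skip
              rcases spl t5 (0) with h | h <;> push_cast at h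
              · skip
                exact leaf hj_k.rb (0) (s01 (ind0 (1) (by first | (push_cast; linarith) | (rcases isp (-a + p - o) with h | h <;> push_cast at h ⊢ <;> linarith)) (by first | (push_cast; linarith) | (rcases isp (o + 1) with h | h <;> push_cast at h ⊢ <;> linarith))) (ind1 (0) (by push_cast; linarith) (by push_cast; linarith))) (s10 (ind1 (0) (by first | (push_cast; linarith) | (rcases isp (-r) with h | h <;> push_cast at h ⊢ <;> linarith)) (by first | (push_cast; linarith) | (rcases isp (b + r + 1) with h | h <;> push_cast at h ⊢ <;> linarith))) (ind0 (0) (by push_cast; linarith) (by push_cast; linarith)))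
                    (t00 (ind0 (1) (by first | (push_cast; linarith) | (rcases isp (-b + p) with h | h <;> push_cast at h ⊢ <;> linarith)) (by push_cast; linarith)) (ind0 (0) (by push_cast; linarith) (by push_cast; linarith)))
                    (tz (ind0 (1) (by push_cast; linarith) (by push_cast; linarith)))
                    (tz (ind0 (1) (by push_cast; linarith) (by push_cast; linarith)))
                    (t01 (ind1 (0) (by push_cast; linarith) (by push_cast; linarith)) (ind0 (1) (by first | (push_cast; linarith) | (rcases isp (-a - b + p) with h | h <;> push_cast at h ⊢ <;> linarith)) (by first | (push_cast; linarith) | (rcases isp (b + 1) with h | h <;> push_cast at h ⊢ <;> linarith))) (ind1 (0) (by push_cast; linarith) (by push_cast; linarith))) (by decide)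
              · skip
                exact leaf hk_j.lt (a + b + 1) (s01 (ind0 (0) (by first | (push_cast; linarith) | (rcases isp (-r + 1) with h | h <;> push_cast at h ⊢ <;> linarith)) (by first | (push_cast; linarith) | (rcases isp (-a + p + r) with h | h <;> push_cast at h ⊢ <;> linarith))) (ind1 (0) (by push_cast; linarith) (by push_cast; linarith))) (s10 (ind1 (0) (by first | (push_cast; linarith) | (rcases isp (b - o + 1) with h | h <;> push_cast at h ⊢ <;> linarith)) (by first | (push_cast; linarith) | (rcases isp (o) with h | h <;> push_cast at h ⊢ <;> linarith))) (ind0 (1) (by push_cast; linarith) (by push_cast; linarith)))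
                    (tz (ind0 (0) (by push_cast; linarith) (by push_cast; linarith)))
                    (t01 (ind1 (0) (by push_cast; linarith) (by push_cast; linarith)) (ind0 (0) (by push_cast; linarith) (by first | (push_cast; linarith) | (rcases isp (-b + p) with h | h <;> push_cast at h ⊢ <;> linarith))) (ind1 (0) (by push_cast; linarith) (by push_cast; linarith)))
                    (tz (ind0 (1) (by push_cast; linarith) (by push_cast; linarith)))
                    (tz (ind0 (0) (by push_cast; linarith) (by push_cast; linarith))) (by decide)
          · skip
            exact leaf hf_j.lt (a + b + 1) (s01 (ind0 (1) (by first | (push_cast; linarith) | (rcases isp (p - r - o + 1) with h | h <;> push_cast at h ⊢ <;> linarith)) (by first | (push_cast; linarith) | (rcases isp (-a + r + o) with h | h <;> push_cast at h ⊢ <;> linarith))) (ind1 (0) (by push_cast; linarith) (by push_cast; linarith))) (s01 (ind0 (1) (by first | (push_cast; linarith) | (rcases isp (p - o + 1) with h | h <;> push_cast at h ⊢ <;> linarith)) (by first | (push_cast; linarith) | (rcases isp (-b + o) with h | h <;> push_cast at h ⊢ <;> linarith))) (ind1 (0) (by push_cast; linarith) (by push_cast; linarith)))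
                (tz (ind0 (0) (by push_cast; linarith) (by push_cast; linarith)))
                (t01 (ind1 (0) (by push_cast; linarith) (by push_cast; linarith)) (ind0 (0) (by push_cast; linarith) (by first | (push_cast; linarith) | (rcases isp (-b + p) with h | h <;> push_cast at h ⊢ <;> linarith))) (ind1 (-1) (by push_cast; linarith) (by push_cast; linarith)))
                (t00 (ind0 (0) (by first | (push_cast; linarith) | (rcases isp (b + 1) with h | h <;> push_cast at h ⊢ <;> linarith)) (by first | (push_cast; linarith) | (rcases isp (-a - b + p) with h | h <;> push_cast at h ⊢ <;> linarith))) (ind0 (-1) (by push_cast; linarith) (by push_cast; linarith)))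
                (tz (ind0 (1) (by push_cast; linarith) (by push_cast; linarith))) (by decide)
        · skip
          rcases spl t0 (o) with h | h <;> push_cast at h
          · skip
            rcases spl t1 (b - p + o) with h | h <;> push_cast at h
            · skip
              rcases spl t0 (a) with h | h <;> push_cast at h
              · skip
                rcases spl t8 (-p + 2 * o) with h | h <;> push_cast at h
                · skip
                  rcases isp (a - p + o + 1) with h | h <;> push_cast at h
                  · skip
                    exact leaf hj_m.rb (0) (s10 (ind1 (1) (by first | (push_cast; linarith) | (rcases isp (p - o) with h | h <;> push_cast at h ⊢ <;> linarith)) (by first | (push_cast; linarith) | (rcases isp (a - p + o + 1) with h | h <;> push_cast at h ⊢ <;> linarith))) (ind0 (1) (by push_cast; linarith) (by push_cast; linarith))) (s01 (ind0 (0) (by first | (push_cast; linarith) | (rcases isp (-b + o) with h | h <;> push_cast at h ⊢ <;> linarith)) (by first | (push_cast; linarith) | (rcases isp (p - o + 1) with h | h <;> push_cast at h ⊢ <;> linarith))) (ind1 (-1) (by push_cast; linarith) (by push_cast; linarith)))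
                        (t01 (ind1 (0) (by push_cast; linarith) (by push_cast; linarith)) (ind0 (1) (by first | (push_cast; linarith) | (rcases isp (-b + p) with h | h <;> push_cast at h ⊢ <;> linarith)) (by push_cast; linarith)) (ind1 (0) (by push_cast; linarith) (by push_cast; linarith)))
                        (tz (ind0 (1) (by push_cast; linarith) (by push_cast; linarith)))
                        (tz (ind0 (1) (by push_cast; linarith) (by push_cast; linarith)))
                        (t00 (ind0 (1) (by first | (push_cast; linarith) | (rcases isp (-a - b + p) with h | h <;> push_cast at h ⊢ <;> linarith)) (by first | (push_cast; linarith) | (rcases isp (b + 1) with h | h <;> push_cast at h ⊢ <;> linarith))) (ind0 (1) (by push_cast; linarith) (by push_cast; linarith))) (by decide)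
                  · skip
                    exact leaf hj_f.rt (o + 1) (s10 (ind1 (0) (by push_cast; linarith) (by first | (push_cast; linarith) | (rcases isp (a) with h | h <;> push_cast at h ⊢ <;> linarith))) (ind0 (0) (by push_cast; linarith) (by push_cast; linarith))) (s01 (ind0 (1) (by first | (push_cast; linarith) | (rcases isp (-a - b + p - r + 1) with h | h <;> push_cast at h ⊢ <;> linarith)) (by first | (push_cast; linarith) | (rcases isp (a + r) with h | h <;> push_cast at h ⊢ <;> linarith))) (ind1 (0) (by push_cast; linarith) (by push_cast; linarith)))
                        (tz (ind0 (0) (by push_cast; linarith) (by push_cast; linarith)))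
                        (tz (ind0 (0) (by push_cast; linarith) (by push_cast; linarith)))
                        (tz (ind0 (1) (by push_cast; linarith) (by push_cast; linarith)))
                        (t10 (ind1 (0) (by push_cast; linarith) (by push_cast; linarith)) (ind1 (0) (by first | (push_cast; linarith) | (rcases isp (-b + o + 1) with h | h <;> push_cast at h ⊢ <;> linarith)) (by first | (push_cast; linarith) | (rcases isp (a + b - o) with h | h <;> push_cast at h ⊢ <;> linarith))) (ind0 (0) (by push_cast; linarith) (by push_cast; linarith))) (by decide)
                · skip
                  rcases spl t8 (0) with h | h <;> push_cast at h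
                  · skip
                    exact leaf hj_m.rb (0) (s01 (ind0 (1) (by first | (push_cast; linarith) | (rcases isp (-a + p - o) with h | h <;> push_cast at h ⊢ <;> linarith)) (by first | (push_cast; linarith) | (rcases isp (o + 1) with h | h <;> push_cast at h ⊢ <;> linarith))) (ind1 (0) (by push_cast; linarith) (by push_cast; linarith))) (s10 (ind1 (0) (by first | (push_cast; linarith) | (rcases isp (o) with h | h <;> push_cast at h ⊢ <;> linarith)) (by first | (push_cast; linarith) | (rcases isp (b - o + 1) with h | h <;> push_cast at h ⊢ <;> linarith))) (ind0 (0) (by push_cast; linarith) (by push_cast; linarith)))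
                        (t01 (ind1 (0) (by push_cast; linarith) (by push_cast; linarith)) (ind0 (1) (by first | (push_cast; linarith) | (rcases isp (-b + p) with h | h <;> push_cast at h ⊢ <;> linarith)) (by push_cast; linarith)) (ind1 (0) (by push_cast; linarith) (by push_cast; linarith)))
                        (tz (ind0 (1) (by push_cast; linarith) (by push_cast; linarith)))
                        (tz (ind0 (1) (by push_cast; linarith) (by push_cast; linarith)))
                        (t00 (ind0 (1) (by first | (push_cast; linarith) | (rcases isp (-a - b + p) with h | h <;> push_cast at h ⊢ <;> linarith)) (by first | (push_cast; linarith) | (rcases isp (b + 1) with h | h <;> push_cast at h ⊢ <;> linarith))) (ind0 (1) (by push_cast; linarith) (by push_cast; linarith))) (by decide)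
                  · skip
                    rcases spl t5 (0) with h | h <;> push_cast at h
                    · skip
                      rcases spl t4 (b - p + o) with h | h <;> push_cast at h
                      · skip
                        rcases isp (-b + o) with h | h <;> push_cast at h
                        · skip
                          exact leaf hj_k.lt (a + b + 1) (s01 (ind0 (1) (by first | (push_cast; linarith) | (rcases isp (p - o + 1) with h | h <;> push_cast at h ⊢ <;> linarith)) (by first | (push_cast; linarith) | (rcases isp (-a + o) with h | h <;> push_cast at h ⊢ <;> linarith))) (ind1 (0) (by push_cast; linarith) (by push_cast; linarith))) (s01 (ind0 (0) (by first | (push_cast; linarith) | (rcases isp (-r + 1) with h | h <;> push_cast at h ⊢ <;> linarith)) (by first | (push_cast; linarith) | (rcases isp (-b + p + r) with h | h <;> push_cast at h ⊢ <;> linarith))) (ind1 (-1) (by push_cast; linarith) (by push_cast; linarith)))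
                              (tz (ind0 (0) (by push_cast; linarith) (by push_cast; linarith)))
                              (t00 (ind0 (0) (by push_cast; linarith) (by first | (push_cast; linarith) | (rcases isp (-b + p) with h | h <;> push_cast at h ⊢ <;> linarith))) (ind0 (0) (by push_cast; linarith) (by push_cast; linarith)))
                              (t01 (ind1 (1) (by push_cast; linarith) (by push_cast; linarith)) (ind0 (0) (by first | (push_cast; linarith) | (rcases isp (b + 1) with h | h <;> push_cast at h ⊢ <;> linarith)) (by first | (push_cast; linarith) | (rcases isp (-a - b + p) with h | h <;> push_cast at h ⊢ <;> linarith))) (ind1 (-1) (by push_cast; linarith) (by push_cast; linarith)))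
                              (tz (ind0 (1) (by push_cast; linarith) (by push_cast; linarith))) (by decide)
                        · skip
                          rcases spl t2 (-o) with h | h <;> push_cast at h
                          · skip
                            exact leaf hf_j.rt (a + b + 1) (s01 (ind0 (0) (by first | (push_cast; linarith) | (rcases isp (b - r - o + 1) with h | h <;> push_cast at h ⊢ <;> linarith)) (by first | (push_cast; linarith) | (rcases isp (-a - b + p + r + o) with h | h <;> push_cast at h ⊢ <;> linarith))) (ind1 (0) (by push_cast; linarith) (by push_cast; linarith))) (s10 (ind1 (0) (by first | (push_cast; linarith) | (rcases isp (b - o + 1) with h | h <;> push_cast at h ⊢ <;> linarith)) (by first | (push_cast; linarith) | (rcases isp (o) with h | h <;> push_cast at h ⊢ <;> linarith))) (ind0 (1) (by push_cast; linarith) (by push_cast; linarith)))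
                                (tz (ind0 (0) (by push_cast; linarith) (by push_cast; linarith)))
                                (t00 (ind0 (0) (by push_cast; linarith) (by first | (push_cast; linarith) | (rcases isp (-b + p) with h | h <;> push_cast at h ⊢ <;> linarith))) (ind0 (1) (by push_cast; linarith) (by push_cast; linarith)))
                                (t01 (ind1 (0) (by push_cast; linarith) (by push_cast; linarith)) (ind0 (0) (by first | (push_cast; linarith) | (rcases isp (b + 1) with h | h <;> push_cast at h ⊢ <;> linarith)) (by first | (push_cast; linarith) | (rcases isp (-a - b + p) with h | h <;> push_cast at h ⊢ <;> linarith))) (ind1 (0) (by push_cast; linarith) (by push_cast; linarith)))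
                                (tz (ind0 (0) (by push_cast; linarith) (by push_cast; linarith))) (by decide)
                          · skip
                            exact leaf hf_j.rt (a + b + 1) (s01 (ind0 (0) (by first | (push_cast; linarith) | (rcases isp (b - r - o + 1) with h | h <;> push_cast at h ⊢ <;> linarith)) (by first | (push_cast; linarith) | (rcases isp (-a - b + p + r + o) with h | h <;> push_cast at h ⊢ <;> linarith))) (ind1 (0) (by push_cast; linarith) (by push_cast; linarith))) (s10 (ind1 (0) (by first | (push_cast; linarith) | (rcases isp (b - o + 1) with h | h <;> push_cast at h ⊢ <;> linarith)) (by first | (push_cast; linarith) | (rcases isp (o) with h | h <;> push_cast at h ⊢ <;> linarith))) (ind0 (1) (by push_cast; linarith) (by push_cast; linarith)))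
                                (tz (ind0 (0) (by push_cast; linarith) (by push_cast; linarith)))
                                (t01 (ind1 (0) (by push_cast; linarith) (by push_cast; linarith)) (ind0 (0) (by push_cast; linarith) (by first | (push_cast; linarith) | (rcases isp (-b + p) with h | h <;> push_cast at h ⊢ <;> linarith))) (ind1 (0) (by push_cast; linarith) (by push_cast; linarith)))
                                (t00 (ind0 (0) (by first | (push_cast; linarith) | (rcases isp (b + 1) with h | h <;> push_cast at h ⊢ <;> linarith)) (by first | (push_cast; linarith) | (rcases isp (-a - b + p) with h | h <;> push_cast at h ⊢ <;> linarith))) (ind0 (0) (by push_cast; linarith) (by push_cast; linarith)))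
                                (tz (ind0 (0) (by push_cast; linarith) (by push_cast; linarith))) (by decide)
                      · skip
                        rcases spl t2 (-o) with h | h <;> push_cast at h
                        · skip
                          exact leaf hf_j.rt (a + b + 1) (s01 (ind0 (0) (by first | (push_cast; linarith) | (rcases isp (b - r - o + 1) with h | h <;> push_cast at h ⊢ <;> linarith)) (by first | (push_cast; linarith) | (rcases isp (-a - b + p + r + o) with h | h <;> push_cast at h ⊢ <;> linarith))) (ind1 (0) (by push_cast; linarith) (by push_cast; linarith))) (s10 (ind1 (0) (by first | (push_cast; linarith) | (rcases isp (b - o + 1) with h | h <;> push_cast at h ⊢ <;> linarith)) (by first | (push_cast; linarith) | (rcases isp (o) with h | h <;> push_cast at h ⊢ <;> linarith))) (ind0 (1) (by push_cast; linarith) (by push_cast; linarith)))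
                              (tz (ind0 (0) (by push_cast; linarith) (by push_cast; linarith)))
                              (t00 (ind0 (0) (by push_cast; linarith) (by first | (push_cast; linarith) | (rcases isp (-b + p) with h | h <;> push_cast at h ⊢ <;> linarith))) (ind0 (1) (by push_cast; linarith) (by push_cast; linarith)))
                              (t01 (ind1 (0) (by push_cast; linarith) (by push_cast; linarith)) (ind0 (0) (by first | (push_cast; linarith) | (rcases isp (b + 1) with h | h <;> push_cast at h ⊢ <;> linarith)) (by first | (push_cast; linarith) | (rcases isp (-a - b + p) with h | h <;> push_cast at h ⊢ <;> linarith))) (ind1 (0) (by push_cast; linarith) (by push_cast; linarith)))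
                              (tz (ind0 (0) (by push_cast; linarith) (by push_cast; linarith))) (by decide)
                        · skip
                          rcases spl t0 (-b - r + o) with h | h <;> push_cast at h
                          · skip
                            rcases spl t6 (a - p + r) with h | h <;> push_cast at h
                            · skip
                              rcases spl t0 (-b + o) with h | h <;> push_cast at h
                              · skip
                                exact leaf hj_f.rt (a + b + 1) (s10 (ind1 (0) (by first | (push_cast; linarith) | (rcases isp (a + b - o + 1) with h | h <;> push_cast at h ⊢ <;> linarith)) (by first | (push_cast; linarith) | (rcases isp (-b + o) with h | h <;> push_cast at h ⊢ <;> linarith))) (ind0 (0) (by push_cast; linarith) (by push_cast; linarith))) (s01 (ind0 (1) (by first | (push_cast; linarith) | (rcases isp (p - r - o + 1) with h | h <;> push_cast at h ⊢ <;> linarith)) (by first | (push_cast; linarith) | (rcases isp (-b + r + o) with h | h <;> push_cast at h ⊢ <;> linarith))) (ind1 (0) (by push_cast; linarith) (by push_cast; linarith)))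
                                    (t01 (ind1 (-1) (by push_cast; linarith) (by push_cast; linarith)) (ind0 (0) (by first | (push_cast; linarith) | (rcases isp (a + 1) with h | h <;> push_cast at h ⊢ <;> linarith)) (by first | (push_cast; linarith) | (rcases isp (-a - b + p) with h | h <;> push_cast at h ⊢ <;> linarith))) (ind1 (-1) (by push_cast; linarith) (by push_cast; linarith)))
                                    (tz (ind0 (0) (by push_cast; linarith) (by push_cast; linarith)))
                                    (tz (ind0 (1) (by push_cast; linarith) (by push_cast; linarith)))
                                    (t00 (ind0 (0) (by push_cast; linarith) (by first | (push_cast; linarith) | (rcases isp (-a + p) with h | h <;> push_cast at h ⊢ <;> linarith))) (ind0 (0) (by push_cast; linarith) (by push_cast; linarith))) (by decide)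
                              · skip
                                exact leaf hj_h.rb (a + b + 1) (s10 (ind1 (0) (by first | (push_cast; linarith) | (rcases isp (a + b - o + 1) with h | h <;> push_cast at h ⊢ <;> linarith)) (by first | (push_cast; linarith) | (rcases isp (-b + o) with h | h <;> push_cast at h ⊢ <;> linarith))) (ind0 (1) (by push_cast; linarith) (by push_cast; linarith))) (s01 (ind0 (0) (by first | (push_cast; linarith) | (rcases isp (a + r + 1) with h | h <;> push_cast at h ⊢ <;> linarith)) (by first | (push_cast; linarith) | (rcases isp (-a - b + p - r) with h | h <;> push_cast at h ⊢ <;> linarith))) (ind1 (0) (by push_cast; linarith) (by push_cast; linarith)))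
                                    (t00 (ind0 (0) (by first | (push_cast; linarith) | (rcases isp (a + 1) with h | h <;> push_cast at h ⊢ <;> linarith)) (by first | (push_cast; linarith) | (rcases isp (-a - b + p) with h | h <;> push_cast at h ⊢ <;> linarith))) (ind0 (0) (by push_cast; linarith) (by push_cast; linarith)))
                                    (tz (ind0 (1) (by push_cast; linarith) (by push_cast; linarith)))
                                    (tz (ind0 (1) (by push_cast; linarith) (by push_cast; linarith)))
                                    (t01 (ind1 (0) (by push_cast; linarith) (by push_cast; linarith)) (ind0 (0) (by push_cast; linarith) (by first | (push_cast; linarith) | (rcases isp (-a + p) with h | h <;> push_cast at h ⊢ <;> linarith))) (ind1 (0) (by push_cast; linarith) (by push_cast; linarith))) (by decide)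
                            · skip
                              exact leaf hk_f.lt (a + b + r) (s10 (ind1 (0) (by first | (push_cast; linarith) | (rcases isp (a) with h | h <;> push_cast at h ⊢ <;> linarith)) (by push_cast; linarith)) (ind0 (0) (by push_cast; linarith) (by push_cast; linarith))) (s01 (ind0 (1) (by first | (push_cast; linarith) | (rcases isp (p - o) with h | h <;> push_cast at h ⊢ <;> linarith)) (by first | (push_cast; linarith) | (rcases isp (-b + o + 1) with h | h <;> push_cast at h ⊢ <;> linarith))) (ind1 (0) (by push_cast; linarith) (by push_cast; linarith)))
                                  (tz (ind0 (0) (by push_cast; linarith) (by push_cast; linarith)))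
                                  (tz (ind0 (0) (by push_cast; linarith) (by push_cast; linarith)))
                                  (tz (ind0 (1) (by push_cast; linarith) (by push_cast; linarith)))
                                  (t10 (ind1 (0) (by push_cast; linarith) (by push_cast; linarith)) (ind1 (0) (by first | (push_cast; linarith) | (rcases isp (a + r) with h | h <;> push_cast at h ⊢ <;> linarith)) (by first | (push_cast; linarith) | (rcases isp (-r + 1) with h | h <;> push_cast at h ⊢ <;> linarith))) (ind0 (0) (by push_cast; linarith) (by push_cast; linarith))) (by decide)
                          · skip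
                            rcases isp (-a + p - o) with h | h <;> push_cast at h
                            · skip
                              exact leaf hf_j.rt (0) (s01 (ind0 (1) (by first | (push_cast; linarith) | (rcases isp (-a + p - r - o) with h | h <;> push_cast at h ⊢ <;> linarith)) (by first | (push_cast; linarith) | (rcases isp (r + o + 1) with h | h <;> push_cast at h ⊢ <;> linarith))) (ind1 (0) (by push_cast; linarith) (by push_cast; linarith))) (s10 (ind1 (1) (by first | (push_cast; linarith) | (rcases isp (-a + p - o) with h | h <;> push_cast at h ⊢ <;> linarith)) (by first | (push_cast; linarith) | (rcases isp (a + b - p + o + 1) with h | h <;> push_cast at h ⊢ <;> linarith))) (ind0 (1) (by push_cast; linarith) (by push_cast; linarith)))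
                                  (tz (ind0 (0) (by push_cast; linarith) (by push_cast; linarith)))
                                  (t01 (ind1 (0) (by push_cast; linarith) (by push_cast; linarith)) (ind0 (1) (by first | (push_cast; linarith) | (rcases isp (-a - b + p) with h | h <;> push_cast at h ⊢ <;> linarith)) (by first | (push_cast; linarith) | (rcases isp (a + 1) with h | h <;> push_cast at h ⊢ <;> linarith))) (ind1 (0) (by push_cast; linarith) (by push_cast; linarith)))
                                  (t00 (ind0 (1) (by first | (push_cast; linarith) | (rcases isp (-a + p) with h | h <;> push_cast at h ⊢ <;> linarith)) (by push_cast; linarith)) (ind0 (0) (by push_cast; linarith) (by push_cast; linarith)))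
                                  (tz (ind0 (0) (by push_cast; linarith) (by push_cast; linarith))) (by decide)
                            · skip
                              exact leaf hj_h.rb (0) (s10 (ind1 (1) (by first | (push_cast; linarith) | (rcases isp (p - o) with h | h <;> push_cast at h ⊢ <;> linarith)) (by first | (push_cast; linarith) | (rcases isp (a - p + o + 1) with h | h <;> push_cast at h ⊢ <;> linarith))) (ind0 (1) (by push_cast; linarith) (by push_cast; linarith))) (s01 (ind0 (1) (by first | (push_cast; linarith) | (rcases isp (-b + p + r) with h | h <;> push_cast at h ⊢ <;> linarith)) (by first | (push_cast; linarith) | (rcases isp (-r + 1) with h | h <;> push_cast at h ⊢ <;> linarith))) (ind1 (0) (by push_cast; linarith) (by push_cast; linarith)))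
                                  (t01 (ind1 (0) (by push_cast; linarith) (by push_cast; linarith)) (ind0 (1) (by first | (push_cast; linarith) | (rcases isp (-b + p) with h | h <;> push_cast at h ⊢ <;> linarith)) (by push_cast; linarith)) (ind1 (0) (by push_cast; linarith) (by push_cast; linarith)))
                                  (tz (ind0 (1) (by push_cast; linarith) (by push_cast; linarith)))
                                  (tz (ind0 (1) (by push_cast; linarith) (by push_cast; linarith)))
                                  (t00 (ind0 (1) (by first | (push_cast; linarith) | (rcases isp (-a - b + p) with h | h <;> push_cast at h ⊢ <;> linarith)) (by first | (push_cast; linarith) | (rcases isp (b + 1) with h | h <;> push_cast at h ⊢ <;> linarith))) (ind0 (1) (by push_cast; linarith) (by push_cast; linarith))) (by decide)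
                    · skip
                      rcases isp (-a + o + 1) with h | h <;> push_cast at h
                      · skip
                        exact leaf hk_m.rt (b + 1) (s01 (ind0 (0) (by first | (push_cast; linarith) | (rcases isp (-a + b - r + 1) with h | h <;> push_cast at h ⊢ <;> linarith)) (by first | (push_cast; linarith) | (rcases isp (-b + p + r) with h | h <;> push_cast at h ⊢ <;> linarith))) (ind1 (0) (by push_cast; linarith) (by push_cast; linarith))) (s01 (ind0 (0) (by first | (push_cast; linarith) | (rcases isp (-a + o + 1) with h | h <;> push_cast at h ⊢ <;> linarith)) (by first | (push_cast; linarith) | (rcases isp (a - b + p - o) with h | h <;> push_cast at h ⊢ <;> linarith))) (ind1 (0) (by push_cast; linarith) (by push_cast; linarith)))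
                            (tz (ind0 (0) (by push_cast; linarith) (by push_cast; linarith)))
                            (t10 (ind1 (0) (by push_cast; linarith) (by push_cast; linarith)) (ind1 (0) (by first | (push_cast; linarith) | (rcases isp (-a + b + 1) with h | h <;> push_cast at h ⊢ <;> linarith)) (by first | (push_cast; linarith) | (rcases isp (a) with h | h <;> push_cast at h ⊢ <;> linarith))) (ind0 (1) (by push_cast; linarith) (by push_cast; linarith)))
                            (tz (ind0 (0) (by push_cast; linarith) (by push_cast; linarith)))
                            (tz (ind0 (0) (by push_cast; linarith) (by push_cast; linarith))) (by decide)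
                      · skip
                        exact leaf hk_m.rt (a + b - o + 1) (s01 (ind0 (0) (by first | (push_cast; linarith) | (rcases isp (b - r - o + 1) with h | h <;> push_cast at h ⊢ <;> linarith)) (by first | (push_cast; linarith) | (rcases isp (-a - b + p + r + o) with h | h <;> push_cast at h ⊢ <;> linarith))) (ind1 (0) (by push_cast; linarith) (by push_cast; linarith))) (s01 (ind0 (0) (by push_cast; linarith) (by first | (push_cast; linarith) | (rcases isp (-b + p) with h | h <;> push_cast at h ⊢ <;> linarith))) (ind1 (0) (by push_cast; linarith) (by push_cast; linarith)))
                            (tz (ind0 (0) (by push_cast; linarith) (by push_cast; linarith)))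
                            (t10 (ind1 (0) (by push_cast; linarith) (by push_cast; linarith)) (ind1 (0) (by first | (push_cast; linarith) | (rcases isp (b - o + 1) with h | h <;> push_cast at h ⊢ <;> linarith)) (by first | (push_cast; linarith) | (rcases isp (o) with h | h <;> push_cast at h ⊢ <;> linarith))) (ind0 (1) (by push_cast; linarith) (by push_cast; linarith)))
                            (tz (ind0 (0) (by push_cast; linarith) (by push_cast; linarith)))
                            (tz (ind0 (0) (by push_cast; linarith) (by push_cast; linarith))) (by decide)
              · skip
                exact leaf hk_m.rt (b + 1) (s01 (ind0 (0) (by first | (push_cast; linarith) | (rcases isp (-a + b - r + 1) with h | h <;> push_cast at h ⊢ <;> linarith)) (by first | (push_cast; linarith) | (rcases isp (-b + p + r) with h | h <;> push_cast at h ⊢ <;> linarith))) (ind1 (0) (by push_cast; linarith) (by push_cast; linarith))) (s01 (ind0 (0) (by first | (push_cast; linarith) | (rcases isp (-a + o + 1) with h | h <;> push_cast at h ⊢ <;> linarith)) (by first | (push_cast; linarith) | (rcases isp (a - b + p - o) with h | h <;> push_cast at h ⊢ <;> linarith))) (ind1 (0) (by push_cast; linarith) (by push_cast; linarith)))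
                    (t00 (ind0 (0) (by push_cast; linarith) (by first | (push_cast; linarith) | (rcases isp (-b + p) with h | h <;> push_cast at h ⊢ <;> linarith))) (ind0 (1) (by push_cast; linarith) (by push_cast; linarith)))
                    (t10 (ind1 (0) (by push_cast; linarith) (by push_cast; linarith)) (ind1 (0) (by first | (push_cast; linarith) | (rcases isp (-a + b + 1) with h | h <;> push_cast at h ⊢ <;> linarith)) (by first | (push_cast; linarith) | (rcases isp (a) with h | h <;> push_cast at h ⊢ <;> linarith))) (ind0 (1) (by push_cast; linarith) (by push_cast; linarith)))
                    (t00 (ind0 (0) (by first | (push_cast; linarith) | (rcases isp (-a + b + 1) with h | h <;> push_cast at h ⊢ <;> linarith)) (by first | (push_cast; linarith) | (rcases isp (-b + p) with h | h <;> push_cast at h ⊢ <;> linarith))) (ind0 (1) (by push_cast; linarith) (by push_cast; linarith)))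
                    (tz (ind0 (0) (by push_cast; linarith) (by push_cast; linarith))) (by decide)
            · skip
              rcases spl t2 (-o) with h | h <;> push_cast at h
              · skip
                exact leaf hf_j.rt (a + b + 1) (s01 (ind0 (0) (by first | (push_cast; linarith) | (rcases isp (b - r - o + 1) with h | h <;> push_cast at h ⊢ <;> linarith)) (by first | (push_cast; linarith) | (rcases isp (-a - b + p + r + o) with h | h <;> push_cast at h ⊢ <;> linarith))) (ind1 (0) (by push_cast; linarith) (by push_cast; linarith))) (s10 (ind1 (0) (by first | (push_cast; linarith) | (rcases isp (b - o + 1) with h | h <;> push_cast at h ⊢ <;> linarith)) (by first | (push_cast; linarith) | (rcases isp (o) with h | h <;> push_cast at h ⊢ <;> linarith))) (ind0 (1) (by push_cast; linarith) (by push_cast; linarith)))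
                    (tz (ind0 (0) (by push_cast; linarith) (by push_cast; linarith)))
                    (t00 (ind0 (0) (by push_cast; linarith) (by first | (push_cast; linarith) | (rcases isp (-b + p) with h | h <;> push_cast at h ⊢ <;> linarith))) (ind0 (1) (by push_cast; linarith) (by push_cast; linarith)))
                    (t01 (ind1 (0) (by push_cast; linarith) (by push_cast; linarith)) (ind0 (0) (by first | (push_cast; linarith) | (rcases isp (b + 1) with h | h <;> push_cast at h ⊢ <;> linarith)) (by first | (push_cast; linarith) | (rcases isp (-a - b + p) with h | h <;> push_cast at h ⊢ <;> linarith))) (ind1 (0) (by push_cast; linarith) (by push_cast; linarith)))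
                    (tz (ind0 (0) (by push_cast; linarith) (by push_cast; linarith))) (by decide)
              · skip
                rcases isp (b - o + 1) with h | h <;> push_cast at h
                · skip
                  exact leaf hf_j.rt (a + b + 1) (s01 (ind0 (0) (by first | (push_cast; linarith) | (rcases isp (b - r - o + 1) with h | h <;> push_cast at h ⊢ <;> linarith)) (by first | (push_cast; linarith) | (rcases isp (-a - b + p + r + o) with h | h <;> push_cast at h ⊢ <;> linarith))) (ind1 (0) (by push_cast; linarith) (by push_cast; linarith))) (s10 (ind1 (0) (by first | (push_cast; linarith) | (rcases isp (b - o + 1) with h | h <;> push_cast at h ⊢ <;> linarith)) (by first | (push_cast; linarith) | (rcases isp (o) with h | h <;> push_cast at h ⊢ <;> linarith))) (ind0 (1) (by push_cast; linarith) (by push_cast; linarith)))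
                      (tz (ind0 (0) (by push_cast; linarith) (by push_cast; linarith)))
                      (t01 (ind1 (0) (by push_cast; linarith) (by push_cast; linarith)) (ind0 (0) (by push_cast; linarith) (by first | (push_cast; linarith) | (rcases isp (-b + p) with h | h <;> push_cast at h ⊢ <;> linarith))) (ind1 (0) (by push_cast; linarith) (by push_cast; linarith)))
                      (t00 (ind0 (0) (by first | (push_cast; linarith) | (rcases isp (b + 1) with h | h <;> push_cast at h ⊢ <;> linarith)) (by first | (push_cast; linarith) | (rcases isp (-a - b + p) with h | h <;> push_cast at h ⊢ <;> linarith))) (ind0 (0) (by push_cast; linarith) (by push_cast; linarith)))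
                      (tz (ind0 (0) (by push_cast; linarith) (by push_cast; linarith))) (by decide)
                · skip
                  rcases spl t3 (-o) with h | h <;> push_cast at h
                  · skip
                    exact leaf hj_h.rt (a) (s01 (ind0 (1) (by first | (push_cast; linarith) | (rcases isp (p - o) with h | h <;> push_cast at h ⊢ <;> linarith)) (by first | (push_cast; linarith) | (rcases isp (-a + o + 1) with h | h <;> push_cast at h ⊢ <;> linarith))) (ind1 (0) (by push_cast; linarith) (by push_cast; linarith))) (s01 (ind0 (1) (by first | (push_cast; linarith) | (rcases isp (-b + p + r) with h | h <;> push_cast at h ⊢ <;> linarith)) (by first | (push_cast; linarith) | (rcases isp (-r + 1) with h | h <;> push_cast at h ⊢ <;> linarith))) (ind1 (0) (by push_cast; linarith) (by push_cast; linarith)))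
                        (tz (ind0 (0) (by push_cast; linarith) (by push_cast; linarith)))
                        (t01 (ind1 (0) (by push_cast; linarith) (by push_cast; linarith)) (ind0 (1) (by first | (push_cast; linarith) | (rcases isp (-b + p) with h | h <;> push_cast at h ⊢ <;> linarith)) (by push_cast; linarith)) (ind1 (0) (by push_cast; linarith) (by push_cast; linarith)))
                        (t10 (ind1 (0) (by push_cast; linarith) (by push_cast; linarith)) (ind1 (0) (by first | (push_cast; linarith) | (rcases isp (a) with h | h <;> push_cast at h ⊢ <;> linarith)) (by push_cast; linarith)) (ind0 (0) (by push_cast; linarith) (by push_cast; linarith)))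
                        (t01 (ind1 (0) (by push_cast; linarith) (by push_cast; linarith)) (ind0 (1) (by first | (push_cast; linarith) | (rcases isp (-b + p) with h | h <;> push_cast at h ⊢ <;> linarith)) (by first | (push_cast; linarith) | (rcases isp (-a + b + 1) with h | h <;> push_cast at h ⊢ <;> linarith))) (ind1 (0) (by push_cast; linarith) (by push_cast; linarith))) (by decide)
                  · skip
                    exact leaf hj_h.lt (a + b) (s01 (ind0 (1) (by first | (push_cast; linarith) | (rcases isp (p - o) with h | h <;> push_cast at h ⊢ <;> linarith)) (by first | (push_cast; linarith) | (rcases isp (-a + o + 1) with h | h <;> push_cast at h ⊢ <;> linarith))) (ind1 (0) (by push_cast; linarith) (by push_cast; linarith))) (s10 (ind1 (0) (by first | (push_cast; linarith) | (rcases isp (b + r) with h | h <;> push_cast at h ⊢ <;> linarith)) (by first | (push_cast; linarith) | (rcases isp (-r + 1) with h | h <;> push_cast at h ⊢ <;> linarith))) (ind0 (0) (by push_cast; linarith) (by push_cast; linarith)))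
                        (tz (ind0 (0) (by push_cast; linarith) (by push_cast; linarith)))
                        (t10 (ind1 (0) (by push_cast; linarith) (by push_cast; linarith)) (ind1 (0) (by first | (push_cast; linarith) | (rcases isp (b) with h | h <;> push_cast at h ⊢ <;> linarith)) (by push_cast; linarith)) (ind0 (0) (by push_cast; linarith) (by push_cast; linarith)))
                        (tz (ind0 (1) (by push_cast; linarith) (by push_cast; linarith)))
                        (tz (ind0 (1) (by push_cast; linarith) (by push_cast; linarith))) (by decide)
          · skip
            rcases spl t6 (b - p - o) with h | h <;> push_cast at h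
            · skip
              rcases spl t0 (-r + o) with h | h <;> push_cast at h
              · skip
                exact leaf hj_h.rt (a + b + 1) (s01 (ind0 (0) (by first | (push_cast; linarith) | (rcases isp (b - o + 1) with h | h <;> push_cast at h ⊢ <;> linarith)) (by first | (push_cast; linarith) | (rcases isp (-a - b + p + o) with h | h <;> push_cast at h ⊢ <;> linarith))) (ind1 (0) (by push_cast; linarith) (by push_cast; linarith))) (s10 (ind1 (0) (by first | (push_cast; linarith) | (rcases isp (b + r + 1) with h | h <;> push_cast at h ⊢ <;> linarith)) (by first | (push_cast; linarith) | (rcases isp (-r) with h | h <;> push_cast at h ⊢ <;> linarith))) (ind0 (1) (by push_cast; linarith) (by push_cast; linarith)))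
                    (tz (ind0 (0) (by push_cast; linarith) (by push_cast; linarith)))
                    (t01 (ind1 (0) (by push_cast; linarith) (by push_cast; linarith)) (ind0 (0) (by push_cast; linarith) (by first | (push_cast; linarith) | (rcases isp (-b + p) with h | h <;> push_cast at h ⊢ <;> linarith))) (ind1 (0) (by push_cast; linarith) (by push_cast; linarith)))
                    (t00 (ind0 (0) (by first | (push_cast; linarith) | (rcases isp (b + 1) with h | h <;> push_cast at h ⊢ <;> linarith)) (by first | (push_cast; linarith) | (rcases isp (-a - b + p) with h | h <;> push_cast at h ⊢ <;> linarith))) (ind0 (0) (by push_cast; linarith) (by push_cast; linarith)))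
                    (tz (ind0 (0) (by push_cast; linarith) (by push_cast; linarith))) (by decide)
              · skip
                exact leaf hj_h.rt (a + b + 1) (s01 (ind0 (0) (by first | (push_cast; linarith) | (rcases isp (b - o + 1) with h | h <;> push_cast at h ⊢ <;> linarith)) (by first | (push_cast; linarith) | (rcases isp (-a - b + p + o) with h | h <;> push_cast at h ⊢ <;> linarith))) (ind1 (0) (by push_cast; linarith) (by push_cast; linarith))) (s10 (ind1 (0) (by first | (push_cast; linarith) | (rcases isp (b + r + 1) with h | h <;> push_cast at h ⊢ <;> linarith)) (by first | (push_cast; linarith) | (rcases isp (-r) with h | h <;> push_cast at h ⊢ <;> linarith))) (ind0 (1) (by push_cast; linarith) (by push_cast; linarith)))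
                    (tz (ind0 (0) (by push_cast; linarith) (by push_cast; linarith)))
                    (t00 (ind0 (0) (by push_cast; linarith) (by first | (push_cast; linarith) | (rcases isp (-b + p) with h | h <;> push_cast at h ⊢ <;> linarith))) (ind0 (1) (by push_cast; linarith) (by push_cast; linarith)))
                    (t01 (ind1 (0) (by push_cast; linarith) (by push_cast; linarith)) (ind0 (0) (by first | (push_cast; linarith) | (rcases isp (b + 1) with h | h <;> push_cast at h ⊢ <;> linarith)) (by first | (push_cast; linarith) | (rcases isp (-a - b + p) with h | h <;> push_cast at h ⊢ <;> linarith))) (ind1 (0) (by push_cast; linarith) (by push_cast; linarith)))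
                    (tz (ind0 (0) (by push_cast; linarith) (by push_cast; linarith))) (by decide)
            · skip
              exact leaf hf_j.rt (a + o + 1) (s01 (ind0 (0) (by first | (push_cast; linarith) | (rcases isp (-r + 1) with h | h <;> push_cast at h ⊢ <;> linarith)) (by first | (push_cast; linarith) | (rcases isp (-a + p + r) with h | h <;> push_cast at h ⊢ <;> linarith))) (ind1 (0) (by push_cast; linarith) (by push_cast; linarith))) (s10 (ind1 (0) (by push_cast; linarith) (by first | (push_cast; linarith) | (rcases isp (b) with h | h <;> push_cast at h ⊢ <;> linarith))) (ind0 (1) (by push_cast; linarith) (by push_cast; linarith)))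
                  (tz (ind0 (0) (by push_cast; linarith) (by push_cast; linarith)))
                  (t10 (ind1 (0) (by push_cast; linarith) (by push_cast; linarith)) (ind1 (0) (by first | (push_cast; linarith) | (rcases isp (o + 1) with h | h <;> push_cast at h ⊢ <;> linarith)) (by first | (push_cast; linarith) | (rcases isp (b - o) with h | h <;> push_cast at h ⊢ <;> linarith))) (ind0 (1) (by push_cast; linarith) (by push_cast; linarith)))
                  (tz (ind0 (0) (by push_cast; linarith) (by push_cast; linarith)))
                  (tz (ind0 (0) (by push_cast; linarith) (by push_cast; linarith))) (by decide)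
    · skip
      exact leaf hk_j.lb (b + r) (s01 (ind0 (1) (by first | (push_cast; linarith) | (rcases isp (-a + p) with h | h <;> push_cast at h ⊢ <;> linarith)) (by push_cast; linarith)) (ind1 (0) (by push_cast; linarith) (by push_cast; linarith))) (s01 (ind0 (2) (by first | (push_cast; linarith) | (rcases isp (2 * p + r - o) with h | h <;> push_cast at h ⊢ <;> linarith)) (by first | (push_cast; linarith) | (rcases isp (-b - p - r + o + 1) with h | h <;> push_cast at h ⊢ <;> linarith))) (ind1 (1) (by push_cast; linarith) (by push_cast; linarith)))
          (t01 (ind1 (0) (by push_cast; linarith) (by push_cast; linarith)) (ind0 (1) (by first | (push_cast; linarith) | (rcases isp (p + r) with h | h <;> push_cast at h ⊢ <;> linarith)) (by first | (push_cast; linarith) | (rcases isp (-b - r + 1) with h | h <;> push_cast at h ⊢ <;> linarith))) (ind1 (0) (by push_cast; linarith) (by push_cast; linarith)))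
          (tz (ind0 (1) (by push_cast; linarith) (by push_cast; linarith)))
          (tz (ind0 (1) (by push_cast; linarith) (by push_cast; linarith)))
          (tz (ind0 (0) (by push_cast; linarith) (by push_cast; linarith))) (by decide)
  · skip
    exact leaf hk_m.lb (b + r) (s01 (ind0 (1) (by first | (push_cast; linarith) | (rcases isp (-a + p) with h | h <;> push_cast at h ⊢ <;> linarith)) (by push_cast; linarith)) (ind1 (0) (by push_cast; linarith) (by push_cast; linarith))) (s01 (ind0 (1) (by first | (push_cast; linarith) | (rcases isp (p + r + o) with h | h <;> push_cast at h ⊢ <;> linarith)) (by first | (push_cast; linarith) | (rcases isp (-b - r - o + 1) with h | h <;> push_cast at h ⊢ <;> linarith))) (ind1 (0) (by push_cast; linarith) (by push_cast; linarith)))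
        (t01 (ind1 (0) (by push_cast; linarith) (by push_cast; linarith)) (ind0 (1) (by first | (push_cast; linarith) | (rcases isp (p + r) with h | h <;> push_cast at h ⊢ <;> linarith)) (by first | (push_cast; linarith) | (rcases isp (-b - r + 1) with h | h <;> push_cast at h ⊢ <;> linarith))) (ind1 (0) (by push_cast; linarith) (by push_cast; linarith)))
        (tz (ind0 (1) (by push_cast; linarith) (by push_cast; linarith)))
        (tz (ind0 (1) (by push_cast; linarith) (by push_cast; linarith)))
        (tz (ind0 (0) (by push_cast; linarith) (by push_cast; linarith))) (by decide)

end Helper10.KE
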