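import Pool.Agent.Helper10.KE.Base

set_option autoImplicit false
set_option maxHeartbeats 0
set_option linter.all false

namespace Helper10.KE


theorem bk3m (a b P : ℤ) (E : ℝ)
    (g0 : 1 ≤ a - 1)
    (g1 : 1 ≤ -a + b + 1)
    (g2 : 1 ≤ -2 * b + 3 * P)
    (g3 : 0 < 3 * E)
    (g4 : 0 < 3 * (P:ℝ) - 6 * E)
    (g5 : 0 < (b:ℝ) + (P:ℝ) - E)
    (g6 : 0 < (b:ℝ) - (P:ℝ) + E)
    (g7 : 0 < (a:ℝ) - E)
    (g8 : 0 < (a:ℝ) + E)
    (g9 : 0 < (b:ℝ) - (P:ℝ) - 2 * E)
    (g10 : 0 < (a:ℝ) - 2 * E)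
    (hk_h : FRc (3 * (P:ℝ)) a b (3 * E) (-(P:ℝ) + E) ((P:ℝ)) ((P:ℝ) + 2 * E) (-(P:ℝ)))
    : False := by
  have g0r : (1 : ℝ) ≤ (a:ℝ) - 1 := by exact_mod_cast g0
  clear g0
  have g1r : (1 : ℝ) ≤ -(a:ℝ) + (b:ℝ) + 1 := by exact_mod_cast g1
  clear g1
  have g2r : (1 : ℝ) ≤ -2 * (b:ℝ) + 3 * (P:ℝ) := by exact_mod_cast g2
  clear g2
  exact leaf hk_h.lb (b) (s01 (ind0 (1) (by first | (push_cast; linarith) | (rcases isp (-a + 2 * P) with h | h <;> push_cast at h ⊢ <;> linarith)) (by first | (push_cast; linarith) | (rcases isp (P + 1) with h | h <;> push_cast at h ⊢ <;> linarith))) (ind1 (0) (by push_cast; linarith) (by push_cast; linarith))) (s01 (ind0 (0) (by first | (push_cast; linarith) | (rcases isp (P) with h | h <;> push_cast at h ⊢ <;> linarith)) (by first | (push_cast; linarith) | (rcases isp (-b + 2 * P + 1) with h | h <;> push_cast at h ⊢ <;> linarith))) (ind1 (-1) (by push_cast; linarith) (by push_cast; linarith)))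
      (t10 (ind1 (0) (by push_cast; linarith) (by push_cast; linarith)) (ind1 (0) (by first | (push_cast; linarith) | (rcases isp (b) with h | h <;> push_cast at h ⊢ <;> linarith)) (by push_cast; linarith)) (ind0 (0) (by push_cast; linarith) (by push_cast; linarith)))
      (tz (ind0 (1) (by push_cast; linarith) (by push_cast; linarith)))
      (tz (ind0 (1) (by push_cast; linarith) (by push_cast; linarith)))
      (tz (ind0 (1) (by push_cast; linarith) (by push_cast; linarith))) (by decide)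

end Helper10.KE
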