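import Pool.Agent.Helper10.KE.Base

set_option autoImplicit false

/-!
# Abstract progressions of clusters on the real circle

`C n z r`: the static cluster of index `n` (`0 < n < p`) has abscissa `z` (any representative modulo
`p`) relative to the cluster `0` and lies in the row `r` (any representative).
The cluster `p` is at `(D, D)`.
-/

namespace Helper10.KE

/-- no static cluster but `k` has its ordinate in the open strip which belongs to `s` -/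
def Str (a : ℤ) (C : ℤ → ℝ → ℤ → Prop) (k : ℤ) (s : ℝ) : Prop :=
  ∀ (m : ℤ) (z' : ℝ) (r' : ℤ), C m z' r' → m ≠ k →
    (s < 0 → ¬ (s < z' + r' ∧ z' + r' < s + a)) ∧ (0 < s → ¬ (s - a < z' + r' ∧ z' + r' < s))

structure Cfg (p a b : ℤ) (D : ℝ) (C : ℤ → ℝ → ℤ → Prop) : Prop where
  ha : 2 ≤ a
  hab : a ≤ b
  hb : 2 * b < p
  hD0 : 0 < D
  hD : 2 * D < p
  rng : ∀ {n : ℤ} {z : ℝ} {r : ℤ}, C n z r → 0 < n ∧ n < p
  refl : ∀ {n : ℤ} {z : ℝ} {r : ℤ}, C n z r → C (p - n) (D - z) (-r)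
  shift : ∀ {n : ℤ} {z : ℝ} {r : ℤ}, C n z r → ∀ i j : ℤ, C n (z + i * p) (r + j * p)
  add : ∀ {n : ℤ} {z : ℝ} {r : ℤ} {m : ℤ} {z' : ℝ} {r' : ℤ}, C n z r → C m z' r' → n + m < p →
    C (n + m) (z + z') (r + r')
  add' : ∀ {n : ℤ} {z : ℝ} {r : ℤ} {m : ℤ} {z' : ℝ} {r' : ℤ}, C n z r → C m z' r' → p < n + m →
    C (n + m - p) (z + z' - D) (r + r')
  sub : ∀ {n : ℤ} {z : ℝ} {r : ℤ} {m : ℤ} {z' : ℝ} {r' : ℤ}, C n z r → C m z' r' → m < n →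
    C (n - m) (z - z') (r - r')
  row : ∀ R : ℤ, ¬ p ∣ R → ∃ n z, C n z R ∧ -(b : ℝ) < z ∧ z < p - b
  /-- the row determines the index -/
  inj : ∀ {n : ℤ} {z : ℝ} {r : ℤ} {m : ℤ} {z' : ℝ} {r' : ℤ}, C n z r → C m z' r' →
    p ∣ r - r' → n = m
  /-- the index determines the position and the row -/
  same : ∀ {n : ℤ} {z : ℝ} {r : ℤ} {m : ℤ} {z' : ℝ} {r' : ℤ}, C n z r → C m z' r' → n = m →
    (∃ i : ℤ, z - z' = i * p) ∧ p ∣ r - r'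
  rne : ∀ {n : ℤ} {z : ℝ} {r : ℤ}, C n z r → ¬ p ∣ r
  tie : ∀ {n : ℤ} {z : ℝ} {r : ℤ}, C n z r → ∀ j : ℤ, z ≠ j
  tie2 : ∀ {n : ℤ} {z : ℝ} {r : ℤ} {m : ℤ} {z' : ℝ} {r' : ℤ}, C n z r → C m z' r' → n ≠ m →
    ∀ j : ℤ, z - z' ≠ j
  fr : ∀ {n : ℤ} {z : ℝ} {r : ℤ} {m : ℤ} {z' : ℝ} {r' : ℤ}, C n z r → C m z' r' → n ≠ m →
    FRc p a b D z r z' r'
  /-- three gap consequence -/
  half : ∀ {k : ℤ} {z : ℝ} {r : ℤ}, C k z r → |z + r| < 1 → Str a C k (z + r) → 2 * k < p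
  /-- from the row step `± a b` -/
  sp : a = 2 → p = 2 * b + 1 → ∀ {n : ℤ} {z : ℝ}, C n z 1 → n = 1 ∨ n = p - 1
  /-- `M` the integer part of the ordinate step, `g = gcd (M, p)`: `g = 1`; `g ≥ 3`; `2 ∣ g`;
  `g = 3 `, `k = p / 3` -/
  ex : ∀ {k : ℤ} {z : ℝ} {r : ℤ}, C k z r → 2 * k < p →
    (∃ n z' r', C n z' r' ∧ -(a : ℝ) < z' + r' ∧ z' + r' < -a + D) ∨
    (∃ j z' r', C j z' r' ∧ 0 < z' + r' ∧ z' + r' < D ∧ j ≠ k ∧ 2 * j ≠ p ∧ j + k < p) ∨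
    (∃ j r', C j (D / 2 - p / 2) r' ∧ 2 * j = p ∧ 2 * r' = p) ∨
    (∃ r', C k (D / 3 - p / 3) r' ∧ 3 * r' = p) ∨
    (∃ r', C k (D / 3 + p / 3) r' ∧ 3 * r' = -p)

namespace Cfg

variable {p a b : ℤ} {D : ℝ} {C : ℤ → ℝ → ℤ → Prop}

theorem ne (h : Cfg p a b D C) {n : ℤ} {z : ℝ} {r : ℤ} {m : ℤ} {z' : ℝ} {r' : ℤ} (h1 : C n z r)
    (h2 : C m z' r') (h3 : ¬ p ∣ r - r') : n ≠ m := fun e => h3 (h.same h1 h2 e).2

/-- `2 n` -/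
theorem dbl (h : Cfg p a b D C) {n : ℤ} {z : ℝ} {r : ℤ} (h1 : C n z r) (h2 : 2 * n < p) :
    C (2 * n) (2 * z) (2 * r) := by
  have := h.add h1 h1 (by omega)
  rwa [← two_mul, ← two_mul, ← two_mul] at this

/-- `2 n - p` -/
theorem dbl' (h : Cfg p a b D C) {n : ℤ} {z : ℝ} {r : ℤ} (h1 : C n z r) (h2 : p < 2 * n) :
    C (2 * n - p) (2 * z - D) (2 * r) := by
  have := h.add' h1 h1 (by omega)
  rwa [← two_mul, ← two_mul, ← two_mul] at this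

end Cfg

/-- the abstract conclusion (`main` of `Glue.lean`): for every `C k z r` with `|z| < b`,
`|z + r| < a` -/
def Concl (p a b : ℤ) (D : ℝ) (C : ℤ → ℝ → ℤ → Prop) : Prop :=
  ∀ (k : ℤ) (z : ℝ) (r : ℤ), C k z r → |z| < b → |z + r| < a →
    (z < 0 ∧ z + r < 0 ∧ z + b = z + r + a) ∨
    (0 < z ∧ 0 < z + r ∧ (b : ℝ) - z = a - (z + r)) ∨
    (1 ≤ |z + r| ∧ Str a C k (z + r))

end Helper10.KE
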