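import Pool.Agent.Helper10.KE.Wrap

set_option autoImplicit false

/-!
# Types V* (and D* for `a = b`): no such overlap vector
-/

namespace Helper10.KE

namespace Cfg

variable {p a b : ℤ} {D : ℝ} {C : ℤ → ℝ → ℤ → Prop}

theorem cg {n : ℤ} {z : ℝ} {r : ℤ} (h : C n z r) {z' : ℝ} {r' : ℤ} (hz : z = z') (hr : r = r') :
    C n z' r' := by
  subst hz
  subst hr
  exact h

theorem ndvd {p x : ℤ} (h0 : x ≠ 0) (h1 : -p < x) (h2 : x < p) : ¬ p ∣ x := by
  rintro ⟨c, hc⟩
  have hp : 0 < p := by omega
  rcases lt_trichotomy c 0 with h | h | h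
  · have : c ≤ -1 := by omega
    have h3 : p * c ≤ p * (-1) := mul_le_mul_of_nonneg_left this hp.le
    omega
  · subst h
    simp at hc
    exact h0 hc
  · have : 1 ≤ c := by omega
    have h3 : p * 1 ≤ p * c := mul_le_mul_of_nonneg_left this hp.le
    omega

/-- bounds for the row -/
theorem rbd {z : ℝ} {r : ℤ} (hz1 : -(b : ℝ) < z) (hz2 : z < b) (hs1 : -(a : ℝ) < z + r)
    (hs2 : z + r < a) : -(a + b) < r ∧ r < a + b := by
  constructor
  · have : (-(a + b : ℤ) : ℝ) < r := by push_cast; linarith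
    exact_mod_cast this
  · have : (r : ℝ) < (a + b : ℤ) := by push_cast; linarith
    exact_mod_cast this

theorem ne_half (h : Cfg p a b D C) {k : ℤ} {z : ℝ} {r : ℤ} (hC : C k z r)
    (hr : ¬ p ∣ 2 * r) : 2 * k ≠ p := by
  intro e
  have h1 := h.refl hC
  have h2 : k = p - k := by omega
  have h3 := (h.same hC h1 h2).2
  apply hr
  have : r - -r = 2 * r := by ring
  rwa [this] at h3

theorem vstar_lt (h : Cfg p a b D C) (hlt : a < b) {k : ℤ} {z : ℝ} {r : ℤ} (hC : C k z r)
    (hz1 : -(b : ℝ) < z) (hz2 : z < b) (hs1 : -(a : ℝ) < z + r) (hs2 : z + r < a)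
    (hr : b - a < r) (hx : z + b < D) : False := by
  have ha := h.ha
  have hb := h.hb
  have hD0 := h.hD0
  have hD := h.hD
  obtain ⟨hr1, hr2⟩ := rbd hz1 hz2 hs1 hs2
  obtain ⟨e, u, Ce, hu1, hu2⟩ := h.row 1 (ndvd (by omega) (by omega) (by omega))
  have Cf := h.refl Ce
  have nke := h.ne hC Ce (ndvd (by omega) (by omega) (by omega))
  have nkf := h.ne hC Cf (ndvd (by omega) (by omega) (by omega))
  apply vrow1_w h hC (h.refl hC) Ce Cf nke nkf <;> first | omega | linarith

theorem vstar_eq (h : Cfg p a b D C) (heq : a = b) {k : ℤ} {z : ℝ} {r : ℤ} (hC : C k z r)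
    (hz1 : -(b : ℝ) < z) (hz2 : z < b) (hs1 : -(a : ℝ) < z + r) (hs2 : z + r < a)
    (hr : 0 < r) (hx : z + b < D) : False := by
  have ha := h.ha
  have hb := h.hb
  have hD0 := h.hD0
  have hD := h.hD
  have hk := h.rng hC
  obtain ⟨hr1, hr2⟩ := rbd hz1 hz2 hs1 hs2
  by_cases hp : p = 2 * b + 1
  · rcases lt_or_ge (2 * k) p with h2 | h2
    · have nkh : k ≠ p - k := by omega
      apply specAp_w h hC (h.refl hC) (h.dbl hC h2) nkh (by omega) <;> first | omega | linarith
    · have h2 : p < 2 * k := by omega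
      have Cm : C (2 * k - p) (-D + 2 * z) (2 * r) := cg (h.dbl' hC h2) (by ring) rfl
      have Cn : C (p - (2 * k - p)) (2 * D - 2 * z) (-2 * r) :=
        cg (h.refl (h.dbl' hC h2)) (by ring) (by ring)
      apply specBp_w h hC (h.refl hC) Cm Cn (by omega) (by omega) <;> first | omega | linarith
  · by_cases hr1' : r = 1
    · subst hr1'
      have h2' : 2 * k ≠ p := h.ne_half hC (ndvd (by omega) (by omega) (by omega))
      push_cast at hs1 hs2
      rcases lt_or_ge (2 * k) p with h2 | h2
      · have Cn : C (p - 2 * k) (D - 2 * z) (-2 * 1) :=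
          cg (h.refl (h.dbl hC h2)) (by ring) (by ring)
        apply specA1_w h hC (h.refl hC) (h.dbl hC h2) Cn (by omega) <;>
          first | omega | linarith | (push_cast; linarith)
      · have h2 : p < 2 * k := by omega
        have Cm : C (2 * k - p) (-D + 2 * z) (2 * 1) := cg (h.dbl' hC h2) (by ring) rfl
        have Cn : C (p - (2 * k - p)) (2 * D - 2 * z) (-2 * 1) :=
          cg (h.refl (h.dbl' hC h2)) (by ring) (by ring)
        apply specB1_w h hC (h.refl hC) Cm Cn (by omega) (by omega) <;>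
          first | omega | linarith | (push_cast; linarith)
    · obtain ⟨e, u, Ce, hu1, hu2⟩ := h.row 1 (ndvd (by omega) (by omega) (by omega))
      have Cf := h.refl Ce
      have nke := h.ne hC Ce (ndvd (by omega) (by omega) (by omega))
      have nkf := h.ne hC Cf (ndvd (by omega) (by omega) (by omega))
      apply vrow1eq_w h hC (h.refl hC) Ce Cf nke nkf <;> first | omega | linarith

/-- V* is impossible -/
theorem vstar (h : Cfg p a b D C) {k : ℤ} {z : ℝ} {r : ℤ} (hC : C k z r)
    (hz1 : -(b : ℝ) < z) (hz2 : z < b) (hs1 : -(a : ℝ) < z + r) (hs2 : z + r < a)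
    (hr : b - a < r) (hx : z + b < D) : False := by
  rcases lt_or_eq_of_le h.hab with hlt | heq
  · exact h.vstar_lt hlt hC hz1 hz2 hs1 hs2 hr hx
  · exact h.vstar_eq heq hC hz1 hz2 hs1 hs2 (by omega) hx

theorem dstar_eq (h : Cfg p a b D C) (heq : a = b) {k : ℤ} {z : ℝ} {r : ℤ} (hC : C k z r)
    (hz1 : -(b : ℝ) < z) (hz2 : z < b) (hs1 : -(a : ℝ) < z + r) (hs2 : z + r < a)
    (hr : r < 0) (hy : z + r + a < D) : False := by
  have ha := h.ha
  have hb := h.hb
  have hD0 := h.hD0
  have hD := h.hD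
  have hk := h.rng hC
  obtain ⟨hr1, hr2⟩ := rbd hz1 hz2 hs1 hs2
  by_cases hp : p = 2 * b + 1
  · rcases lt_or_ge (2 * k) p with h2 | h2
    · have nkh : k ≠ p - k := by omega
      apply qspecAp_w h hC (h.refl hC) (h.dbl hC h2) nkh (by omega) <;> first | omega | linarith
    · have h2 : p < 2 * k := by omega
      have Cm : C (2 * k - p) (-D + 2 * z) (2 * r) := cg (h.dbl' hC h2) (by ring) rfl
      have Cn : C (p - (2 * k - p)) (2 * D - 2 * z) (-2 * r) :=
        cg (h.refl (h.dbl' hC h2)) (by ring) (by ring)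
      apply qspecBp_w h hC (h.refl hC) Cm Cn (by omega) (by omega) <;> first | omega | linarith
  · by_cases hr1' : r = -1
    · subst hr1'
      have h2' : 2 * k ≠ p := h.ne_half hC (ndvd (by omega) (by omega) (by omega))
      push_cast at hs1 hs2 hy
      rcases lt_or_ge (2 * k) p with h2 | h2
      · have Cn : C (p - 2 * k) (D - 2 * z) (-2 * -1) :=
          cg (h.refl (h.dbl hC h2)) (by ring) (by ring)
        apply qspecA1_w h hC (h.refl hC) (h.dbl hC h2) Cn (by omega) <;>
          first | omega | linarith | (push_cast; linarith)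
      · have h2 : p < 2 * k := by omega
        have Cm : C (2 * k - p) (-D + 2 * z) (2 * -1) := cg (h.dbl' hC h2) (by ring) rfl
        have Cn : C (p - (2 * k - p)) (2 * D - 2 * z) (-2 * -1) :=
          cg (h.refl (h.dbl' hC h2)) (by ring) (by ring)
        apply qspecB1_w h hC (h.refl hC) Cm Cn (by omega) (by omega) <;>
          first | omega | linarith | (push_cast; linarith)
    · obtain ⟨e, u, Ce, hu1, hu2⟩ := h.row 1 (ndvd (by omega) (by omega) (by omega))
      have Cf := h.refl Ce
      have nke := h.ne hC Ce (ndvd (by omega) (by omega) (by omega))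
      have nkf := h.ne hC Cf (ndvd (by omega) (by omega) (by omega))
      apply qrow1eq_w h hC (h.refl hC) Ce Cf nke nkf <;> first | omega | linarith

end Cfg

end Helper10.KE
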