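import Pool.Agent.Helper10.KE.GlueA
import Pool.Agent.Helper10.KE.Bjhp
import Pool.Agent.Helper10.KE.Bjhm
import Pool.Agent.Helper10.KE.Bk3p
import Pool.Agent.Helper10.KE.Bk3m

set_option autoImplicit false
set_option linter.unusedVariables false

/-!
# `k` and `p - k` cannot both be overlap vectors
-/

namespace Helper10.KE

namespace Cfg

variable {p a b : ℤ} {D : ℝ} {C : ℤ → ℝ → ℤ → Prop}

/-- distinct ordinates -/
theorem ne_s (h : Cfg p a b D C) {n : ℤ} {z : ℝ} {r : ℤ} {m : ℤ} {z' : ℝ} {r' : ℤ} (h1 : C n z r)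
    (h2 : C m z' r') (h3 : 0 < z + r - (z' + r')) (h4 : z + r - (z' + r') < p) : n ≠ m := by
  intro e
  obtain ⟨⟨i, hi⟩, ⟨j, hj⟩⟩ := h.same h1 h2 e
  have hj' : (r : ℝ) - r' = j * p := by
    have : ((r - r' : ℤ) : ℝ) = ((p * j : ℤ) : ℝ) := by rw [hj]
    push_cast at this
    linarith
  have h5 : z + r - (z' + r') = ((i + j : ℤ) : ℝ) * p := by push_cast; linarith
  have hp : (0 : ℝ) < p := by linarith [h.hD0, h.hD]
  rw [h5] at h3 h4
  have h6 : (0 : ℝ) < ((i + j : ℤ) : ℝ) := by
    by_contra hc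
    have := mul_nonpos_of_nonpos_of_nonneg (not_lt.mp hc) hp.le
    linarith
  have h7 : 0 < i + j := by exact_mod_cast h6
  have h8 : (1 : ℝ) ≤ ((i + j : ℤ) : ℝ) := by exact_mod_cast h7
  have : 1 * (p : ℝ) ≤ ((i + j : ℤ) : ℝ) * p := mul_le_mul_of_nonneg_right h8 hp.le
  linarith

theorem hp0 (h : Cfg p a b D C) : (0 : ℝ) < p := by linarith [h.hD0, h.hD]

/-- normalisation of the row -/
theorem norm (h : Cfg p a b D C) {n : ℤ} {z : ℝ} {r : ℤ} (hC : C n z r) :
    ∃ o : ℤ, 0 < o ∧ o < p ∧ C n (z + r - o) o := by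
  have hp : 0 < p := by exact_mod_cast h.hp0
  have h1 := h.rne hC
  have h2 : r % p ≠ 0 := fun e => h1 (Int.dvd_of_emod_eq_zero e)
  have h3 := Int.emod_nonneg r (ne_of_gt hp)
  have h4 := Int.emod_lt_of_pos r hp
  have h5 := Int.emod_add_mul_ediv r p
  refine ⟨r % p, by omega, h4, cg (h.shift hC (r / p) (-(r / p))) ?_ ?_⟩
  · have : (r : ℝ) = ((r % p : ℤ) : ℝ) + p * ((r / p : ℤ) : ℝ) := by exact_mod_cast h5.symm
    linarith
  · linarith

theorem bwrap110 (h : Cfg p a b D C) (hlt : a < b) {k : ℤ} {z : ℝ} {r : ℤ} (hC : C k z r)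
    (hz1 : -(b : ℝ) < z) (hz2 : z < b) (hs1 : -(a : ℝ) < z + r) (hs2 : z + r < a)
    (hw : 0 < (b : ℝ) - p + D - z) (hs : D - (z + r) < a) : False := by
  have ha := h.ha
  have hb := h.hb
  have hD0 := h.hD0
  have hD := h.hD
  obtain ⟨hr1, hr2⟩ := rbd hz1 hz2 hs1 hs2
  have hr3 : p - a - b < r := by
    have : ((p - a - b : ℤ) : ℝ) < r := by push_cast; linarith
    exact_mod_cast this
  obtain ⟨e, u, Ce, hu1, hu2⟩ := h.row 1 (ndvd (by omega) (by omega) (by omega))
  have Cf := h.refl Ce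
  have Ch := h.refl hC
  have nke := h.ne hC Ce (ndvd (by omega) (by omega) (by omega))
  have nkf := h.ne hC Cf (ndvd (by omega) (by omega) (by omega))
  have nhe := h.ne Ch Ce (ndvd (by omega) (by omega) (by omega))
  apply both110_w h hC Ch Ce Cf nke nkf nhe <;> first | omega | linarith

theorem bwrap101 (h : Cfg p a b D C) (hlt : a < b) {k : ℤ} {z : ℝ} {r : ℤ} (hC : C k z r)
    (hz1 : -(b : ℝ) < z) (hz2 : z < b) (hs1 : -(a : ℝ) < z + r) (hs2 : z + r < a)
    (hw : D - z < b) (hs : 0 < (a : ℝ) - p + D - (z + r)) : False := by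
  have ha := h.ha
  have hb := h.hb
  have hD0 := h.hD0
  have hD := h.hD
  obtain ⟨hr1, hr2⟩ := rbd hz1 hz2 hs1 hs2
  have hr3 : r < a + b - p := by
    have : (r : ℝ) < ((a + b - p : ℤ) : ℝ) := by push_cast; linarith
    exact_mod_cast this
  obtain ⟨e, u, Ce, hu1, hu2⟩ := h.row 1 (ndvd (by omega) (by omega) (by omega))
  have Cf := h.refl Ce
  have Ch := h.refl hC
  have nke := h.ne hC Ce (ndvd (by omega) (by omega) (by omega))
  have nkf := h.ne hC Cf (ndvd (by omega) (by omega) (by omega))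
  have nhe := h.ne Ch Ce (ndvd (by omega) (by omega) (by omega))
  apply both101m_w h hC Ch Ce Cf nke nkf nhe <;> first | omega | linarith

theorem bwrap111 (h : Cfg p a b D C) (hlt : a < b) {k : ℤ} {z : ℝ} {r : ℤ} (hC : C k z r)
    (hz1 : -(b : ℝ) < z) (hz2 : z < b) (hs1 : -(a : ℝ) < z + r) (hs2 : z + r < a)
    (hw : 0 < (b : ℝ) - p + D - z) (hs : 0 < (a : ℝ) - p + D - (z + r)) : False := by
  have ha := h.ha
  have hb := h.hb
  have hD0 := h.hD0
  have hD := h.hD
  obtain ⟨hr1, hr2⟩ := rbd hz1 hz2 hs1 hs2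
  have Ch := h.refl hC
  have hr0 : r ≠ 0 := by
    rintro rfl
    exact h.rne hC (dvd_zero _)
  by_cases hr3 : r = 1 ∨ r = -1
  · obtain ⟨e, u, Ce, hu1, hu2⟩ := h.row 2 (ndvd (by omega) (by omega) (by omega))
    have Cf := h.refl Ce
    have nke := h.ne hC Ce (ndvd (by omega) (by omega) (by omega))
    have nkf := h.ne hC Cf (ndvd (by omega) (by omega) (by omega))
    have nhe := h.ne Ch Ce (ndvd (by omega) (by omega) (by omega))
    rcases hr3 with rfl | rfl
    · push_cast at hs1 hs2 hs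
      apply both211p_w h hC Ce Cf nke <;> first | omega | linarith | (push_cast; linarith)
    · push_cast at hs1 hs2 hs
      apply both211m_w h hC Ch Ce Cf nke nkf nhe <;>
        first | omega | linarith | (push_cast; linarith)
  · obtain ⟨e, u, Ce, hu1, hu2⟩ := h.row 1 (ndvd (by omega) (by omega) (by omega))
    have Cf := h.refl Ce
    have nke := h.ne hC Ce (ndvd (by omega) (by omega) (by omega))
    have nkf := h.ne hC Cf (ndvd (by omega) (by omega) (by omega))
    have nhe := h.ne Ch Ce (ndvd (by omega) (by omega) (by omega))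
    rcases lt_or_gt_of_ne hr0 with h0 | h0
    · apply both111m_w h hC Ch Ce Cf nke nkf nhe <;> first | omega | linarith
    · apply both111_w h hC Ch Ce Cf nke nkf nhe <;> first | omega | linarith

/-- the cluster `p - k` is different from `k` -/
theorem both_ne (h : Cfg p a b D C) {k : ℤ} {z : ℝ} {r : ℤ} (hC : C k z r)
    (hz1 : D - z < b) (hz2 : z < b) (hs1 : D - (z + r) < a) (hs2 : z + r < a) :
    k ≠ p - k := by
  intro e
  have ha := h.ha
  have hb := h.hb
  have hab := h.hab
  have hD0 := h.hD0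
  have hD := h.hD
  have hbR : 2 * (b : ℝ) < p := by exact_mod_cast hb
  have haR : (a : ℝ) ≤ b := by exact_mod_cast hab
  obtain ⟨⟨i, hi⟩, hj⟩ := h.same hC (h.refl hC) e
  have hi0 : i = 0 := by
    by_contra hne
    rcases lt_or_gt_of_ne hne with h1 | h1
    · have h2 : (i : ℝ) ≤ -1 := by exact_mod_cast (show i ≤ -1 by omega)
      have : (i : ℝ) * p ≤ (-1) * p := mul_le_mul_of_nonneg_right h2 h.hp0.le
      linarith
    · have h2 : (1 : ℝ) ≤ i := by exact_mod_cast (show 1 ≤ i by omega)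
      have : (1 : ℝ) * p ≤ i * p := mul_le_mul_of_nonneg_right h2 h.hp0.le
      linarith
  subst hi0
  rw [Int.cast_zero, zero_mul] at hi
  have h1 : r ≠ 0 := by
    rintro rfl
    exact h.rne hC (dvd_zero _)
  have h2 : (-(2 * a) : ℝ) < 2 * r := by linarith
  have h3 : (2 * r : ℝ) < 2 * a := by linarith
  have h2' : -(2 * a) < 2 * r := by exact_mod_cast h2
  have h3' : 2 * r < 2 * a := by exact_mod_cast h3
  have h4 : ¬ p ∣ 2 * r := ndvd (by omega) (by omega) (by omega)
  apply h4
  have : r - -r = 2 * r := by ring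
  rwa [this] at hj

/-- the canonical cluster `mu` kills -/
theorem both_mu (h : Cfg p a b D C) {k : ℤ} {z : ℝ} {r : ℤ} (hC : C k z r) (hr : 0 < r)
    (hz1 : D - z < b) (hz2 : z < b) (hs1 : D - (z + r) < a) (hs2 : z + r < a)
    {n : ℤ} {z' : ℝ} {r' : ℤ} (hn : C n z' r') (hm1 : -(a : ℝ) < z' + r')
    (hm2 : z' + r' < -a + D) : False := by
  have ha := h.ha
  have hb := h.hb
  have hab := h.hab
  have hD0 := h.hD0
  have hD := h.hD
  have hbR : 2 * (b : ℝ) < p := by exact_mod_cast hb
  have haR : (a : ℝ) ≤ b := by exact_mod_cast hab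
  have haR2 : (2 : ℝ) ≤ a := by exact_mod_cast ha
  obtain ⟨o, ho1, ho2, Cm⟩ := h.norm hn
  obtain ⟨w, hw⟩ : ∃ w : ℝ, w = z' + r' := ⟨_, rfl⟩
  rw [← hw] at hm1 hm2 Cm
  have ho1R : (0 : ℝ) < o := by exact_mod_cast ho1
  have ho2R : (o : ℝ) < p := by exact_mod_cast ho2
  have hrR : (0 : ℝ) < r := by exact_mod_cast hr
  have Ch := h.refl hC
  have Cn : C (p - n) (D - w + (o : ℝ)) (-o) := cg (h.refl Cm) (by ring) rfl
  have nkh := h.both_ne hC hz1 hz2 hs1 hs2
  have nkm : k ≠ n := h.ne_s hC Cm (by linarith) (by linarith)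
  have nkn : k ≠ p - n :=
    (h.ne_s Cn hC (by push_cast; linarith) (by push_cast; linarith)).symm
  have nhm : p - k ≠ n := h.ne_s Ch Cm (by push_cast; linarith) (by push_cast; linarith)
  rcases lt_or_eq_of_le hab with hlt | heq
  · apply bmu_w h hC Ch Cm Cn nkh nkm nkn nhm
    case mV0 =>
      intro h1 h2 h3 h4 h5
      have h5' : b - a < o := by
        have : ((b - a : ℤ) : ℝ) < o := by push_cast; linarith
        exact_mod_cast this
      exact h.vstar Cm (by linarith) (by linarith) (by linarith) (by linarith) h5' (by linarith)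
    case mB011 =>
      intro h1 h2 h3 h4 h5 h6 h7 h8
      exact h.bwrap111 hlt Cm (by linarith) (by linarith) (by linarith) (by linarith)
        (by linarith) (by linarith)
    case mB101 =>
      intro h1 h2 h3 h4 h5 h6 h7 h8
      have Cm' : C n (w - o + p) (o - p) := cg (h.shift Cm 1 (-1)) (by push_cast; ring) (by ring)
      exact h.bwrap101 hlt Cm' (by linarith) (by linarith) (by push_cast; linarith)
        (by push_cast; linarith) (by push_cast; linarith) (by push_cast; linarith)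
    case mB111 =>
      intro h1 h2 h3 h4 h5 h6 h7 h8
      have Cm' : C n (w - o + p) (o - p) := cg (h.shift Cm 1 (-1)) (by push_cast; ring) (by ring)
      exact h.bwrap111 hlt Cm' (by linarith) (by linarith) (by push_cast; linarith)
        (by push_cast; linarith) (by push_cast; linarith) (by push_cast; linarith)
    all_goals first | omega | linarith
  · apply bmueq_w h hC Ch Cm Cn nkh nkm nkn nhm
    case mV0 =>
      intro h1 h2 h3 h4 h5
      exact h.vstar Cm (by linarith) (by linarith) (by linarith) (by linarith) (by omega)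
        (by linarith)
    case mB101 =>
      intro h1 h2 h3 h4 h5 h6 h7 h8
      have Cm' : C n (w - o + p) (o - p) := cg (h.shift Cm 1 (-1)) (by push_cast; ring) (by ring)
      exact h.dstar_eq heq Cm' (by linarith) (by linarith) (by push_cast; linarith)
        (by push_cast; linarith) (by omega) (by push_cast; linarith)
    case nV01 =>
      intro h1 h2 h3 h4 h5 h6
      have Cn' : C (p - n) (D - w + o - 2 * p) (-o + p) :=
        cg (h.shift Cn (-2) 1) (by push_cast; ring) (by ring)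
      exact h.vstar Cn' (by linarith) (by linarith) (by push_cast; linarith)
        (by push_cast; linarith) (by omega) (by linarith)
    all_goals first | omega | linarith

/-- a cluster with ordinate in `(0, D)` kills -/
theorem both_j (h : Cfg p a b D C) {k : ℤ} {z : ℝ} {r : ℤ} (hC : C k z r)
    (hz1 : D - z < b) (hz2 : z < b) (hs1 : D - (z + r) < a) (hs2 : z + r < a)
    {j : ℤ} {z' : ℝ} {r' : ℤ} (hj : C j z' r') (hj1 : 0 < z' + r') (hj2 : z' + r' < D)
    (hjk : j ≠ k) (h2j : 2 * j ≠ p) (hlt : j + k < p) : False := by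
  have ha := h.ha
  have hb := h.hb
  have hab := h.hab
  have hD0 := h.hD0
  have hD := h.hD
  obtain ⟨o, ho1, ho2, Cj⟩ := h.norm hj
  obtain ⟨w, hw⟩ : ∃ w : ℝ, w = z' + r' := ⟨_, rfl⟩
  rw [← hw] at hj1 hj2 Cj
  have Ch := h.refl hC
  have Cm : C (p - j) (D - w + (o : ℝ)) (-o) := cg (h.refl Cj) (by ring) rfl
  have Cf : C (k + j) (z + w - (o : ℝ)) (r + o) := cg (h.add hC Cj (by omega)) (by ring) rfl
  have hk := h.rng hC
  have hj0 := h.rng hj
  have nkh := h.both_ne hC hz1 hz2 hs1 hs2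
  have hr0 : r ≠ 0 := by
    rintro rfl
    exact h.rne hC (dvd_zero _)
  rcases lt_or_gt_of_ne hr0 with h0 | h0
  · apply bjkm_w h hC Ch Cj Cf Cm <;> first | omega | linarith
  · apply bjkp_w h hC Ch Cj Cf Cm <;> first | omega | linarith

end Cfg

end Helper10.KE
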