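import Pool.Agent.Helper10.KE.GlueB

set_option autoImplicit false
set_option linter.unusedVariables false

/-!
# `k` and `p - k` cannot both be overlap vectors, conclusion
-/

namespace Helper10.KE

namespace Cfg

variable {p a b : ℤ} {D : ℝ} {C : ℤ → ℝ → ℤ → Prop}

theorem int_zero {p : ℝ} (hp : 0 < p) {i : ℤ} (h1 : -p < i * p) (h2 : i * p < p) : i = 0 := by
  by_contra hne
  rcases lt_or_gt_of_ne hne with h3 | h3
  · have h4 : (i : ℝ) ≤ -1 := by exact_mod_cast (show i ≤ -1 by omega)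
    have : (i : ℝ) * p ≤ (-1) * p := mul_le_mul_of_nonneg_right h4 hp.le
    linarith
  · have h4 : (1 : ℝ) ≤ i := by exact_mod_cast (show 1 ≤ i by omega)
    have : (1 : ℝ) * p ≤ i * p := mul_le_mul_of_nonneg_right h4 hp.le
    linarith

theorem both_half (h : Cfg p a b D C) {k : ℤ} {z : ℝ} {r : ℤ} (hC : C k z r)
    (hz1 : D - z < b) (hz2 : z < b) (hs1 : D - (z + r) < a) (hs2 : z + r < a) (h2k : 2 * k < p)
    {j P : ℤ} (hj : C j (D / 2 - p / 2) P) (h2j : 2 * j = p) (hr' : 2 * P = p) : False := by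
  have ha := h.ha
  have hb := h.hb
  have hab := h.hab
  have hD0 := h.hD0
  have hD := h.hD
  have hk := h.rng hC
  have nkh := h.both_ne hC hz1 hz2 hs1 hs2
  have Ch := h.refl hC
  have hrj : P = j := by omega
  subst hrj
  subst h2j
  obtain ⟨E, rfl⟩ : ∃ E : ℝ, D = 2 * E := ⟨D / 2, by ring⟩
  have Cj : C P (-(P : ℝ) + E) P := cg hj (by push_cast; ring) rfl
  have Cf : C (P + k) (-(P : ℝ) + E + z) (P + r) := h.add Cj hC (by omega)
  have nkj : k ≠ P := by omega
  have njf : P ≠ P + k := by omega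
  have f1 := h.fr hC Cj nkj
  have f2 := h.fr Cj hC nkj.symm
  have f3 := h.fr Cj Cf njf
  have f4 := h.fr Cf Cj njf.symm
  push_cast at f1 f2 f3 f4 hD
  have hr0 : r ≠ 0 := by
    rintro rfl
    exact h.rne hC (dvd_zero _)
  have e1 : ∀ n : ℤ, z ≠ n := h.tie hC
  have e2 : ∀ n : ℤ, E ≠ n := fun n hn => h.tie Cj (n - P) (by push_cast; linarith)
  have e3 : ∀ n : ℤ, 2 * E - 2 * z ≠ n := fun n hn => h.tie2 hC Ch nkh (-n) (by
    push_cast; linarith)
  have e4 : ∀ n : ℤ, E - z ≠ n := fun n hn => h.tie2 hC Cj nkj (-n + P) (by push_cast; linarith)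
  rcases lt_or_gt_of_ne hr0 with h0 | h0
  · exact bjhm a b P r E z (by omega) (by omega) (by omega) (by omega) (by linarith)
      (by linarith) (by linarith) (by linarith) (by linarith) (by linarith) (by linarith)
      (by linarith) e4 e1 e2 f1 f2 f4
  · exact bjhp a b P r E z (by omega) (by omega) (by omega) (by omega) (by linarith)
      (by linarith) (by linarith) (by linarith) (by linarith) (by linarith) (by linarith)
      (by linarith) e1 e2 e3 f1 f2 f3 f4

theorem both_third (h : Cfg p a b D C) {k : ℤ} {z : ℝ} {r : ℤ} (hC : C k z r)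
    (hz1 : D - z < b) (hz2 : z < b) (hs1 : D - (z + r) < a) (hs2 : z + r < a)
    {r' : ℤ} (hk' : C k (D / 3 - p / 3) r') (hr' : 3 * r' = p) : False := by
  have ha := h.ha
  have hb := h.hb
  have hab := h.hab
  have hD0 := h.hD0
  have hD := h.hD
  have hp0 := h.hp0
  have hbR : 2 * (b : ℝ) < p := by exact_mod_cast hb
  have haR : (a : ℝ) ≤ b := by exact_mod_cast hab
  obtain ⟨⟨i, hi⟩, ⟨j, hj⟩⟩ := h.same hC hk' rfl
  have hi0 : i = 0 := int_zero hp0 (by linarith) (by linarith)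
  subst hi0
  rw [Int.cast_zero, zero_mul] at hi
  have hz : z = D / 3 - p / 3 := by linarith
  have hj' : (r : ℝ) - r' = j * p := by
    have : ((r - r' : ℤ) : ℝ) = ((p * j : ℤ) : ℝ) := by rw [hj]
    push_cast at this
    linarith
  have hr'R : 3 * (r' : ℝ) = p := by exact_mod_cast hr'
  have hj0 : j = 0 := int_zero hp0 (by linarith) (by linarith)
  subst hj0
  have hrr : r = r' := by linarith
  subst hrr
  have nkh := h.both_ne hC hz1 hz2 hs1 hs2
  have Ch := h.refl hC
  subst hr'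
  obtain ⟨E, rfl⟩ : ∃ E : ℝ, D = 3 * E := ⟨D / 3, by ring⟩
  have f := h.fr hC Ch nkh
  push_cast at f hz hD
  have hz' : z = -(r : ℝ) + E := by rw [hz]; ring
  rw [hz'] at f hz1 hz2 hs1 hs2
  have e1 : 3 * E - (-(r : ℝ) + E) = (r : ℝ) + 2 * E := by ring
  rw [e1] at f
  exact bk3m a b r E (by omega) (by omega) (by omega) (by linarith) (by linarith) (by linarith)
    (by linarith) (by linarith) (by linarith) (by linarith) (by linarith) f

theorem both_third' (h : Cfg p a b D C) {k : ℤ} {z : ℝ} {r : ℤ} (hC : C k z r)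
    (hz1 : D - z < b) (hz2 : z < b) (hs1 : D - (z + r) < a) (hs2 : z + r < a)
    {r' : ℤ} (hk' : C k (D / 3 + p / 3) r') (hr' : 3 * r' = -p) : False := by
  have ha := h.ha
  have hb := h.hb
  have hab := h.hab
  have hD0 := h.hD0
  have hD := h.hD
  have hp0 := h.hp0
  have hbR : 2 * (b : ℝ) < p := by exact_mod_cast hb
  have haR : (a : ℝ) ≤ b := by exact_mod_cast hab
  obtain ⟨⟨i, hi⟩, ⟨j, hj⟩⟩ := h.same hC hk' rfl
  have hi0 : i = 0 := int_zero hp0 (by linarith) (by linarith)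
  subst hi0
  rw [Int.cast_zero, zero_mul] at hi
  have hz : z = D / 3 + p / 3 := by linarith
  have hj' : (r : ℝ) - r' = j * p := by
    have : ((r - r' : ℤ) : ℝ) = ((p * j : ℤ) : ℝ) := by rw [hj]
    push_cast at this
    linarith
  have hr'R : 3 * (r' : ℝ) = -p := by exact_mod_cast hr'
  have hj0 : j = 0 := int_zero hp0 (by linarith) (by linarith)
  subst hj0
  have hrr : r = r' := by linarith
  subst hrr
  have nkh := h.both_ne hC hz1 hz2 hs1 hs2
  have Ch := h.refl hC
  obtain ⟨P, hP⟩ : ∃ P : ℤ, r = -P := ⟨-r, by ring⟩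
  subst hP
  have hp : p = 3 * P := by linarith
  subst hp
  obtain ⟨E, rfl⟩ : ∃ E : ℝ, D = 3 * E := ⟨D / 3, by ring⟩
  have f := h.fr hC Ch nkh
  push_cast at f hz hD hs1 hs2
  have hz' : z = (P : ℝ) + E := by rw [hz]; ring
  rw [hz'] at f hz1 hz2 hs1 hs2
  have e1 : 3 * E - ((P : ℝ) + E) = -(P : ℝ) + 2 * E := by ring
  rw [e1, neg_neg] at f
  exact bk3p a b P E (by omega) (by omega) (by omega) (by linarith) (by linarith) (by linarith)
    (by linarith) (by linarith) (by linarith) (by linarith) (by linarith) f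

theorem both_aux (h : Cfg p a b D C) {k : ℤ} {z : ℝ} {r : ℤ} (hC : C k z r)
    (hz1 : D - z < b) (hz2 : z < b) (hs1 : D - (z + r) < a) (hs2 : z + r < a)
    (h2k : 2 * k < p) : False := by
  rcases h.ex hC h2k with ⟨n, z', r', hn, h1, h2⟩ | ⟨j, z', r', hj, h1, h2, h3, h4, h5⟩ |
    ⟨j, r', hj, h1, h2⟩ | ⟨r', hk, h1⟩ | ⟨r', hk, h1⟩
  · have hr0 : r ≠ 0 := by
      rintro rfl
      exact h.rne hC (dvd_zero _)
    rcases lt_or_gt_of_ne hr0 with h0 | h0
    · exact h.both_mu (h.refl hC) (by omega) (by linarith) (by linarith)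
        (by push_cast; linarith) (by push_cast; linarith) hn h1 h2
    · exact h.both_mu hC h0 hz1 hz2 hs1 hs2 hn h1 h2
  · exact h.both_j hC hz1 hz2 hs1 hs2 hj h1 h2 h3 h4 h5
  · exact h.both_half hC hz1 hz2 hs1 hs2 h2k hj h1 h2
  · exact h.both_third hC hz1 hz2 hs1 hs2 hk h1
  · exact h.both_third' hC hz1 hz2 hs1 hs2 hk h1

/-- `k` and `p - k` are not both overlap vectors -/
theorem both (h : Cfg p a b D C) {k : ℤ} {z : ℝ} {r : ℤ} (hC : C k z r)
    (hz1 : D - z < b) (hz2 : z < b) (hs1 : D - (z + r) < a) (hs2 : z + r < a) : False := by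
  have h1 := h.both_ne hC hz1 hz2 hs1 hs2
  rcases lt_or_ge (2 * k) p with h2 | h2
  · exact h.both_aux hC hz1 hz2 hs1 hs2 h2
  · exact h.both_aux (h.refl hC) (by linarith) (by linarith) (by push_cast; linarith)
      (by push_cast; linarith) (by omega)

end Cfg

end Helper10.KE
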