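import Pool.Agent.Helper10.KE.GlueB2

set_option autoImplicit false

/-!
# Type D* for `a < b`
-/

namespace Helper10.KE

namespace Cfg

variable {p a b : ℤ} {D : ℝ} {C : ℤ → ℝ → ℤ → Prop}

/-- a strip property from its real form -/
theorem str_of (h : Cfg p a b D C) {k : ℤ} {s : ℝ}
    (H : ∀ (m o : ℤ) (w : ℝ), C m (w - o) o → k ≠ m → 0 < o → o < p →
      (s < 0 → s < w → w < s + a → False) ∧ (0 < s → s - a < w → w < s → False)) :
    Str a C k s := by
  intro m z' r' hm hmk
  obtain ⟨o, ho1, ho2, Cm⟩ := h.norm hm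
  obtain ⟨H1, H2⟩ := H m o (z' + r') Cm hmk.symm ho1 ho2
  exact ⟨fun hs h1 => H1 hs h1.1 h1.2, fun hs h1 => H2 hs h1.1 h1.2⟩

/-- case A -/
theorem caseA (h : Cfg p a b D C) (hlt : a < b) {k : ℤ} {z : ℝ} {r : ℤ} (hC : C k z r)
    (hz1 : -(b : ℝ) < z) (hz2 : z < b) (hs1 : -(a : ℝ) < z + r) (hs2 : z + r < a)
    (hy : z + r + a < D) (hxT : z + r < 0 → r < b - a) (hxB : 0 < z + r → r ≤ b - a)
    (hS : Str a C k (z + r)) : 1 ≤ |z + r| ∧ Str a C k (z + r) := by
  refine ⟨?_, hS⟩
  by_contra hc
  have hc' : |z + r| < 1 := not_le.mp hc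
  have ha := h.ha
  have hb := h.hb
  have hD0 := h.hD0
  have hD := h.hD
  have hk := h.rng hC
  have h2 := h.half hC hc' hS
  have Cm := h.dbl hC h2
  have nkm : k ≠ 2 * k := by omega
  obtain ⟨h3, h4⟩ := abs_lt.mp hc'
  rcases lt_trichotomy (z + r) 0 with h0 | h0 | h0
  · have hx := hxT h0
    apply twokT_w h hC (h.refl hC) Cm nkm <;> first | omega | linarith
  · exact h.tie hC (-r) (by push_cast; linarith)
  · have hx := hxB h0
    apply twokB_w h hC Cm nkm <;> first | omega | linarith

/-- rows `±1` -/
theorem row1 (h : Cfg p a b D C) {k : ℤ} {z : ℝ} {r : ℤ} (hC : C k z r) (hr1 : -(a + b) < r)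
    (hr2 : r < a + b) (hr3 : r ≠ 1) (hr4 : r ≠ -1) :
    ∃ (e : ℤ) (u : ℝ), C e u 1 ∧ C (p - e) (D - u) (-1) ∧ k ≠ e ∧ k ≠ p - e ∧
      -(b : ℝ) < u ∧ u < p - b := by
  have ha := h.ha
  have hab := h.hab
  have hb := h.hb
  obtain ⟨e, u, Ce, hu1, hu2⟩ := h.row 1 (ndvd (by omega) (by omega) (by omega))
  have Cf := h.refl Ce
  refine ⟨e, u, Ce, Cf, h.ne hC Ce (ndvd (by omega) (by omega) (by omega)),
    h.ne hC Cf (ndvd (by omega) (by omega) (by omega)), hu1, hu2⟩

/-- `a = 2`, `r = - 2` -/
theorem a2 (h : Cfg p a b D C) (ha2 : a = 2) (hlt : a < b) {k : ℤ} {z : ℝ} (hC : C k z (-2))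
    (hz2 : z < b) (hs2 : z - 2 < 0) (hz0 : 0 < z) (hy : z < D) : False := by
  have ha := h.ha
  have hb := h.hb
  have hD0 := h.hD0
  have hD := h.hD
  have hp0 := h.hp0
  have hk := h.rng hC
  have haR : (a : ℝ) = 2 := by exact_mod_cast ha2
  have hbR : (3 : ℝ) ≤ b := by exact_mod_cast (show (3 : ℤ) ≤ b by omega)
  have hbp : 2 * (b : ℝ) < p := by exact_mod_cast hb
  obtain ⟨e, v, Ce, hv1, hv2⟩ := h.row 1 (ndvd (by omega) (by omega) (by omega))
  have he := h.rng Ce
  have h2e : 2 * e ≠ p := h.ne_half Ce (ndvd (by omega) (by omega) (by omega))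
  have Ch := h.refl hC
  have bound : ∀ i : ℤ, -(2 * (p : ℝ)) < i * p → (i : ℝ) * p < 2 * p → -2 < i ∧ i < 2 := by
    intro i h1 h2
    constructor
    · have : (-2 : ℝ) < i := by
        by_contra hc
        have := mul_le_mul_of_nonneg_right (not_lt.mp hc) hp0.le
        linarith
      exact_mod_cast this
    · have : (i : ℝ) < 2 := by
        by_contra hc
        have := mul_le_mul_of_nonneg_right (not_lt.mp hc) hp0.le
        linarith
      exact_mod_cast this
  rcases lt_or_ge (2 * e) p with h2 | h2
  · have Cd := h.dbl Ce h2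
    have e1 := h.inj Cd Ch (by norm_num)
    obtain ⟨⟨i, hi⟩, -⟩ := h.same Cd Ch e1
    obtain ⟨hi1, hi2⟩ := bound i (by linarith) (by linarith)
    have hcase : i = -1 ∨ i = 0 ∨ i = 1 := by omega
    have nhe : p - k ≠ e := by omega
    rcases hcase with rfl | rfl | rfl
    · push_cast at hi
      have hz : z = D - 2 * v - p := by linarith
      have Ch' : C (p - k) ((p : ℝ) + 2 * v) 2 := cg Ch (by rw [hz]; ring) (by norm_num)
      apply a2A0_w h Ch' Ce nhe <;> first | omega | linarith
    · push_cast at hi
      have hz : z = D - 2 * v := by linarith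
      have Ch' : C (p - k) (2 * v) 2 := cg Ch (by rw [hz]; ring) (by norm_num)
      have Ck' : C k (D - 2 * v) (-2) := cg hC hz rfl
      have nke : k ≠ e := h.ne hC Ce (ndvd (by omega) (by omega) (by omega))
      have nkh : k ≠ p - k := h.ne hC Ch (ndvd (by omega) (by omega) (by omega))
      apply a2A1_w h Ck' Ch' Ce nkh nke nhe <;> first | omega | linarith
    · push_cast at hi
      have hz : z = D - 2 * v + p := by linarith
      have Ch' : C (p - k) (-(p : ℝ) + 2 * v) 2 := cg Ch (by rw [hz]; ring) (by norm_num)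
      apply a2A2_w h Ch' Ce nhe <;> first | omega | linarith
  · have h2' : p < 2 * e := by omega
    have Cd := h.dbl' Ce h2'
    have e1 := h.inj Cd Ch (by norm_num)
    obtain ⟨⟨i, hi⟩, -⟩ := h.same Cd Ch e1
    obtain ⟨hi1, hi2⟩ := bound i (by linarith) (by linarith)
    have hcase : i = -1 ∨ i = 0 ∨ i = 1 := by omega
    have nhe : p - k ≠ e := by omega
    rcases hcase with rfl | rfl | rfl
    · push_cast at hi
      have hz : z = 2 * D - 2 * v - p := by linarith
      have Ch' : C (p - k) ((p : ℝ) - D + 2 * v) 2 := cg Ch (by rw [hz]; ring) (by norm_num)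
      by_cases hpb : p = 2 * b + 1
      · rcases h.sp ha2 hpb Ce with he1 | he1
        · omega
        · have hk2 : k < e := by omega
          have Cm : C (e - k) ((p : ℝ) - 2 * D + 3 * v) 3 :=
            cg (h.sub Ce hC hk2) (by rw [hz]; ring) (by norm_num)
          have nhm : p - k ≠ e - k := by omega
          apply a2B0s_w h Ch' Ce Cm nhe nhm <;> first | omega | linarith
      · apply a2B0_w h Ch' Ce nhe <;> first | omega | linarith
    · push_cast at hi
      have hz : z = 2 * D - 2 * v := by linarith
      have Ck' : C k (2 * D - 2 * v) (-2) := cg hC hz rfl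
      have Cf := h.refl Ce
      have nkf : k ≠ p - e := h.ne hC Cf (ndvd (by omega) (by omega) (by omega))
      apply a2B1_w h Ck' Cf nkf <;> first | omega | linarith
    · push_cast at hi
      have hz : z = 2 * D - 2 * v + p := by linarith
      have Ch' : C (p - k) (-(p : ℝ) - D + 2 * v) 2 := cg Ch (by rw [hz]; ring) (by norm_num)
      apply a2B2_w h Ch' Ce nhe <;> first | omega | linarith

/-- `r = - a`, `a ≥ 3` -/
theorem c0 (h : Cfg p a b D C) (ha3 : 3 ≤ a) (hlt : a < b) {k : ℤ} {z : ℝ} {r : ℤ} (hC : C k z r)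
    (hra : r = -a) (hz2 : z < b) (hs1 : -(a : ℝ) < z + r) (hs2 : z + r < 0) (hz0 : 0 < z)
    (hy : z + r + a < D) : False := by
  have hb := h.hb
  have hD0 := h.hD0
  have hD := h.hD
  have hk := h.rng hC
  have hraR : (r : ℝ) = -a := by exact_mod_cast hra
  have haR : (3 : ℝ) ≤ a := by exact_mod_cast ha3
  have hltR : (a : ℝ) < b := by exact_mod_cast hlt
  obtain ⟨e, v, Ce, hv1, hv2⟩ := h.row 1 (ndvd (by omega) (by omega) (by omega))
  have he := h.rng Ce
  have h2e : 2 * e ≠ p := h.ne_half Ce (ndvd (by omega) (by omega) (by omega))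
  have Ch := h.refl hC
  have Cf := h.refl Ce
  have nke := h.ne hC Ce (ndvd (by omega) (by omega) (by omega))
  have nkf := h.ne hC Cf (ndvd (by omega) (by omega) (by omega))
  have nhe := h.ne Ch Ce (ndvd (by omega) (by omega) (by omega))
  have nkh := h.ne hC Ch (ndvd (by omega) (by omega) (by omega))
  rcases lt_or_ge (2 * e) p with h2 | h2
  · have Cm : C (2 * e) (2 * v) 2 := cg (h.dbl Ce h2) rfl (by norm_num)
    have Cn : C (p - 2 * e) (D - 2 * v) (-2) := h.refl Cm
    have nkm := h.ne hC Cm (ndvd (by omega) (by omega) (by omega))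
    have nkn := h.ne hC Cn (ndvd (by omega) (by omega) (by omega))
    have nhm := h.ne Ch Cm (ndvd (by omega) (by omega) (by omega))
    have nem : e ≠ 2 * e := by omega
    apply dsTA_w h hC Ch Ce Cf Cm Cn nke nkf nkm nkn nhe nhm nem <;> first | omega | linarith
  · have h2' : p < 2 * e := by omega
    have Cm : C (2 * e - p) (-D + 2 * v) 2 := cg (h.dbl' Ce h2') (by ring) (by norm_num)
    have Cn : C (p - (2 * e - p)) (2 * D - 2 * v) (-2) := cg (h.refl Cm) (by ring) rfl
    have nkm := h.ne hC Cm (ndvd (by omega) (by omega) (by omega))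
    have nkn := h.ne hC Cn (ndvd (by omega) (by omega) (by omega))
    have nhm := h.ne Ch Cm (ndvd (by omega) (by omega) (by omega))
    have nef := h.ne Ce Cf (ndvd (by omega) (by omega) (by omega))
    have nem := h.ne Ce Cm (ndvd (by omega) (by omega) (by omega))
    have nen := h.ne Ce Cn (ndvd (by omega) (by omega) (by omega))
    have nmn := h.ne Cm Cn (ndvd (by omega) (by omega) (by omega))
    apply dsTB_w h hC Ch Ce Cf Cm Cn nkh nke nkf nkm nkn nhe nhm nef nem nen nmn <;>
      first | omega | linarith

/-- D*, negative ordinate -/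
theorem dstarT (h : Cfg p a b D C) (hlt : a < b) {k : ℤ} {z : ℝ} {r : ℤ} (hC : C k z r)
    (hz1 : -(b : ℝ) < z) (hz2 : z < b) (hs1 : -(a : ℝ) < z + r) (hs0 : z + r < 0)
    (hr : r < b - a) (hy : z + r + a < D) : 1 ≤ |z + r| ∧ Str a C k (z + r) := by
  have ha := h.ha
  have hb := h.hb
  have hD0 := h.hD0
  have hD := h.hD
  have haR : (2 : ℝ) ≤ a := by exact_mod_cast ha
  have hltR : (a : ℝ) < b := by exact_mod_cast hlt
  have hbp : 2 * (b : ℝ) < p := by exact_mod_cast hb
  obtain ⟨hr1, hr2⟩ := rbd hz1 hz2 hs1 (by linarith)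
  have hr0 : r ≠ 0 := by
    rintro rfl
    exact h.rne hC (dvd_zero _)
  have Ch := h.refl hC
  have hz0 : z ≠ 0 := by
    have := h.tie hC 0
    simpa using this
  have hxB : 0 < z + (r : ℝ) → r ≤ b - a := fun _ => by omega
  rcases lt_or_gt_of_ne hz0 with hzn | hzp
  · -- z < 0
    rcases lt_trichotomy r (-1) with h1 | h1 | h1
    · exfalso
      obtain ⟨e, u, Ce, Cf, nke, nkf, hu1, hu2⟩ := h.row1 hC hr1 hr2 (by omega) (by omega)
      apply drT0_w h hC Ch Ce Cf nke nkf <;> first | omega | linarith
    · exfalso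
      subst h1
      obtain ⟨e, u, Ce, hu1, hu2⟩ := h.row 2 (ndvd (by omega) (by omega) (by omega))
      have Cf := h.refl Ce
      have nkh := h.ne hC Ch (ndvd (by omega) (by omega) (by omega))
      have nke := h.ne hC Ce (ndvd (by omega) (by omega) (by omega))
      have nkf := h.ne hC Cf (ndvd (by omega) (by omega) (by omega))
      push_cast at hs1 hs0 hy
      apply dr2T0_w (v := 0) h hC Ch Ce Cf nkh nke nkf <;>
        first | omega | linarith | (push_cast; linarith)
    · -- r ≥ 1
      have hr3 : 1 ≤ r := by omega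
      have hS : Str a C k (z + r) := by
        apply h.str_of
        intro m o w Cm hkm ho1 ho2
        refine ⟨fun _ hw1 hw2 => ?_, fun hs => by linarith⟩
        have Cm' : C (p - m) (D - w + (o : ℝ)) (-o) := cg (h.refl Cm) (by ring) rfl
        apply stT1_w h hC Cm Cm' hkm <;> first | omega | linarith
      exact h.caseA hlt hC hz1 hz2 hs1 (by linarith) hy (fun _ => hr) hxB hS
  · -- z > 0
    have hrn : r < 0 := by
      have : (r : ℝ) < 0 := by linarith
      exact_mod_cast this
    rcases lt_trichotomy r (-a) with h1 | h1 | h1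
    · -- c < 0
      rcases lt_or_ge (-b) r with h2 | h2
      · -- a - b < c < 0
        have hS : Str a C k (z + r) := by
          apply h.str_of
          intro m o w Cm hkm ho1 ho2
          refine ⟨fun _ hw1 hw2 => ?_, fun hs => by linarith⟩
          have Cm' : C (p - m) (D - w + (o : ℝ)) (-o) := cg (h.refl Cm) (by ring) rfl
          apply stT2_w h hC Cm Cm' hkm <;> first | omega | linarith
        exact h.caseA hlt hC hz1 hz2 hs1 (by linarith) hy (fun _ => hr) hxB hS
      · -- c ≤ a - b
        rcases lt_or_ge (2 * a) b with h3 | h3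
        · have hzD : z + b ≠ D := by
            intro e
            exact h.tie Ch b (by linarith)
          rcases lt_or_gt_of_ne hzD with h4 | h4
          · exfalso
            obtain ⟨e, u, Ce, Cf, nke, nkf, hu1, hu2⟩ := h.row1 hC hr1 hr2 (by omega) (by omega)
            apply drT2_w h hC Ce Cf nke nkf <;> first | omega | linarith
          · have hS : Str a C k (z + r) := by
              apply h.str_of
              intro m o w Cm hkm ho1 ho2
              refine ⟨fun _ hw1 hw2 => ?_, fun hs => by linarith⟩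
              have Cm' : C (p - m) (D - w + (o : ℝ)) (-o) := cg (h.refl Cm) (by ring) rfl
              apply stT3_w h hC Ch Cm Cm' hkm <;> first | omega | linarith
            exact h.caseA hlt hC hz1 hz2 hs1 (by linarith) hy (fun _ => hr) hxB hS
        · exfalso
          obtain ⟨e, u, Ce, Cf, nke, nkf, hu1, hu2⟩ := h.row1 hC hr1 hr2 (by omega) (by omega)
          apply drT3_w h hC Ch Ce Cf nke nkf <;> first | omega | linarith
    · -- c = 0
      exfalso
      by_cases ha2 : a = 2
      · have hr2' : r = -2 := by omega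
        subst hr2'
        push_cast at hs0 hy
        have haR2 : (a : ℝ) = 2 := by exact_mod_cast ha2
        exact h.a2 ha2 hlt hC hz2 (by linarith) hzp (by linarith)
      · exact h.c0 (by omega) hlt hC h1 hz2 hs1 hs0 hzp hy
    · -- c ≥ 1
      exfalso
      by_cases h2 : r = -1
      · subst h2
        have nkh := h.ne hC Ch (ndvd (by omega) (by omega) (by omega))
        push_cast at hs1 hs0 hy
        apply dr2T1_w (u := 0) (v := 0) h hC Ch nkh <;>
          first | omega | linarith | (push_cast; linarith)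
      · obtain ⟨e, u, Ce, Cf, nke, nkf, hu1, hu2⟩ := h.row1 hC hr1 hr2 (by omega) (by omega)
        apply drT1_w h hC Ce Cf nke nkf <;> first | omega | linarith

/-- D*, positive ordinate -/
theorem dstarB (h : Cfg p a b D C) (hlt : a < b) {k : ℤ} {z : ℝ} {r : ℤ} (hC : C k z r)
    (hz1 : -(b : ℝ) < z) (hz2 : z < b) (hs0 : 0 < z + r) (hs2 : z + r < a)
    (hr : r ≤ b - a) (hy : z + r + a < D) :
    (0 < z ∧ (b : ℝ) - z = a - (z + r)) ∨ (1 ≤ |z + r| ∧ Str a C k (z + r)) := by
  have ha := h.ha
  have hb := h.hb
  have hD0 := h.hD0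
  have hD := h.hD
  have haR : (2 : ℝ) ≤ a := by exact_mod_cast ha
  have hltR : (a : ℝ) < b := by exact_mod_cast hlt
  have hbp : 2 * (b : ℝ) < p := by exact_mod_cast hb
  obtain ⟨hr1, hr2⟩ := rbd hz1 hz2 (by linarith) hs2
  have hr0 : r ≠ 0 := by
    rintro rfl
    exact h.rne hC (dvd_zero _)
  have Ch := h.refl hC
  have hz0 : z ≠ 0 := by
    have := h.tie hC 0
    simpa using this
  have hxT : z + (r : ℝ) < 0 → r < b - a := fun hs => by linarith
  rcases lt_or_gt_of_ne hz0 with hzn | hzp
  · -- z < 0
    right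
    have hS : Str a C k (z + r) := by
      apply h.str_of
      intro m o w Cm hkm ho1 ho2
      refine ⟨fun hs => by linarith, fun _ hw1 hw2 => ?_⟩
      apply stB1_w h hC Cm hkm <;> first | omega | linarith
    exact h.caseA hlt hC hz1 hz2 (by linarith) hs2 hy hxT (fun _ => hr) hS
  · -- z > 0
    by_cases hrb : r = b - a
    · exfalso
      have nkh := h.ne hC Ch (ndvd (by omega) (by omega) (by omega))
      apply co1_w (u := 0) h hC Ch nkh <;> first | omega | linarith
    rcases lt_trichotomy r 1 with h1 | h1 | h1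
    · -- r < 0
      rcases lt_trichotomy r (a - b) with h2 | h2 | h2
      · rcases lt_or_ge (2 * a) b with h3 | h3
        · have hzD : z + b ≠ D := by
            intro e
            exact h.tie Ch b (by linarith)
          rcases lt_or_gt_of_ne hzD with h4 | h4
          · exfalso
            obtain ⟨e, u, Ce, Cf, nke, nkf, hu1, hu2⟩ := h.row1 hC hr1 hr2 (by omega) (by omega)
            apply drB2_w h hC Ce Cf nke nkf <;> first | omega | linarith
          · right
            have hS : Str a C k (z + r) := by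
              apply h.str_of
              intro m o w Cm hkm ho1 ho2
              refine ⟨fun hs => by linarith, fun _ hw1 hw2 => ?_⟩
              have Cm' : C (p - m) (D - w + (o : ℝ)) (-o) := cg (h.refl Cm) (by ring) rfl
              apply stB3_w h hC Cm Cm' hkm <;> first | omega | linarith
            exact h.caseA hlt hC hz1 hz2 (by linarith) hs2 hy hxT (fun _ => hr) hS
        · exfalso
          obtain ⟨e, u, Ce, Cf, nke, nkf, hu1, hu2⟩ := h.row1 hC hr1 hr2 (by omega) (by omega)
          apply drB3_w h hC Ce Cf nke nkf <;> first | omega | linarith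
      · left
        refine ⟨hzp, ?_⟩
        have : (r : ℝ) = a - b := by exact_mod_cast h2
        linarith
      · right
        have hS : Str a C k (z + r) := by
          apply h.str_of
          intro m o w Cm hkm ho1 ho2
          refine ⟨fun hs => by linarith, fun _ hw1 hw2 => ?_⟩
          have Cm' : C (p - m) (D - w + (o : ℝ)) (-o) := cg (h.refl Cm) (by ring) rfl
          apply stB2_w h hC Cm Cm' hkm <;> first | omega | linarith
        exact h.caseA hlt hC hz1 hz2 (by linarith) hs2 hy hxT (fun _ => hr) hS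
    · -- r = 1
      subst h1
      push_cast at hs0 hs2 hy
      by_cases ha2 : a = 2
      · right
        have hS : Str a C k (z + (1 : ℤ)) := by
          apply h.str_of
          intro m o w Cm hkm ho1 ho2
          refine ⟨fun hs => by push_cast at hs; linarith, fun _ hw1 hw2 => ?_⟩
          push_cast at hw1 hw2
          have ho3 : o ≠ 1 := by
            intro e
            rw [e] at Cm
            exact hkm (h.inj hC Cm (by norm_num))
          apply stBr1_w h hC Cm hkm <;> first | omega | linarith | (push_cast; linarith)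
        refine ⟨?_, hS⟩
        rw [abs_of_pos (by push_cast; linarith)]
        push_cast
        linarith
      · exfalso
        have hk := h.rng hC
        have h2k : 2 * k ≠ p := h.ne_half hC (ndvd (by omega) (by omega) (by omega))
        rcases lt_or_ge (2 * k) p with h2 | h2
        · apply dkBA_w h hC (h.dbl hC h2) (by omega) <;>
            first | omega | linarith | (push_cast; linarith)
        · have Cm : C (2 * k - p) (-D + 2 * z) (2 * 1) := cg (h.dbl' hC (by omega)) (by ring) rfl
          apply dkBB_w h hC Cm (by omega) <;>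
            first | omega | linarith | (push_cast; linarith)
    · exfalso
      obtain ⟨e, u, Ce, Cf, nke, nkf, hu1, hu2⟩ := h.row1 hC hr1 hr2 (by omega) (by omega)
      apply drB0_w h hC Ce Cf nke nkf <;> first | omega | linarith

end Cfg

/-- **the three alternatives for an overlap vector** -/
theorem main {p a b : ℤ} {D : ℝ} {C : ℤ → ℝ → ℤ → Prop} (h : Cfg p a b D C) :
    Concl p a b D C := by
  intro k z r hC hz hs
  obtain ⟨hz1, hz2⟩ := abs_lt.mp hz
  obtain ⟨hs1, hs2⟩ := abs_lt.mp hs
  have Ch := h.refl hC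
  have hx : z + b ≠ D := by
    intro e
    exact h.tie Ch b (by linarith)
  have hy : z + r + a ≠ D := by
    intro e
    exact h.tie Ch (r + a) (by push_cast; linarith)
  have hs0 : z + r ≠ 0 := by
    intro e
    exact h.tie hC (-r) (by push_cast; linarith)
  rcases lt_or_ge (b - a) r with h1 | h1
  · -- x < y
    exfalso
    have h1R : (b : ℝ) - a < r := by exact_mod_cast h1
    rcases lt_or_gt_of_ne hx with h2 | h2
    · exact h.vstar hC hz1 hz2 hs1 hs2 h1 h2
    · exact h.both hC (by linarith) hz2 (by linarith) hs2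
  · have h1R : (r : ℝ) ≤ b - a := by exact_mod_cast h1
    rcases lt_or_gt_of_ne hy with h2 | h2
    · rcases lt_or_eq_of_le h.hab with hlt | heq
      · rcases lt_or_gt_of_ne hs0 with h3 | h3
        · by_cases hrb : r = b - a
          · left
            have : (r : ℝ) = b - a := by exact_mod_cast hrb
            have hltR : (a : ℝ) < b := by exact_mod_cast hlt
            exact ⟨by linarith, h3, by linarith⟩
          · right; right
            exact h.dstarT hlt hC hz1 hz2 hs1 h3 (by omega) h2
        · rcases h.dstarB hlt hC hz1 hz2 h3 hs2 h1 h2 with ⟨h4, h5⟩ | h4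
          · right; left
            exact ⟨h4, h3, h5⟩
          · right; right
            exact h4
      · exfalso
        have hr0 : r ≠ 0 := by
          rintro rfl
          exact h.rne hC (dvd_zero _)
        exact h.dstar_eq heq hC hz1 hz2 hs1 hs2 (by omega) h2
    · exfalso
      exact h.both hC (by linarith) hz2 (by linarith) hs2

end Helper10.KE
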