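import Pool.Agent.Helper57.KE.St

/-!
# Project KE, module ADJ: the adjoint satisfies the same resolvent bound
-/

set_option autoImplicit false

namespace Pool.Agent.Helper10.KE

open Pool.Agent.Helper57.KE Pool.Agent.Helper57.KR Pool.Agent.Helper65.RG

private theorem resolvent_star {A : Type*} [Ring A] [Algebra ℂ A] [StarRing A] [StarModule ℂ A]
    (T : A) (z : ℂ) : resolvent (star T) z = star (resolvent T (star z)) := by
  unfold resolvent
  rw [← Ring.inverse_star, star_sub, ← algebraMap_star_comm, star_star]

theorem hADJ : StADJ := by
  intro H _ _ _ T c hs hr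
  refine ⟨?_, ?_⟩
  · intro z hz
    rw [spectrum.map_star] at hz
    have h1 := hs (Set.mem_star.1 hz)
    rw [mem_closedBall_zero_iff] at h1 ⊢
    rwa [norm_star] at h1
  · intro z h1 h2
    rw [resolvent_star, norm_star]
    have h := hr (star z)
    rw [norm_star] at h
    exact h h1 h2

end Pool.Agent.Helper10.KE
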