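import Pool.Agent.Helper10.KE.Cfg
import Pool.Agent.Helper10.KE.A2A0
import Pool.Agent.Helper10.KE.A2A1
import Pool.Agent.Helper10.KE.A2A2
import Pool.Agent.Helper10.KE.A2B0
import Pool.Agent.Helper10.KE.A2B0s
import Pool.Agent.Helper10.KE.A2B1
import Pool.Agent.Helper10.KE.A2B2
import Pool.Agent.Helper10.KE.Bjhm
import Pool.Agent.Helper10.KE.Bjhp
import Pool.Agent.Helper10.KE.Bjkm
import Pool.Agent.Helper10.KE.Bjkp
import Pool.Agent.Helper10.KE.Bk3m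
import Pool.Agent.Helper10.KE.Bk3p
import Pool.Agent.Helper10.KE.Bmu
import Pool.Agent.Helper10.KE.Bmueq
import Pool.Agent.Helper10.KE.Both101m
import Pool.Agent.Helper10.KE.Both110
import Pool.Agent.Helper10.KE.Both111
import Pool.Agent.Helper10.KE.Both111m
import Pool.Agent.Helper10.KE.Both211m
import Pool.Agent.Helper10.KE.Both211p
import Pool.Agent.Helper10.KE.Co1
import Pool.Agent.Helper10.KE.DkBA
import Pool.Agent.Helper10.KE.DkBB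
import Pool.Agent.Helper10.KE.Dr2T0
import Pool.Agent.Helper10.KE.Dr2T1
import Pool.Agent.Helper10.KE.DrB0
import Pool.Agent.Helper10.KE.DrB2
import Pool.Agent.Helper10.KE.DrB3
import Pool.Agent.Helper10.KE.DrT0
import Pool.Agent.Helper10.KE.DrT1
import Pool.Agent.Helper10.KE.DrT2
import Pool.Agent.Helper10.KE.DrT3
import Pool.Agent.Helper10.KE.DsTA
import Pool.Agent.Helper10.KE.DsTB
import Pool.Agent.Helper10.KE.Qrow1eq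
import Pool.Agent.Helper10.KE.QspecA1
import Pool.Agent.Helper10.KE.QspecAp
import Pool.Agent.Helper10.KE.QspecB1
import Pool.Agent.Helper10.KE.QspecBp
import Pool.Agent.Helper10.KE.SpecA1
import Pool.Agent.Helper10.KE.SpecAp
import Pool.Agent.Helper10.KE.SpecB1
import Pool.Agent.Helper10.KE.SpecBp
import Pool.Agent.Helper10.KE.StB1
import Pool.Agent.Helper10.KE.StB2
import Pool.Agent.Helper10.KE.StB3
import Pool.Agent.Helper10.KE.StBr1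
import Pool.Agent.Helper10.KE.StT1
import Pool.Agent.Helper10.KE.StT2
import Pool.Agent.Helper10.KE.StT3
import Pool.Agent.Helper10.KE.TwokB
import Pool.Agent.Helper10.KE.TwokT
import Pool.Agent.Helper10.KE.Vrow1
import Pool.Agent.Helper10.KE.Vrow1eq

set_option autoImplicit false
set_option linter.all false

/-! # The claims for a configuration -/

namespace Helper10.KE

theorem a2A0_w {p a b : ℤ} {D : ℝ} {C : ℤ → ℝ → ℤ → Prop} (h : Cfg p a b D C)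
    {jh je : ℤ} {v : ℝ}
    (Ch : C jh ((p:ℝ) + 2 * v) (2))
    (Ce : C je (v) (1))
    (nhe : jh ≠ je)
    (g0 : 1 ≤ a - 1)
    (g1 : 1 ≤ -a + 3)
    (g2 : 1 ≤ -a + b)
    (g3 : 1 ≤ -2 * b + p)
    (g4 : 0 < D)
    (g5 : 0 < (p:ℝ) - 2 * D)
    (g6 : 0 < (b:ℝ) + (p:ℝ) - D + 2 * v)
    (g7 : 0 < (b:ℝ) - (p:ℝ) + D - 2 * v)
    (g8 : 0 < (a:ℝ) + (p:ℝ) - D + 2 * v + 2)
    (g9 : 0 < (a:ℝ) - (p:ℝ) + D - 2 * v - 2)
    (g10 : 1 ≤ -a + b + 2)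
    (g11 : 0 < -(a:ℝ) + (p:ℝ) + 2 * v + 2)
    (g12 : 0 < (p:ℝ) - D + 2 * v + 2)
    (g13 : 0 < -(p:ℝ) + D - 2 * v)
    (g14 : 0 < (b:ℝ) + v)
    (g15 : 0 < -(b:ℝ) + (p:ℝ) - v)
    : False :=
  a2A0 a b p D v g0 g1 g2 g3 g4 g5 g6 g7 g8 g9 g10 g11 g12 g13 g14 g15 
    (by have := h.fr Ce Ch nhe.symm; push_cast at this; exact this)
    

theorem a2A1_w {p a b : ℤ} {D : ℝ} {C : ℤ → ℝ → ℤ → Prop} (h : Cfg p a b D C)
    {jk jh je : ℤ} {v : ℝ}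
    (Ck : C jk (D - 2 * v) (-2))
    (Ch : C jh (2 * v) (2))
    (Ce : C je (v) (1))
    (nkh : jk ≠ jh)
    (nke : jk ≠ je)
    (nhe : jh ≠ je)
    (g0 : 1 ≤ a - 1)
    (g1 : 1 ≤ -a + 3)
    (g2 : 1 ≤ -a + b)
    (g3 : 1 ≤ -2 * b + p)
    (g4 : 0 < D)
    (g5 : 0 < (p:ℝ) - 2 * D)
    (g6 : 0 < (b:ℝ) - D + 2 * v)
    (g7 : 0 < (b:ℝ) + D - 2 * v)
    (g8 : 0 < (a:ℝ) - D + 2 * v + 2)
    (g9 : 0 < (a:ℝ) + D - 2 * v - 2)
    (g10 : 1 ≤ -a + b + 2)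
    (g11 : 0 < -(a:ℝ) + 2 * v + 2)
    (g12 : 0 < -D + 2 * v + 2)
    (g13 : 0 < D - 2 * v)
    (g14 : 0 < (b:ℝ) + v)
    (g15 : 0 < -(b:ℝ) + (p:ℝ) - v)
    : False :=
  a2A1 a b p D v g0 g1 g2 g3 g4 g5 g6 g7 g8 g9 g10 g11 g12 g13 g14 g15 
    (fun n hn => h.tie Ch (n + (0)) (by push_cast; linarith))
    (fun n hn => h.tie2 Ck Ce nke (n + (0)) (by push_cast; linarith))
    (by have := h.fr Ck Ch nkh; push_cast at this; exact this)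
    (by have := h.fr Ce Ck nke.symm; push_cast at this; exact this)
    (by have := h.fr Ce Ch nhe.symm; push_cast at this; exact this)
    

theorem a2A2_w {p a b : ℤ} {D : ℝ} {C : ℤ → ℝ → ℤ → Prop} (h : Cfg p a b D C)
    {jh je : ℤ} {v : ℝ}
    (Ch : C jh (-(p:ℝ) + 2 * v) (2))
    (Ce : C je (v) (1))
    (nhe : jh ≠ je)
    (g0 : 1 ≤ a - 1)
    (g1 : 1 ≤ -a + 3)
    (g2 : 1 ≤ -a + b)
    (g3 : 1 ≤ -2 * b + p)
    (g4 : 0 < D)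
    (g5 : 0 < (p:ℝ) - 2 * D)
    (g6 : 0 < (b:ℝ) - (p:ℝ) - D + 2 * v)
    (g7 : 0 < (b:ℝ) + (p:ℝ) + D - 2 * v)
    (g8 : 0 < (a:ℝ) - (p:ℝ) - D + 2 * v + 2)
    (g9 : 0 < (a:ℝ) + (p:ℝ) + D - 2 * v - 2)
    (g10 : 1 ≤ -a + b + 2)
    (g11 : 0 < -(a:ℝ) - (p:ℝ) + 2 * v + 2)
    (g12 : 0 < -(p:ℝ) - D + 2 * v + 2)
    (g13 : 0 < (p:ℝ) + D - 2 * v)
    (g14 : 0 < (b:ℝ) + v)
    (g15 : 0 < -(b:ℝ) + (p:ℝ) - v)
    : False :=
  a2A2 a b p D v g0 g1 g2 g3 g4 g5 g6 g7 g8 g9 g10 g11 g12 g13 g14 g15 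
    (by have := h.fr Ce Ch nhe.symm; push_cast at this; exact this)
    

theorem a2B0_w {p a b : ℤ} {D : ℝ} {C : ℤ → ℝ → ℤ → Prop} (h : Cfg p a b D C)
    {jh je : ℤ} {v : ℝ}
    (Ch : C jh ((p:ℝ) - D + 2 * v) (2))
    (Ce : C je (v) (1))
    (nhe : jh ≠ je)
    (g0 : 1 ≤ a - 1)
    (g1 : 1 ≤ -a + 3)
    (g2 : 1 ≤ -a + b)
    (g3 : 1 ≤ -2 * b + p)
    (g4 : 1 ≤ -2 * b + p - 1)
    (g5 : 0 < D)
    (g6 : 0 < (p:ℝ) - 2 * D)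
    (g7 : 0 < (b:ℝ) + (p:ℝ) - 2 * D + 2 * v)
    (g8 : 0 < (b:ℝ) - (p:ℝ) + 2 * D - 2 * v)
    (g9 : 0 < (a:ℝ) + (p:ℝ) - 2 * D + 2 * v + 2)
    (g10 : 0 < (a:ℝ) - (p:ℝ) + 2 * D - 2 * v - 2)
    (g11 : 1 ≤ -a + b + 2)
    (g12 : 0 < -(a:ℝ) + (p:ℝ) - D + 2 * v + 2)
    (g13 : 0 < (p:ℝ) - 2 * D + 2 * v + 2)
    (g14 : 0 < -(p:ℝ) + 2 * D - 2 * v)
    (g15 : 0 < (b:ℝ) + v)
    (g16 : 0 < -(b:ℝ) + (p:ℝ) - v)
    : False :=
  a2B0 a b p D v g0 g1 g2 g3 g4 g5 g6 g7 g8 g9 g10 g11 g12 g13 g14 g15 g16 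
    (by have := h.fr Ce Ch nhe.symm; push_cast at this; exact this)
    

theorem a2B0s_w {p a b : ℤ} {D : ℝ} {C : ℤ → ℝ → ℤ → Prop} (h : Cfg p a b D C)
    {jh je jm : ℤ} {v : ℝ}
    (Ch : C jh ((p:ℝ) - D + 2 * v) (2))
    (Ce : C je (v) (1))
    (Cm : C jm ((p:ℝ) - 2 * D + 3 * v) (3))
    (nhe : jh ≠ je)
    (nhm : jh ≠ jm)
    (g0 : 1 ≤ a - 1)
    (g1 : 1 ≤ -a + 3)
    (g2 : 1 ≤ -a + b)
    (g3 : 1 ≤ -2 * b + p)
    (g4 : 0 < D)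
    (g5 : 0 < (p:ℝ) - 2 * D)
    (g6 : 0 < (b:ℝ) + (p:ℝ) - 2 * D + 2 * v)
    (g7 : 0 < (b:ℝ) - (p:ℝ) + 2 * D - 2 * v)
    (g8 : 0 < (a:ℝ) + (p:ℝ) - 2 * D + 2 * v + 2)
    (g9 : 0 < (a:ℝ) - (p:ℝ) + 2 * D - 2 * v - 2)
    (g10 : 1 ≤ -a + b + 2)
    (g11 : 0 < -(a:ℝ) + (p:ℝ) - D + 2 * v + 2)
    (g12 : 0 < (p:ℝ) - 2 * D + 2 * v + 2)
    (g13 : 0 < -(p:ℝ) + 2 * D - 2 * v)
    (g14 : 0 < (b:ℝ) + v)
    (g15 : 0 < -(b:ℝ) + (p:ℝ) - v)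
    (g16 : 1 ≤ 2 * b - p + 2)
    : False :=
  a2B0s a b p D v g0 g1 g2 g3 g4 g5 g6 g7 g8 g9 g10 g11 g12 g13 g14 g15 g16 
    (fun n hn => h.tie2 Ch Ce nhe (-n + (p)) (by push_cast; linarith))
    (by have := h.fr Ce Ch nhe.symm; push_cast at this; exact this)
    (by have := h.fr Cm Ch nhm.symm; push_cast at this; exact this)
    

theorem a2B1_w {p a b : ℤ} {D : ℝ} {C : ℤ → ℝ → ℤ → Prop} (h : Cfg p a b D C)
    {jk jf : ℤ} {v : ℝ}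
    (Ck : C jk (2 * D - 2 * v) (-2))
    (Cf : C jf (D - v) (-1))
    (nkf : jk ≠ jf)
    (g0 : 1 ≤ a - 1)
    (g1 : 1 ≤ -a + 3)
    (g2 : 1 ≤ -a + b)
    (g3 : 1 ≤ -2 * b + p)
    (g4 : 0 < D)
    (g5 : 0 < (p:ℝ) - 2 * D)
    (g6 : 0 < (b:ℝ) - 2 * D + 2 * v)
    (g7 : 0 < (b:ℝ) + 2 * D - 2 * v)
    (g8 : 0 < (a:ℝ) - 2 * D + 2 * v + 2)
    (g9 : 0 < (a:ℝ) + 2 * D - 2 * v - 2)
    (g10 : 1 ≤ -a + b + 2)
    (g11 : 0 < -(a:ℝ) - D + 2 * v + 2)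
    (g12 : 0 < -2 * D + 2 * v + 2)
    (g13 : 0 < 2 * D - 2 * v)
    (g14 : 0 < (b:ℝ) + v)
    (g15 : 0 < -(b:ℝ) + (p:ℝ) - v)
    : False :=
  a2B1 a b p D v g0 g1 g2 g3 g4 g5 g6 g7 g8 g9 g10 g11 g12 g13 g14 g15 
    (by have := h.fr Ck Cf nkf; push_cast at this; exact this)
    

theorem a2B2_w {p a b : ℤ} {D : ℝ} {C : ℤ → ℝ → ℤ → Prop} (h : Cfg p a b D C)
    {jh je : ℤ} {v : ℝ}
    (Ch : C jh (-(p:ℝ) - D + 2 * v) (2))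
    (Ce : C je (v) (1))
    (nhe : jh ≠ je)
    (g0 : 1 ≤ a - 1)
    (g1 : 1 ≤ -a + 3)
    (g2 : 1 ≤ -a + b)
    (g3 : 1 ≤ -2 * b + p)
    (g4 : 0 < D)
    (g5 : 0 < (p:ℝ) - 2 * D)
    (g6 : 0 < (b:ℝ) - (p:ℝ) - 2 * D + 2 * v)
    (g7 : 0 < (b:ℝ) + (p:ℝ) + 2 * D - 2 * v)
    (g8 : 0 < (a:ℝ) - (p:ℝ) - 2 * D + 2 * v + 2)
    (g9 : 0 < (a:ℝ) + (p:ℝ) + 2 * D - 2 * v - 2)
    (g10 : 1 ≤ -a + b + 2)
    (g11 : 0 < -(a:ℝ) - (p:ℝ) - D + 2 * v + 2)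
    (g12 : 0 < -(p:ℝ) - 2 * D + 2 * v + 2)
    (g13 : 0 < (p:ℝ) + 2 * D - 2 * v)
    (g14 : 0 < (b:ℝ) + v)
    (g15 : 0 < -(b:ℝ) + (p:ℝ) - v)
    : False :=
  a2B2 a b p D v g0 g1 g2 g3 g4 g5 g6 g7 g8 g9 g10 g11 g12 g13 g14 g15 
    (by have := h.fr Ce Ch nhe.symm; push_cast at this; exact this)
    

theorem bjkm_w {p a b : ℤ} {D : ℝ} {C : ℤ → ℝ → ℤ → Prop} (h : Cfg p a b D C)
    {r o jk jh jj jf jm : ℤ} {z w : ℝ}
    (Ck : C jk (z) (r))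
    (Ch : C jh (D - z) (-r))
    (Cj : C jj (w - (o:ℝ)) (o))
    (Cf : C jf (z + w - (o:ℝ)) (r + o))
    (Cm : C jm (D - w + (o:ℝ)) (-o))
    (nkh : jk ≠ jh)
    (nkj : jk ≠ jj)
    (nkf : jk ≠ jf)
    (nkm : jk ≠ jm)
    (nhj : jh ≠ jj)
    (njf : jj ≠ jf)
    (njm : jj ≠ jm)
    (g0 : 1 ≤ a - 1)
    (g1 : 1 ≤ -a + b + 1)
    (g2 : 1 ≤ -2 * b + p)
    (g3 : 1 ≤ -r)
    (g4 : 0 < D)
    (g5 : 0 < (p:ℝ) - 2 * D)
    (g6 : 0 < (b:ℝ) - z)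
    (g7 : 0 < (b:ℝ) + z)
    (g8 : 0 < (a:ℝ) - z - (r:ℝ))
    (g9 : 0 < (a:ℝ) + z + (r:ℝ))
    (g10 : 0 < (b:ℝ) - D + z)
    (g11 : 0 < (a:ℝ) - D + z + (r:ℝ))
    (g12 : 1 ≤ o)
    (g13 : 1 ≤ p - o)
    (g14 : 0 < w)
    (g15 : 0 < D - w)
    : False :=
  bjkm a b p r o D z w g0 g1 g2 g3 g4 g5 g6 g7 g8 g9 g10 g11 g12 g13 g14 g15 
    (fun n hn => h.tie2 Ck Cm nkm (-n + (-o)) (by push_cast; linarith))
    (fun n hn => h.tie Cm (n + (o)) (by push_cast; linarith))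
    (fun n hn => h.tie Ck (n + (0)) (by push_cast; linarith))
    (fun n hn => h.tie Cj (n + (-o)) (by push_cast; linarith))
    (fun n hn => h.tie2 Ck Cj nkj (n + (o)) (by push_cast; linarith))
    (fun n hn => h.tie Ch (n + (0)) (by push_cast; linarith))
    (fun n hn => h.tie Cf (n + (-o)) (by push_cast; linarith))
    (fun n hn => h.tie2 Ck Ch nkh (-n + (0)) (by push_cast; linarith))
    (fun n hn => h.tie2 Cj Cm njm (-n + (-2 * o)) (by push_cast; linarith))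
    (by have := h.fr Ck Ch nkh; push_cast at this; exact this)
    (by have := h.fr Ck Cj nkj; push_cast at this; exact this)
    (by have := h.fr Ck Cf nkf; push_cast at this; exact this)
    (by have := h.fr Ck Cm nkm; push_cast at this; exact this)
    (by have := h.fr Cj Ck nkj.symm; push_cast at this; exact this)
    (by have := h.fr Cj Ch nhj.symm; push_cast at this; exact this)
    (by have := h.fr Cj Cf njf; push_cast at this; exact this)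
    (by have := h.fr Cj Cm njm; push_cast at this; exact this)
    (by have := h.fr Cf Ck nkf.symm; push_cast at this; exact this)
    (by have := h.fr Cf Cj njf.symm; push_cast at this; exact this)
    

theorem bjkp_w {p a b : ℤ} {D : ℝ} {C : ℤ → ℝ → ℤ → Prop} (h : Cfg p a b D C)
    {r o jk jh jj jf jm : ℤ} {z w : ℝ}
    (Ck : C jk (z) (r))
    (Ch : C jh (D - z) (-r))
    (Cj : C jj (w - (o:ℝ)) (o))
    (Cf : C jf (z + w - (o:ℝ)) (r + o))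
    (Cm : C jm (D - w + (o:ℝ)) (-o))
    (nkh : jk ≠ jh)
    (nkj : jk ≠ jj)
    (nkf : jk ≠ jf)
    (nkm : jk ≠ jm)
    (nhj : jh ≠ jj)
    (njf : jj ≠ jf)
    (njm : jj ≠ jm)
    (g0 : 1 ≤ a - 1)
    (g1 : 1 ≤ -a + b + 1)
    (g2 : 1 ≤ -2 * b + p)
    (g3 : 1 ≤ r)
    (g4 : 0 < D)
    (g5 : 0 < (p:ℝ) - 2 * D)
    (g6 : 0 < (b:ℝ) - z)
    (g7 : 0 < (b:ℝ) + z)
    (g8 : 0 < (a:ℝ) - z - (r:ℝ))
    (g9 : 0 < (a:ℝ) + z + (r:ℝ))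
    (g10 : 0 < (b:ℝ) - D + z)
    (g11 : 0 < (a:ℝ) - D + z + (r:ℝ))
    (g12 : 1 ≤ o)
    (g13 : 1 ≤ p - o)
    (g14 : 0 < w)
    (g15 : 0 < D - w)
    : False :=
  bjkp a b p r o D z w g0 g1 g2 g3 g4 g5 g6 g7 g8 g9 g10 g11 g12 g13 g14 g15 
    (fun n hn => h.tie Ch (n + (0)) (by push_cast; linarith))
    (fun n hn => h.tie2 Ck Ch nkh (-n + (0)) (by push_cast; linarith))
    (fun n hn => h.tie Ck (n + (0)) (by push_cast; linarith))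
    (fun n hn => h.tie2 Ck Cj nkj (n + (o)) (by push_cast; linarith))
    (fun n hn => h.tie2 Ck Cm nkm (-n + (-o)) (by push_cast; linarith))
    (fun n hn => h.tie Cm (n + (o)) (by push_cast; linarith))
    (fun n hn => h.tie Cj (n + (-o)) (by push_cast; linarith))
    (fun n hn => h.tie Cf (n + (-o)) (by push_cast; linarith))
    (fun n hn => h.tie2 Cj Cm njm (-n + (-2 * o)) (by push_cast; linarith))
    (by have := h.fr Ck Ch nkh; push_cast at this; exact this)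
    (by have := h.fr Ck Cj nkj; push_cast at this; exact this)
    (by have := h.fr Ck Cf nkf; push_cast at this; exact this)
    (by have := h.fr Ck Cm nkm; push_cast at this; exact this)
    (by have := h.fr Cj Ck nkj.symm; push_cast at this; exact this)
    (by have := h.fr Cj Ch nhj.symm; push_cast at this; exact this)
    (by have := h.fr Cj Cf njf; push_cast at this; exact this)
    (by have := h.fr Cj Cm njm; push_cast at this; exact this)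
    (by have := h.fr Cf Ck nkf.symm; push_cast at this; exact this)
    (by have := h.fr Cf Cj njf.symm; push_cast at this; exact this)
    

theorem bmu_w {p a b : ℤ} {D : ℝ} {C : ℤ → ℝ → ℤ → Prop} (h : Cfg p a b D C)
    {r o jk jh jm jn : ℤ} {z w : ℝ}
    (Ck : C jk (z) (r))
    (Ch : C jh (D - z) (-r))
    (Cm : C jm (w - (o:ℝ)) (o))
    (Cn : C jn (D - w + (o:ℝ)) (-o))
    (nkh : jk ≠ jh)
    (nkm : jk ≠ jm)
    (nkn : jk ≠ jn)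
    (nhm : jh ≠ jm)
    (g0 : 1 ≤ a - 1)
    (g1 : 1 ≤ -a + b)
    (g2 : 1 ≤ -2 * b + p)
    (g3 : 1 ≤ r)
    (g4 : 0 < D)
    (g5 : 0 < (p:ℝ) - 2 * D)
    (g6 : 0 < (b:ℝ) - z)
    (g7 : 0 < (b:ℝ) + z)
    (g8 : 0 < (a:ℝ) - z - (r:ℝ))
    (g9 : 0 < (a:ℝ) + z + (r:ℝ))
    (g10 : 0 < (b:ℝ) - D + z)
    (g11 : 0 < (a:ℝ) - D + z + (r:ℝ))
    (g12 : 1 ≤ o)
    (g13 : 1 ≤ p - o)
    (g14 : 0 < (a:ℝ) + w)
    (g15 : 0 < -(a:ℝ) + D - w)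
    (mV0 : 0 < (b:ℝ) + w - (o:ℝ) → 0 < (b:ℝ) - w + (o:ℝ) → 0 < -(b:ℝ) + D - w + (o:ℝ) → 0 < (a:ℝ) - w → 0 < (a:ℝ) - (b:ℝ) + (o:ℝ) → False)
    (mB011 : 0 < (b:ℝ) - w + (o:ℝ) → 0 < (b:ℝ) + w - (o:ℝ) → 0 < (b:ℝ) + (p:ℝ) - D + w - (o:ℝ) → 0 < (b:ℝ) - (p:ℝ) + D - w + (o:ℝ) → 0 < (a:ℝ) - w → 0 < (a:ℝ) + w → 0 < (a:ℝ) + (p:ℝ) - D + w → 0 < (a:ℝ) - (p:ℝ) + D - w → False)
    (mB101 : 0 < (b:ℝ) - (p:ℝ) - w + (o:ℝ) → 0 < (b:ℝ) + (p:ℝ) + w - (o:ℝ) → 0 < (b:ℝ) + (p:ℝ) - D + w - (o:ℝ) → 0 < (b:ℝ) - (p:ℝ) + D - w + (o:ℝ) → 0 < (a:ℝ) - w → 0 < (a:ℝ) + w → 0 < (a:ℝ) + (p:ℝ) - D + w → 0 < (a:ℝ) - (p:ℝ) + D - w → False)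
    (mB111 : 0 < (b:ℝ) - (p:ℝ) - w + (o:ℝ) → 0 < (b:ℝ) + (p:ℝ) + w - (o:ℝ) → 0 < (b:ℝ) + 2 * (p:ℝ) - D + w - (o:ℝ) → 0 < (b:ℝ) - 2 * (p:ℝ) + D - w + (o:ℝ) → 0 < (a:ℝ) - w → 0 < (a:ℝ) + w → 0 < (a:ℝ) + (p:ℝ) - D + w → 0 < (a:ℝ) - (p:ℝ) + D - w → False)
    : False :=
  bmu a b p r o D z w g0 g1 g2 g3 g4 g5 g6 g7 g8 g9 g10 g11 g12 g13 g14 g15 
    (fun n hn => h.tie2 Ck Cm nkm (n + (o)) (by push_cast; linarith))
    (fun n hn => h.tie Ck (n + (0)) (by push_cast; linarith))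
    (fun n hn => h.tie Ch (n + (0)) (by push_cast; linarith))
    (fun n hn => h.tie Cn (n + (o)) (by push_cast; linarith))
    (fun n hn => h.tie2 Ck Cn nkn (-n + (-o)) (by push_cast; linarith))
    (fun n hn => h.tie2 Ck Ch nkh (-n + (0)) (by push_cast; linarith))
    (fun n hn => h.tie Cm (n + (-o)) (by push_cast; linarith))
    (by have := h.fr Ck Ch nkh; push_cast at this; exact this)
    (by have := h.fr Ck Cm nkm; push_cast at this; exact this)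
    (by have := h.fr Ck Cn nkn; push_cast at this; exact this)
    (by have := h.fr Cm Ck nkm.symm; push_cast at this; exact this)
    (by have := h.fr Cm Ch nhm.symm; push_cast at this; exact this)
    mV0 mB011 mB101 mB111 

theorem bmueq_w {p a b : ℤ} {D : ℝ} {C : ℤ → ℝ → ℤ → Prop} (h : Cfg p a b D C)
    {r o jk jh jm jn : ℤ} {z w : ℝ}
    (Ck : C jk (z) (r))
    (Ch : C jh (D - z) (-r))
    (Cm : C jm (w - (o:ℝ)) (o))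
    (Cn : C jn (D - w + (o:ℝ)) (-o))
    (nkh : jk ≠ jh)
    (nkm : jk ≠ jm)
    (nkn : jk ≠ jn)
    (nhm : jh ≠ jm)
    (g0 : 1 ≤ a - 1)
    (g1 : 1 ≤ a - b + 1)
    (g2 : 1 ≤ -a + b + 1)
    (g3 : 1 ≤ -2 * b + p)
    (g4 : 1 ≤ r)
    (g5 : 0 < D)
    (g6 : 0 < (p:ℝ) - 2 * D)
    (g7 : 0 < (b:ℝ) - z)
    (g8 : 0 < (b:ℝ) + z)
    (g9 : 0 < (a:ℝ) - z - (r:ℝ))
    (g10 : 0 < (a:ℝ) + z + (r:ℝ))
    (g11 : 0 < (b:ℝ) - D + z)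
    (g12 : 0 < (a:ℝ) - D + z + (r:ℝ))
    (g13 : 1 ≤ o)
    (g14 : 1 ≤ p - o)
    (g15 : 0 < (a:ℝ) + w)
    (g16 : 0 < -(a:ℝ) + D - w)
    (mV0 : 0 < (b:ℝ) + w - (o:ℝ) → 0 < (b:ℝ) - w + (o:ℝ) → 0 < -(b:ℝ) + D - w + (o:ℝ) → 0 < (a:ℝ) - w → 0 < (a:ℝ) - (b:ℝ) + (o:ℝ) → False)
    (mB101 : 0 < (b:ℝ) - (p:ℝ) - w + (o:ℝ) → 0 < (b:ℝ) + (p:ℝ) + w - (o:ℝ) → 0 < (b:ℝ) + (p:ℝ) - D + w - (o:ℝ) → 0 < (b:ℝ) - (p:ℝ) + D - w + (o:ℝ) → 0 < (a:ℝ) - w → 0 < (a:ℝ) + w → 0 < (a:ℝ) + (p:ℝ) - D + w → 0 < (a:ℝ) - (p:ℝ) + D - w → False)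
    (nV01 : 0 < (b:ℝ) - 2 * (p:ℝ) + D - w + (o:ℝ) → 0 < (b:ℝ) + 2 * (p:ℝ) - D + w - (o:ℝ) → 0 < -(b:ℝ) + 2 * (p:ℝ) + w - (o:ℝ) → 0 < (a:ℝ) - (b:ℝ) + (p:ℝ) - (o:ℝ) → 0 < (a:ℝ) + (p:ℝ) - D + w → 0 < (a:ℝ) - (p:ℝ) + D - w → False)
    : False :=
  bmueq a b p r o D z w g0 g1 g2 g3 g4 g5 g6 g7 g8 g9 g10 g11 g12 g13 g14 g15 g16 
    (fun n hn => h.tie Cm (n + (-o)) (by push_cast; linarith))
    (fun n hn => h.tie2 Ck Cn nkn (-n + (-o)) (by push_cast; linarith))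
    (fun n hn => h.tie Cn (n + (o)) (by push_cast; linarith))
    (fun n hn => h.tie Ck (n + (0)) (by push_cast; linarith))
    (fun n hn => h.tie Ch (n + (0)) (by push_cast; linarith))
    (fun n hn => h.tie2 Ck Cm nkm (n + (o)) (by push_cast; linarith))
    (fun n hn => h.tie2 Ck Ch nkh (-n + (0)) (by push_cast; linarith))
    (by have := h.fr Ck Ch nkh; push_cast at this; exact this)
    (by have := h.fr Ck Cm nkm; push_cast at this; exact this)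
    (by have := h.fr Ck Cn nkn; push_cast at this; exact this)
    (by have := h.fr Cm Ck nkm.symm; push_cast at this; exact this)
    (by have := h.fr Cm Ch nhm.symm; push_cast at this; exact this)
    mV0 mB101 nV01 

theorem both101m_w {p a b : ℤ} {D : ℝ} {C : ℤ → ℝ → ℤ → Prop} (h : Cfg p a b D C)
    {r jk jh je jf : ℤ} {z u : ℝ}
    (Ck : C jk (z) (r))
    (Ch : C jh (D - z) (-r))
    (Ce : C je (u) (1))
    (Cf : C jf (D - u) (-1))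
    (nke : jk ≠ je)
    (nkf : jk ≠ jf)
    (nhe : jh ≠ je)
    (g0 : 1 ≤ a - 1)
    (g1 : 1 ≤ -a + b)
    (g2 : 1 ≤ -2 * b + p)
    (g3 : 1 ≤ -r - 1)
    (g4 : 0 < D)
    (g5 : 0 < (p:ℝ) - 2 * D)
    (g6 : 0 < (b:ℝ) - z)
    (g7 : 0 < (b:ℝ) + z)
    (g8 : 0 < (a:ℝ) - z - (r:ℝ))
    (g9 : 0 < (a:ℝ) + z + (r:ℝ))
    (g10 : 0 < (b:ℝ) + u)
    (g11 : 0 < -(b:ℝ) + (p:ℝ) - u)
    (g12 : 0 < (b:ℝ) - D + z)
    (g13 : 0 < (a:ℝ) - (p:ℝ) + D - z - (r:ℝ))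
    : False :=
  both101m a b p r D z u g0 g1 g2 g3 g4 g5 g6 g7 g8 g9 g10 g11 g12 g13 
    (fun n hn => h.tie2 Ck Ce nke (n + (0)) (by push_cast; linarith))
    (fun n hn => h.tie Ce (n + (0)) (by push_cast; linarith))
    (fun n hn => h.tie Cf (n + (0)) (by push_cast; linarith))
    (fun n hn => h.tie2 Ck Cf nkf (-n + (0)) (by push_cast; linarith))
    (fun n hn => h.tie Ck (n + (0)) (by push_cast; linarith))
    (by have := h.fr Ck Ce nke; push_cast at this; exact this)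
    (by have := h.fr Ck Cf nkf; push_cast at this; exact this)
    (by have := h.fr Ce Ck nke.symm; push_cast at this; exact this)
    (by have := h.fr Ce Ch nhe.symm; push_cast at this; exact this)
    

theorem both110_w {p a b : ℤ} {D : ℝ} {C : ℤ → ℝ → ℤ → Prop} (h : Cfg p a b D C)
    {r jk jh je jf : ℤ} {z u : ℝ}
    (Ck : C jk (z) (r))
    (Ch : C jh (D - z) (-r))
    (Ce : C je (u) (1))
    (Cf : C jf (D - u) (-1))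
    (nke : jk ≠ je)
    (nkf : jk ≠ jf)
    (nhe : jh ≠ je)
    (g0 : 1 ≤ a - 1)
    (g1 : 1 ≤ -a + b)
    (g2 : 1 ≤ -2 * b + p)
    (g3 : 1 ≤ r - 1)
    (g4 : 0 < D)
    (g5 : 0 < (p:ℝ) - 2 * D)
    (g6 : 0 < (b:ℝ) - z)
    (g7 : 0 < (b:ℝ) + z)
    (g8 : 0 < (a:ℝ) - z - (r:ℝ))
    (g9 : 0 < (a:ℝ) + z + (r:ℝ))
    (g10 : 0 < (b:ℝ) + u)
    (g11 : 0 < -(b:ℝ) + (p:ℝ) - u)
    (g12 : 0 < (b:ℝ) - (p:ℝ) + D - z)
    (g13 : 0 < (a:ℝ) - D + z + (r:ℝ))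
    : False :=
  both110 a b p r D z u g0 g1 g2 g3 g4 g5 g6 g7 g8 g9 g10 g11 g12 g13 
    (fun n hn => h.tie2 Ck Ce nke (n + (0)) (by push_cast; linarith))
    (fun n hn => h.tie Ce (n + (0)) (by push_cast; linarith))
    (fun n hn => h.tie Cf (n + (0)) (by push_cast; linarith))
    (fun n hn => h.tie2 Ck Cf nkf (-n + (0)) (by push_cast; linarith))
    (fun n hn => h.tie Ck (n + (0)) (by push_cast; linarith))
    (fun n hn => h.tie Ch (n + (0)) (by push_cast; linarith))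
    (by have := h.fr Ck Ce nke; push_cast at this; exact this)
    (by have := h.fr Ck Cf nkf; push_cast at this; exact this)
    (by have := h.fr Ce Ck nke.symm; push_cast at this; exact this)
    (by have := h.fr Ce Ch nhe.symm; push_cast at this; exact this)
    

theorem both111_w {p a b : ℤ} {D : ℝ} {C : ℤ → ℝ → ℤ → Prop} (h : Cfg p a b D C)
    {r jk jh je jf : ℤ} {z u : ℝ}
    (Ck : C jk (z) (r))
    (Ch : C jh (D - z) (-r))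
    (Ce : C je (u) (1))
    (Cf : C jf (D - u) (-1))
    (nke : jk ≠ je)
    (nkf : jk ≠ jf)
    (nhe : jh ≠ je)
    (g0 : 1 ≤ a - 1)
    (g1 : 1 ≤ -a + b)
    (g2 : 1 ≤ -2 * b + p)
    (g3 : 1 ≤ r - 1)
    (g4 : 0 < D)
    (g5 : 0 < (p:ℝ) - 2 * D)
    (g6 : 0 < (b:ℝ) - z)
    (g7 : 0 < (b:ℝ) + z)
    (g8 : 0 < (a:ℝ) - z - (r:ℝ))
    (g9 : 0 < (a:ℝ) + z + (r:ℝ))
    (g10 : 0 < (b:ℝ) + u)
    (g11 : 0 < -(b:ℝ) + (p:ℝ) - u)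
    (g12 : 0 < (b:ℝ) - (p:ℝ) + D - z)
    (g13 : 0 < (a:ℝ) - (p:ℝ) + D - z - (r:ℝ))
    : False :=
  both111 a b p r D z u g0 g1 g2 g3 g4 g5 g6 g7 g8 g9 g10 g11 g12 g13 
    (fun n hn => h.tie2 Ck Ce nke (n + (0)) (by push_cast; linarith))
    (fun n hn => h.tie Ce (n + (0)) (by push_cast; linarith))
    (fun n hn => h.tie2 Ck Cf nkf (-n + (0)) (by push_cast; linarith))
    (fun n hn => h.tie Cf (n + (0)) (by push_cast; linarith))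
    (by have := h.fr Ck Ce nke; push_cast at this; exact this)
    (by have := h.fr Ck Cf nkf; push_cast at this; exact this)
    (by have := h.fr Ce Ck nke.symm; push_cast at this; exact this)
    (by have := h.fr Ce Ch nhe.symm; push_cast at this; exact this)
    

theorem both111m_w {p a b : ℤ} {D : ℝ} {C : ℤ → ℝ → ℤ → Prop} (h : Cfg p a b D C)
    {r jk jh je jf : ℤ} {z u : ℝ}
    (Ck : C jk (z) (r))
    (Ch : C jh (D - z) (-r))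
    (Ce : C je (u) (1))
    (Cf : C jf (D - u) (-1))
    (nke : jk ≠ je)
    (nkf : jk ≠ jf)
    (nhe : jh ≠ je)
    (g0 : 1 ≤ a - 1)
    (g1 : 1 ≤ -a + b)
    (g2 : 1 ≤ -2 * b + p)
    (g3 : 1 ≤ -r - 1)
    (g4 : 0 < D)
    (g5 : 0 < (p:ℝ) - 2 * D)
    (g6 : 0 < (b:ℝ) - z)
    (g7 : 0 < (b:ℝ) + z)
    (g8 : 0 < (a:ℝ) - z - (r:ℝ))
    (g9 : 0 < (a:ℝ) + z + (r:ℝ))
    (g10 : 0 < (b:ℝ) + u)
    (g11 : 0 < -(b:ℝ) + (p:ℝ) - u)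
    (g12 : 0 < (b:ℝ) - (p:ℝ) + D - z)
    (g13 : 0 < (a:ℝ) - (p:ℝ) + D - z - (r:ℝ))
    : False :=
  both111m a b p r D z u g0 g1 g2 g3 g4 g5 g6 g7 g8 g9 g10 g11 g12 g13 
    (fun n hn => h.tie2 Ck Cf nkf (-n + (0)) (by push_cast; linarith))
    (fun n hn => h.tie Ce (n + (0)) (by push_cast; linarith))
    (fun n hn => h.tie2 Ck Ce nke (n + (0)) (by push_cast; linarith))
    (fun n hn => h.tie Cf (n + (0)) (by push_cast; linarith))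
    (by have := h.fr Ck Ce nke; push_cast at this; exact this)
    (by have := h.fr Ck Cf nkf; push_cast at this; exact this)
    (by have := h.fr Ce Ck nke.symm; push_cast at this; exact this)
    (by have := h.fr Ce Ch nhe.symm; push_cast at this; exact this)
    

theorem both211m_w {p a b : ℤ} {D : ℝ} {C : ℤ → ℝ → ℤ → Prop} (h : Cfg p a b D C)
    {r jk jh je jf : ℤ} {z u : ℝ}
    (Ck : C jk (z) (r))
    (Ch : C jh (D - z) (-r))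
    (Ce : C je (u) (2))
    (Cf : C jf (D - u) (-2))
    (nke : jk ≠ je)
    (nkf : jk ≠ jf)
    (nhe : jh ≠ je)
    (g0 : 1 ≤ a - 1)
    (g1 : 1 ≤ -a + b)
    (g2 : 1 ≤ -2 * b + p)
    (g3 : 1 ≤ r + 2)
    (g4 : 1 ≤ -r)
    (g5 : 0 < D)
    (g6 : 0 < (p:ℝ) - 2 * D)
    (g7 : 0 < (b:ℝ) - z)
    (g8 : 0 < (b:ℝ) + z)
    (g9 : 0 < (a:ℝ) - z - (r:ℝ))
    (g10 : 0 < (a:ℝ) + z + (r:ℝ))
    (g11 : 0 < (b:ℝ) + u)
    (g12 : 0 < -(b:ℝ) + (p:ℝ) - u)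
    (g13 : 0 < (b:ℝ) - (p:ℝ) + D - z)
    (g14 : 0 < (a:ℝ) - (p:ℝ) + D - z - (r:ℝ))
    : False :=
  both211m a b p r D z u g0 g1 g2 g3 g4 g5 g6 g7 g8 g9 g10 g11 g12 g13 g14 
    (fun n hn => h.tie2 Ck Cf nkf (-n + (0)) (by push_cast; linarith))
    (fun n hn => h.tie Ce (n + (0)) (by push_cast; linarith))
    (fun n hn => h.tie Cf (n + (0)) (by push_cast; linarith))
    (fun n hn => h.tie2 Ck Ce nke (n + (0)) (by push_cast; linarith))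
    (by have := h.fr Ck Ce nke; push_cast at this; exact this)
    (by have := h.fr Ck Cf nkf; push_cast at this; exact this)
    (by have := h.fr Ce Ck nke.symm; push_cast at this; exact this)
    (by have := h.fr Ce Ch nhe.symm; push_cast at this; exact this)
    

theorem both211p_w {p a b : ℤ} {D : ℝ} {C : ℤ → ℝ → ℤ → Prop} (h : Cfg p a b D C)
    {r jk je jf : ℤ} {z u : ℝ}
    (Ck : C jk (z) (r))
    (Ce : C je (u) (2))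
    (Cf : C jf (D - u) (-2))
    (nke : jk ≠ je)
    (g0 : 1 ≤ a - 1)
    (g1 : 1 ≤ -a + b)
    (g2 : 1 ≤ -2 * b + p)
    (g3 : 1 ≤ r)
    (g4 : 1 ≤ -r + 2)
    (g5 : 0 < D)
    (g6 : 0 < (p:ℝ) - 2 * D)
    (g7 : 0 < (b:ℝ) - z)
    (g8 : 0 < (b:ℝ) + z)
    (g9 : 0 < (a:ℝ) - z - (r:ℝ))
    (g10 : 0 < (a:ℝ) + z + (r:ℝ))
    (g11 : 0 < (b:ℝ) + u)
    (g12 : 0 < -(b:ℝ) + (p:ℝ) - u)
    (g13 : 0 < (b:ℝ) - (p:ℝ) + D - z)
    (g14 : 0 < (a:ℝ) - (p:ℝ) + D - z - (r:ℝ))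
    : False :=
  both211p a b p r D z u g0 g1 g2 g3 g4 g5 g6 g7 g8 g9 g10 g11 g12 g13 g14 
    (fun n hn => h.tie2 Ck Ce nke (n + (0)) (by push_cast; linarith))
    (fun n hn => h.tie Ce (n + (0)) (by push_cast; linarith))
    (fun n hn => h.tie Cf (n + (0)) (by push_cast; linarith))
    (by have := h.fr Ck Ce nke; push_cast at this; exact this)
    (by have := h.fr Ce Ck nke.symm; push_cast at this; exact this)
    

theorem co1_w {p a b : ℤ} {D : ℝ} {C : ℤ → ℝ → ℤ → Prop} (h : Cfg p a b D C)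
    {r jk jh : ℤ} {z u : ℝ}
    (Ck : C jk (z) (r))
    (Ch : C jh (D - z) (-r))
    (nkh : jk ≠ jh)
    (g0 : 1 ≤ a - 1)
    (g1 : 1 ≤ -a + b)
    (g2 : 1 ≤ -2 * b + p)
    (g3 : 0 < D)
    (g4 : 0 < (p:ℝ) - 2 * D)
    (g5 : 0 < (b:ℝ) - z)
    (g6 : 0 < (b:ℝ) + z)
    (g7 : 0 < (a:ℝ) - z - (r:ℝ))
    (g8 : 0 < (a:ℝ) + z + (r:ℝ))
    (g9 : 1 ≤ a - b + r + 1)
    (g10 : 1 ≤ -a + b - r + 1)
    (g11 : 0 < -(a:ℝ) + D - z - (r:ℝ))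
    (g12 : 0 < z)
    (g13 : 0 < z + (r:ℝ))
    (g14 : 0 < (b:ℝ) + u)
    (g15 : 0 < -(b:ℝ) + (p:ℝ) - u)
    : False :=
  co1 a b p r D z u g0 g1 g2 g3 g4 g5 g6 g7 g8 g9 g10 g11 g12 g13 g14 g15 
    (fun n hn => h.tie2 Ck Ch nkh (-n + (0)) (by push_cast; linarith))
    (by have := h.fr Ck Ch nkh; push_cast at this; exact this)
    

theorem dkBA_w {p a b : ℤ} {D : ℝ} {C : ℤ → ℝ → ℤ → Prop} (h : Cfg p a b D C)
    {r jk jm : ℤ} {z : ℝ}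
    (Ck : C jk (z) (r))
    (Cm : C jm (2 * z) (2 * r))
    (nkm : jk ≠ jm)
    (g0 : 1 ≤ a - 2)
    (g1 : 1 ≤ -a + b)
    (g2 : 1 ≤ -2 * b + p)
    (g3 : 1 ≤ r)
    (g4 : 1 ≤ -r + 2)
    (g5 : 0 < D)
    (g6 : 0 < (p:ℝ) - 2 * D)
    (g7 : 0 < (b:ℝ) - z)
    (g8 : 0 < (b:ℝ) + z)
    (g9 : 0 < (a:ℝ) - z - (r:ℝ))
    (g10 : 0 < (a:ℝ) + z + (r:ℝ))
    (g11 : 1 ≤ -a + b - r)
    (g12 : 0 < -(a:ℝ) + D - z - (r:ℝ))
    (g13 : 0 < z + (r:ℝ))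
    (g14 : 0 < z)
    : False :=
  dkBA a b p r D z g0 g1 g2 g3 g4 g5 g6 g7 g8 g9 g10 g11 g12 g13 g14 
    (fun n hn => h.tie Ck (n + (0)) (by push_cast; linarith))
    (by have := h.fr Cm Ck nkm.symm; push_cast at this; exact this)
    

theorem dkBB_w {p a b : ℤ} {D : ℝ} {C : ℤ → ℝ → ℤ → Prop} (h : Cfg p a b D C)
    {r jk jm : ℤ} {z : ℝ}
    (Ck : C jk (z) (r))
    (Cm : C jm (-D + 2 * z) (2 * r))
    (nkm : jk ≠ jm)
    (g0 : 1 ≤ a - 2)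
    (g1 : 1 ≤ -a + b)
    (g2 : 1 ≤ -2 * b + p)
    (g3 : 1 ≤ r)
    (g4 : 1 ≤ -r + 2)
    (g5 : 0 < D)
    (g6 : 0 < (p:ℝ) - 2 * D)
    (g7 : 0 < (b:ℝ) - z)
    (g8 : 0 < (b:ℝ) + z)
    (g9 : 0 < (a:ℝ) - z - (r:ℝ))
    (g10 : 0 < (a:ℝ) + z + (r:ℝ))
    (g11 : 1 ≤ -a + b - r)
    (g12 : 0 < -(a:ℝ) + D - z - (r:ℝ))
    (g13 : 0 < z + (r:ℝ))
    (g14 : 0 < z)
    : False :=
  dkBB a b p r D z g0 g1 g2 g3 g4 g5 g6 g7 g8 g9 g10 g11 g12 g13 g14 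
    (fun n hn => h.tie2 Ck Cm nkm (n + (0)) (by push_cast; linarith))
    (by have := h.fr Ck Cm nkm; push_cast at this; exact this)
    (by have := h.fr Cm Ck nkm.symm; push_cast at this; exact this)
    

theorem dr2T0_w {p a b : ℤ} {D : ℝ} {C : ℤ → ℝ → ℤ → Prop} (h : Cfg p a b D C)
    {r jk jh je jf : ℤ} {z u v : ℝ}
    (Ck : C jk (z) (r))
    (Ch : C jh (D - z) (-r))
    (Ce : C je (u) (2))
    (Cf : C jf (D - u) (-2))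
    (nkh : jk ≠ jh)
    (nke : jk ≠ je)
    (nkf : jk ≠ jf)
    (g0 : 1 ≤ a - 1)
    (g1 : 1 ≤ -a + b)
    (g2 : 1 ≤ -2 * b + p)
    (g3 : 1 ≤ r + 2)
    (g4 : 1 ≤ -r)
    (g5 : 0 < D)
    (g6 : 0 < (p:ℝ) - 2 * D)
    (g7 : 0 < (b:ℝ) - z)
    (g8 : 0 < (b:ℝ) + z)
    (g9 : 0 < (a:ℝ) - z - (r:ℝ))
    (g10 : 0 < (a:ℝ) + z + (r:ℝ))
    (g11 : 1 ≤ -a + b - r)
    (g12 : 0 < -(a:ℝ) + D - z - (r:ℝ))
    (g13 : 0 < -z - (r:ℝ))
    (g14 : 0 < -z)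
    (g15 : 0 < (b:ℝ) + u)
    (g16 : 0 < -(b:ℝ) + (p:ℝ) - u)
    : False :=
  dr2T0 a b p r D z u v g0 g1 g2 g3 g4 g5 g6 g7 g8 g9 g10 g11 g12 g13 g14 g15 g16 
    (fun n hn => h.tie2 Ck Ch nkh (-n + (0)) (by push_cast; linarith))
    (fun n hn => h.tie Ch (n + (0)) (by push_cast; linarith))
    (fun n hn => h.tie2 Ck Ce nke (n + (0)) (by push_cast; linarith))
    (fun n hn => h.tie2 Ck Cf nkf (-n + (0)) (by push_cast; linarith))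
    (fun n hn => h.tie Ce (n + (0)) (by push_cast; linarith))
    (fun n hn => h.tie Cf (n + (0)) (by push_cast; linarith))
    (by have := h.fr Ck Ch nkh; push_cast at this; exact this)
    (by have := h.fr Ck Ce nke; push_cast at this; exact this)
    (by have := h.fr Ck Cf nkf; push_cast at this; exact this)
    (by have := h.fr Ce Ck nke.symm; push_cast at this; exact this)
    (by have := h.fr Cf Ck nkf.symm; push_cast at this; exact this)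
    

theorem dr2T1_w {p a b : ℤ} {D : ℝ} {C : ℤ → ℝ → ℤ → Prop} (h : Cfg p a b D C)
    {r jk jh : ℤ} {z u v : ℝ}
    (Ck : C jk (z) (r))
    (Ch : C jh (D - z) (-r))
    (nkh : jk ≠ jh)
    (g0 : 1 ≤ a - 1)
    (g1 : 1 ≤ -a + b)
    (g2 : 1 ≤ -2 * b + p)
    (g3 : 1 ≤ r + 2)
    (g4 : 1 ≤ -r)
    (g5 : 0 < D)
    (g6 : 0 < (p:ℝ) - 2 * D)
    (g7 : 0 < (b:ℝ) - z)
    (g8 : 0 < (b:ℝ) + z)
    (g9 : 0 < (a:ℝ) - z - (r:ℝ))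
    (g10 : 0 < (a:ℝ) + z + (r:ℝ))
    (g11 : 1 ≤ -a + b - r)
    (g12 : 0 < -(a:ℝ) + D - z - (r:ℝ))
    (g13 : 0 < -z - (r:ℝ))
    (g14 : 0 < z)
    (g15 : 1 ≤ a + r + 1)
    (g16 : 0 < z)
    (g17 : 0 < (b:ℝ) + u)
    (g18 : 0 < -(b:ℝ) + (p:ℝ) - u)
    : False :=
  dr2T1 a b p r D z u v g0 g1 g2 g3 g4 g5 g6 g7 g8 g9 g10 g11 g12 g13 g14 g15 g16 g17 g18 
    (fun n hn => h.tie2 Ck Ch nkh (-n + (0)) (by push_cast; linarith))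
    (by have := h.fr Ck Ch nkh; push_cast at this; exact this)
    

theorem drB0_w {p a b : ℤ} {D : ℝ} {C : ℤ → ℝ → ℤ → Prop} (h : Cfg p a b D C)
    {r jk je jf : ℤ} {z u : ℝ}
    (Ck : C jk (z) (r))
    (Ce : C je (u) (1))
    (Cf : C jf (D - u) (-1))
    (nke : jk ≠ je)
    (nkf : jk ≠ jf)
    (g0 : 1 ≤ a - 1)
    (g1 : 1 ≤ -a + b)
    (g2 : 1 ≤ -2 * b + p)
    (g3 : 1 ≤ r - 1)
    (g4 : 0 < D)
    (g5 : 0 < (p:ℝ) - 2 * D)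
    (g6 : 0 < (b:ℝ) - z)
    (g7 : 0 < (b:ℝ) + z)
    (g8 : 0 < (a:ℝ) - z - (r:ℝ))
    (g9 : 0 < (a:ℝ) + z + (r:ℝ))
    (g10 : 1 ≤ -a + b - r)
    (g11 : 0 < -(a:ℝ) + D - z - (r:ℝ))
    (g12 : 0 < z + (r:ℝ))
    (g13 : 0 < z)
    (g14 : 0 < (b:ℝ) + u)
    (g15 : 0 < -(b:ℝ) + (p:ℝ) - u)
    : False :=
  drB0 a b p r D z u g0 g1 g2 g3 g4 g5 g6 g7 g8 g9 g10 g11 g12 g13 g14 g15 
    (fun n hn => h.tie2 Ck Ce nke (n + (0)) (by push_cast; linarith))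
    (fun n hn => h.tie2 Ck Cf nkf (-n + (0)) (by push_cast; linarith))
    (fun n hn => h.tie Cf (n + (0)) (by push_cast; linarith))
    (fun n hn => h.tie Ce (n + (0)) (by push_cast; linarith))
    (by have := h.fr Ck Ce nke; push_cast at this; exact this)
    (by have := h.fr Ck Cf nkf; push_cast at this; exact this)
    (by have := h.fr Ce Ck nke.symm; push_cast at this; exact this)
    (by have := h.fr Cf Ck nkf.symm; push_cast at this; exact this)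
    

theorem drB2_w {p a b : ℤ} {D : ℝ} {C : ℤ → ℝ → ℤ → Prop} (h : Cfg p a b D C)
    {r jk je jf : ℤ} {z u : ℝ}
    (Ck : C jk (z) (r))
    (Ce : C je (u) (1))
    (Cf : C jf (D - u) (-1))
    (nke : jk ≠ je)
    (nkf : jk ≠ jf)
    (g0 : 1 ≤ a - 1)
    (g1 : 1 ≤ -a + b)
    (g2 : 1 ≤ -2 * b + p)
    (g3 : 0 < D)
    (g4 : 0 < (p:ℝ) - 2 * D)
    (g5 : 0 < (b:ℝ) - z)
    (g6 : 0 < (b:ℝ) + z)
    (g7 : 0 < (a:ℝ) - z - (r:ℝ))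
    (g8 : 0 < (a:ℝ) + z + (r:ℝ))
    (g9 : 1 ≤ -a + b - r)
    (g10 : 0 < -(a:ℝ) + D - z - (r:ℝ))
    (g11 : 0 < z + (r:ℝ))
    (g12 : 0 < z)
    (g13 : 1 ≤ a - b - r)
    (g14 : 1 ≤ a - b - r + 1)
    (g15 : 0 < -(b:ℝ) + D - z)
    (g16 : 0 < (b:ℝ) + u)
    (g17 : 0 < -(b:ℝ) + (p:ℝ) - u)
    : False :=
  drB2 a b p r D z u g0 g1 g2 g3 g4 g5 g6 g7 g8 g9 g10 g11 g12 g13 g14 g15 g16 g17 
    (fun n hn => h.tie Cf (n + (0)) (by push_cast; linarith))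
    (fun n hn => h.tie2 Ck Ce nke (n + (0)) (by push_cast; linarith))
    (fun n hn => h.tie Ce (n + (0)) (by push_cast; linarith))
    (fun n hn => h.tie2 Ck Cf nkf (-n + (0)) (by push_cast; linarith))
    (by have := h.fr Ck Ce nke; push_cast at this; exact this)
    (by have := h.fr Ck Cf nkf; push_cast at this; exact this)
    (by have := h.fr Ce Ck nke.symm; push_cast at this; exact this)
    (by have := h.fr Cf Ck nkf.symm; push_cast at this; exact this)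
    

theorem drB3_w {p a b : ℤ} {D : ℝ} {C : ℤ → ℝ → ℤ → Prop} (h : Cfg p a b D C)
    {r jk je jf : ℤ} {z u : ℝ}
    (Ck : C jk (z) (r))
    (Ce : C je (u) (1))
    (Cf : C jf (D - u) (-1))
    (nke : jk ≠ je)
    (nkf : jk ≠ jf)
    (g0 : 1 ≤ a - 1)
    (g1 : 1 ≤ -a + b)
    (g2 : 1 ≤ -2 * b + p)
    (g3 : 0 < D)
    (g4 : 0 < (p:ℝ) - 2 * D)
    (g5 : 0 < (b:ℝ) - z)
    (g6 : 0 < (b:ℝ) + z)
    (g7 : 0 < (a:ℝ) - z - (r:ℝ))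
    (g8 : 0 < (a:ℝ) + z + (r:ℝ))
    (g9 : 1 ≤ -a + b - r)
    (g10 : 0 < -(a:ℝ) + D - z - (r:ℝ))
    (g11 : 0 < z + (r:ℝ))
    (g12 : 0 < z)
    (g13 : 1 ≤ a - b - r)
    (g14 : 1 ≤ a - b - r + 1)
    (g15 : 1 ≤ 2 * a - b + 1)
    (g16 : 0 < (b:ℝ) + u)
    (g17 : 0 < -(b:ℝ) + (p:ℝ) - u)
    : False :=
  drB3 a b p r D z u g0 g1 g2 g3 g4 g5 g6 g7 g8 g9 g10 g11 g12 g13 g14 g15 g16 g17 
    (fun n hn => h.tie2 Ck Ce nke (n + (0)) (by push_cast; linarith))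
    (fun n hn => h.tie Ce (n + (0)) (by push_cast; linarith))
    (fun n hn => h.tie Cf (n + (0)) (by push_cast; linarith))
    (fun n hn => h.tie2 Ck Cf nkf (-n + (0)) (by push_cast; linarith))
    (by have := h.fr Ck Ce nke; push_cast at this; exact this)
    (by have := h.fr Ce Ck nke.symm; push_cast at this; exact this)
    (by have := h.fr Cf Ck nkf.symm; push_cast at this; exact this)
    

theorem drT0_w {p a b : ℤ} {D : ℝ} {C : ℤ → ℝ → ℤ → Prop} (h : Cfg p a b D C)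
    {r jk jh je jf : ℤ} {z u : ℝ}
    (Ck : C jk (z) (r))
    (Ch : C jh (D - z) (-r))
    (Ce : C je (u) (1))
    (Cf : C jf (D - u) (-1))
    (nke : jk ≠ je)
    (nkf : jk ≠ jf)
    (g0 : 1 ≤ a - 1)
    (g1 : 1 ≤ -a + b)
    (g2 : 1 ≤ -2 * b + p)
    (g3 : 1 ≤ -r - 1)
    (g4 : 0 < D)
    (g5 : 0 < (p:ℝ) - 2 * D)
    (g6 : 0 < (b:ℝ) - z)
    (g7 : 0 < (b:ℝ) + z)
    (g8 : 0 < (a:ℝ) - z - (r:ℝ))
    (g9 : 0 < (a:ℝ) + z + (r:ℝ))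
    (g10 : 1 ≤ -a + b - r)
    (g11 : 0 < -(a:ℝ) + D - z - (r:ℝ))
    (g12 : 0 < -z - (r:ℝ))
    (g13 : 0 < -z)
    (g14 : 0 < (b:ℝ) + u)
    (g15 : 0 < -(b:ℝ) + (p:ℝ) - u)
    : False :=
  drT0 a b p r D z u g0 g1 g2 g3 g4 g5 g6 g7 g8 g9 g10 g11 g12 g13 g14 g15 
    (fun n hn => h.tie2 Ck Ce nke (n + (0)) (by push_cast; linarith))
    (fun n hn => h.tie2 Ck Cf nkf (-n + (0)) (by push_cast; linarith))
    (fun n hn => h.tie Ce (n + (0)) (by push_cast; linarith))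
    (fun n hn => h.tie Cf (n + (0)) (by push_cast; linarith))
    (fun n hn => h.tie Ch (n + (0)) (by push_cast; linarith))
    (by have := h.fr Ck Ce nke; push_cast at this; exact this)
    (by have := h.fr Ck Cf nkf; push_cast at this; exact this)
    (by have := h.fr Ce Ck nke.symm; push_cast at this; exact this)
    (by have := h.fr Cf Ck nkf.symm; push_cast at this; exact this)
    

theorem drT1_w {p a b : ℤ} {D : ℝ} {C : ℤ → ℝ → ℤ → Prop} (h : Cfg p a b D C)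
    {r jk je jf : ℤ} {z u : ℝ}
    (Ck : C jk (z) (r))
    (Ce : C je (u) (1))
    (Cf : C jf (D - u) (-1))
    (nke : jk ≠ je)
    (nkf : jk ≠ jf)
    (g0 : 1 ≤ a - 1)
    (g1 : 1 ≤ -a + b)
    (g2 : 1 ≤ -2 * b + p)
    (g3 : 1 ≤ -r - 1)
    (g4 : 0 < D)
    (g5 : 0 < (p:ℝ) - 2 * D)
    (g6 : 0 < (b:ℝ) - z)
    (g7 : 0 < (b:ℝ) + z)
    (g8 : 0 < (a:ℝ) - z - (r:ℝ))
    (g9 : 0 < (a:ℝ) + z + (r:ℝ))
    (g10 : 1 ≤ -a + b - r)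
    (g11 : 0 < -(a:ℝ) + D - z - (r:ℝ))
    (g12 : 0 < -z - (r:ℝ))
    (g13 : 0 < z)
    (g14 : 1 ≤ a + r)
    (g15 : 1 ≤ a + r + 1)
    (g16 : 0 < z)
    (g17 : 0 < (b:ℝ) + u)
    (g18 : 0 < -(b:ℝ) + (p:ℝ) - u)
    : False :=
  drT1 a b p r D z u g0 g1 g2 g3 g4 g5 g6 g7 g8 g9 g10 g11 g12 g13 g14 g15 g16 g17 g18 
    (fun n hn => h.tie Cf (n + (0)) (by push_cast; linarith))
    (fun n hn => h.tie2 Ck Ce nke (n + (0)) (by push_cast; linarith))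
    (fun n hn => h.tie Ce (n + (0)) (by push_cast; linarith))
    (fun n hn => h.tie2 Ck Cf nkf (-n + (0)) (by push_cast; linarith))
    (by have := h.fr Ck Ce nke; push_cast at this; exact this)
    (by have := h.fr Ck Cf nkf; push_cast at this; exact this)
    (by have := h.fr Ce Ck nke.symm; push_cast at this; exact this)
    (by have := h.fr Cf Ck nkf.symm; push_cast at this; exact this)
    

theorem drT2_w {p a b : ℤ} {D : ℝ} {C : ℤ → ℝ → ℤ → Prop} (h : Cfg p a b D C)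
    {r jk je jf : ℤ} {z u : ℝ}
    (Ck : C jk (z) (r))
    (Ce : C je (u) (1))
    (Cf : C jf (D - u) (-1))
    (nke : jk ≠ je)
    (nkf : jk ≠ jf)
    (g0 : 1 ≤ a - 1)
    (g1 : 1 ≤ -a + b)
    (g2 : 1 ≤ -2 * b + p)
    (g3 : 0 < D)
    (g4 : 0 < (p:ℝ) - 2 * D)
    (g5 : 0 < (b:ℝ) - z)
    (g6 : 0 < (b:ℝ) + z)
    (g7 : 0 < (a:ℝ) - z - (r:ℝ))
    (g8 : 0 < (a:ℝ) + z + (r:ℝ))
    (g9 : 1 ≤ -a + b - r)
    (g10 : 0 < -(a:ℝ) + D - z - (r:ℝ))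
    (g11 : 0 < -z - (r:ℝ))
    (g12 : 0 < z)
    (g13 : 1 ≤ -b - r + 1)
    (g14 : 0 < -(b:ℝ) + D - z)
    (g15 : 0 < (b:ℝ) + u)
    (g16 : 0 < -(b:ℝ) + (p:ℝ) - u)
    : False :=
  drT2 a b p r D z u g0 g1 g2 g3 g4 g5 g6 g7 g8 g9 g10 g11 g12 g13 g14 g15 g16 
    (fun n hn => h.tie Cf (n + (0)) (by push_cast; linarith))
    (fun n hn => h.tie2 Ck Cf nkf (-n + (0)) (by push_cast; linarith))
    (fun n hn => h.tie Ce (n + (0)) (by push_cast; linarith))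
    (fun n hn => h.tie2 Ck Ce nke (n + (0)) (by push_cast; linarith))
    (by have := h.fr Ck Ce nke; push_cast at this; exact this)
    (by have := h.fr Ck Cf nkf; push_cast at this; exact this)
    (by have := h.fr Ce Ck nke.symm; push_cast at this; exact this)
    (by have := h.fr Cf Ck nkf.symm; push_cast at this; exact this)
    

theorem drT3_w {p a b : ℤ} {D : ℝ} {C : ℤ → ℝ → ℤ → Prop} (h : Cfg p a b D C)
    {r jk jh je jf : ℤ} {z u : ℝ}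
    (Ck : C jk (z) (r))
    (Ch : C jh (D - z) (-r))
    (Ce : C je (u) (1))
    (Cf : C jf (D - u) (-1))
    (nke : jk ≠ je)
    (nkf : jk ≠ jf)
    (g0 : 1 ≤ a - 1)
    (g1 : 1 ≤ -a + b)
    (g2 : 1 ≤ -2 * b + p)
    (g3 : 0 < D)
    (g4 : 0 < (p:ℝ) - 2 * D)
    (g5 : 0 < (b:ℝ) - z)
    (g6 : 0 < (b:ℝ) + z)
    (g7 : 0 < (a:ℝ) - z - (r:ℝ))
    (g8 : 0 < (a:ℝ) + z + (r:ℝ))
    (g9 : 1 ≤ -a + b - r)
    (g10 : 0 < -(a:ℝ) + D - z - (r:ℝ))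
    (g11 : 0 < -z - (r:ℝ))
    (g12 : 0 < z)
    (g13 : 1 ≤ -b - r + 1)
    (g14 : 1 ≤ 2 * a - b + 1)
    (g15 : 0 < (b:ℝ) + u)
    (g16 : 0 < -(b:ℝ) + (p:ℝ) - u)
    : False :=
  drT3 a b p r D z u g0 g1 g2 g3 g4 g5 g6 g7 g8 g9 g10 g11 g12 g13 g14 g15 g16 
    (fun n hn => h.tie2 Ck Ce nke (n + (0)) (by push_cast; linarith))
    (fun n hn => h.tie Ce (n + (0)) (by push_cast; linarith))
    (fun n hn => h.tie Ch (n + (0)) (by push_cast; linarith))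
    (fun n hn => h.tie Cf (n + (0)) (by push_cast; linarith))
    (fun n hn => h.tie2 Ck Cf nkf (-n + (0)) (by push_cast; linarith))
    (by have := h.fr Ck Ce nke; push_cast at this; exact this)
    (by have := h.fr Ck Cf nkf; push_cast at this; exact this)
    (by have := h.fr Ce Ck nke.symm; push_cast at this; exact this)
    (by have := h.fr Cf Ck nkf.symm; push_cast at this; exact this)
    

theorem dsTA_w {p a b : ℤ} {D : ℝ} {C : ℤ → ℝ → ℤ → Prop} (h : Cfg p a b D C)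
    {r jk jh je jf jm jn : ℤ} {z v : ℝ}
    (Ck : C jk (z) (r))
    (Ch : C jh (D - z) (-r))
    (Ce : C je (v) (1))
    (Cf : C jf (D - v) (-1))
    (Cm : C jm (2 * v) (2))
    (Cn : C jn (D - 2 * v) (-2))
    (nke : jk ≠ je)
    (nkf : jk ≠ jf)
    (nkm : jk ≠ jm)
    (nkn : jk ≠ jn)
    (nhe : jh ≠ je)
    (nhm : jh ≠ jm)
    (nem : je ≠ jm)
    (g0 : 1 ≤ a - 2)
    (g1 : 1 ≤ -a + b)
    (g2 : 1 ≤ -2 * b + p)
    (g3 : 0 < D)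
    (g4 : 0 < (p:ℝ) - 2 * D)
    (g5 : 0 < (b:ℝ) - z)
    (g6 : 0 < (b:ℝ) + z)
    (g7 : 0 < (a:ℝ) - z - (r:ℝ))
    (g8 : 0 < (a:ℝ) + z + (r:ℝ))
    (g9 : 1 ≤ -a + b - r)
    (g10 : 0 < -(a:ℝ) + D - z - (r:ℝ))
    (g11 : 0 < -z - (r:ℝ))
    (g12 : 0 < z)
    (g13 : 1 ≤ a + r + 1)
    (g14 : 1 ≤ -a - r + 1)
    (g15 : 1 ≤ a + r + 1)
    (g16 : 0 < z)
    (g17 : 0 < (b:ℝ) + v)
    (g18 : 0 < -(b:ℝ) + (p:ℝ) - v)
    : False :=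
  dsTA a b p r D z v g0 g1 g2 g3 g4 g5 g6 g7 g8 g9 g10 g11 g12 g13 g14 g15 g16 g17 g18 
    (fun n hn => h.tie2 Ck Cm nkm (n + (0)) (by push_cast; linarith))
    (fun n hn => h.tie Cf (n + (0)) (by push_cast; linarith))
    (fun n hn => h.tie2 Ck Cf nkf (-n + (0)) (by push_cast; linarith))
    (fun n hn => h.tie Cn (n + (0)) (by push_cast; linarith))
    (fun n hn => h.tie Ce (n + (0)) (by push_cast; linarith))
    (fun n hn => h.tie2 Ck Cn nkn (-n + (0)) (by push_cast; linarith))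
    (fun n hn => h.tie2 Ck Ce nke (n + (0)) (by push_cast; linarith))
    (fun n hn => h.tie Ch (n + (0)) (by push_cast; linarith))
    (by have := h.fr Ck Ce nke; push_cast at this; exact this)
    (by have := h.fr Ck Cf nkf; push_cast at this; exact this)
    (by have := h.fr Ck Cn nkn; push_cast at this; exact this)
    (by have := h.fr Ce Ck nke.symm; push_cast at this; exact this)
    (by have := h.fr Ce Ch nhe.symm; push_cast at this; exact this)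
    (by have := h.fr Ce Cm nem; push_cast at this; exact this)
    (by have := h.fr Cm Ck nkm.symm; push_cast at this; exact this)
    (by have := h.fr Cm Ch nhm.symm; push_cast at this; exact this)
    (by have := h.fr Cm Ce nem.symm; push_cast at this; exact this)
    

theorem dsTB_w {p a b : ℤ} {D : ℝ} {C : ℤ → ℝ → ℤ → Prop} (h : Cfg p a b D C)
    {r jk jh je jf jm jn : ℤ} {z v : ℝ}
    (Ck : C jk (z) (r))
    (Ch : C jh (D - z) (-r))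
    (Ce : C je (v) (1))
    (Cf : C jf (D - v) (-1))
    (Cm : C jm (-D + 2 * v) (2))
    (Cn : C jn (2 * D - 2 * v) (-2))
    (nkh : jk ≠ jh)
    (nke : jk ≠ je)
    (nkf : jk ≠ jf)
    (nkm : jk ≠ jm)
    (nkn : jk ≠ jn)
    (nhe : jh ≠ je)
    (nhm : jh ≠ jm)
    (nef : je ≠ jf)
    (nem : je ≠ jm)
    (nen : je ≠ jn)
    (nmn : jm ≠ jn)
    (g0 : 1 ≤ a - 2)
    (g1 : 1 ≤ -a + b)
    (g2 : 1 ≤ -2 * b + p)
    (g3 : 0 < D)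
    (g4 : 0 < (p:ℝ) - 2 * D)
    (g5 : 0 < (b:ℝ) - z)
    (g6 : 0 < (b:ℝ) + z)
    (g7 : 0 < (a:ℝ) - z - (r:ℝ))
    (g8 : 0 < (a:ℝ) + z + (r:ℝ))
    (g9 : 1 ≤ -a + b - r)
    (g10 : 0 < -(a:ℝ) + D - z - (r:ℝ))
    (g11 : 0 < -z - (r:ℝ))
    (g12 : 0 < z)
    (g13 : 1 ≤ a + r + 1)
    (g14 : 1 ≤ -a - r + 1)
    (g15 : 1 ≤ a + r + 1)
    (g16 : 0 < z)
    (g17 : 0 < (b:ℝ) + v)
    (g18 : 0 < -(b:ℝ) + (p:ℝ) - v)
    : False :=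
  dsTB a b p r D z v g0 g1 g2 g3 g4 g5 g6 g7 g8 g9 g10 g11 g12 g13 g14 g15 g16 g17 g18 
    (fun n hn => h.tie2 Ck Cm nkm (n + (0)) (by push_cast; linarith))
    (fun n hn => h.tie2 Ck Ch nkh (-n + (0)) (by push_cast; linarith))
    (fun n hn => h.tie2 Ck Ce nke (n + (0)) (by push_cast; linarith))
    (fun n hn => h.tie2 Ck Cf nkf (-n + (0)) (by push_cast; linarith))
    (fun n hn => h.tie Ce (n + (0)) (by push_cast; linarith))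
    (fun n hn => h.tie Cm (-n + (0)) (by push_cast; linarith))
    (fun n hn => h.tie Cf (n + (0)) (by push_cast; linarith))
    (fun n hn => h.tie2 Ck Cn nkn (-n + (0)) (by push_cast; linarith))
    (fun n hn => h.tie2 Ce Cn nen (-n + (0)) (by push_cast; linarith))
    (fun n hn => h.tie2 Cm Cn nmn (-n + (0)) (by push_cast; linarith))
    (by have := h.fr Ck Ch nkh; push_cast at this; exact this)
    (by have := h.fr Ck Ce nke; push_cast at this; exact this)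
    (by have := h.fr Ck Cf nkf; push_cast at this; exact this)
    (by have := h.fr Ck Cm nkm; push_cast at this; exact this)
    (by have := h.fr Ck Cn nkn; push_cast at this; exact this)
    (by have := h.fr Ce Ck nke.symm; push_cast at this; exact this)
    (by have := h.fr Ce Ch nhe.symm; push_cast at this; exact this)
    (by have := h.fr Ce Cf nef; push_cast at this; exact this)
    (by have := h.fr Ce Cm nem; push_cast at this; exact this)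
    (by have := h.fr Cm Ck nkm.symm; push_cast at this; exact this)
    (by have := h.fr Cm Ch nhm.symm; push_cast at this; exact this)
    (by have := h.fr Cm Ce nem.symm; push_cast at this; exact this)
    

theorem qrow1eq_w {p a b : ℤ} {D : ℝ} {C : ℤ → ℝ → ℤ → Prop} (h : Cfg p a b D C)
    {r jk jh je jf : ℤ} {z u : ℝ}
    (Ck : C jk (z) (r))
    (Ch : C jh (D - z) (-r))
    (Ce : C je (u) (1))
    (Cf : C jf (D - u) (-1))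
    (nke : jk ≠ je)
    (nkf : jk ≠ jf)
    (g0 : 1 ≤ a - 1)
    (g1 : 1 ≤ a - b + 1)
    (g2 : 1 ≤ -a + b + 1)
    (g3 : 1 ≤ -2 * b + p)
    (g4 : 1 ≤ -2 * b + p - 1)
    (g5 : 1 ≤ -r - 1)
    (g6 : 0 < D)
    (g7 : 0 < (p:ℝ) - 2 * D)
    (g8 : 0 < (b:ℝ) - z)
    (g9 : 0 < (b:ℝ) + z)
    (g10 : 0 < (a:ℝ) - z - (r:ℝ))
    (g11 : 0 < (a:ℝ) + z + (r:ℝ))
    (g12 : 1 ≤ -a + b - r)
    (g13 : 0 < -(a:ℝ) + D - z - (r:ℝ))
    (g14 : 0 < (b:ℝ) + u)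
    (g15 : 0 < -(b:ℝ) + (p:ℝ) - u)
    : False :=
  qrow1eq a b p r D z u g0 g1 g2 g3 g4 g5 g6 g7 g8 g9 g10 g11 g12 g13 g14 g15 
    (fun n hn => h.tie Cf (n + (0)) (by push_cast; linarith))
    (fun n hn => h.tie2 Ck Ce nke (n + (0)) (by push_cast; linarith))
    (fun n hn => h.tie2 Ck Cf nkf (-n + (0)) (by push_cast; linarith))
    (fun n hn => h.tie Ce (n + (0)) (by push_cast; linarith))
    (fun n hn => h.tie Ch (n + (0)) (by push_cast; linarith))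
    (fun n hn => h.tie Ck (n + (0)) (by push_cast; linarith))
    (by have := h.fr Ck Ce nke; push_cast at this; exact this)
    (by have := h.fr Ck Cf nkf; push_cast at this; exact this)
    (by have := h.fr Ce Ck nke.symm; push_cast at this; exact this)
    (by have := h.fr Cf Ck nkf.symm; push_cast at this; exact this)
    

theorem qspecA1_w {p a b : ℤ} {D : ℝ} {C : ℤ → ℝ → ℤ → Prop} (h : Cfg p a b D C)
    {r jk jh jm jn : ℤ} {z : ℝ}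
    (Ck : C jk (z) (r))
    (Ch : C jh (D - z) (-r))
    (Cm : C jm (2 * z) (2 * r))
    (Cn : C jn (D - 2 * z) (-2 * r))
    (nkm : jk ≠ jm)
    (g0 : 1 ≤ a - 1)
    (g1 : 1 ≤ a - b + 1)
    (g2 : 1 ≤ -a + b + 1)
    (g3 : 1 ≤ -2 * b + p)
    (g4 : 1 ≤ r + 2)
    (g5 : 1 ≤ -r)
    (g6 : 0 < D)
    (g7 : 0 < (p:ℝ) - 2 * D)
    (g8 : 0 < (b:ℝ) - z)
    (g9 : 0 < (b:ℝ) + z)
    (g10 : 0 < (a:ℝ) - z - (r:ℝ))
    (g11 : 0 < (a:ℝ) + z + (r:ℝ))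
    (g12 : 1 ≤ -a + b - r)
    (g13 : 0 < -(a:ℝ) + D - z - (r:ℝ))
    : False :=
  qspecA1 a b p r D z g0 g1 g2 g3 g4 g5 g6 g7 g8 g9 g10 g11 g12 g13 
    (fun n hn => h.tie Cm (n + (0)) (by push_cast; linarith))
    (fun n hn => h.tie Ck (n + (0)) (by push_cast; linarith))
    (fun n hn => h.tie Ch (n + (0)) (by push_cast; linarith))
    (fun n hn => h.tie Cn (n + (0)) (by push_cast; linarith))
    (by have := h.fr Ck Cm nkm; push_cast at this; exact this)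
    (by have := h.fr Cm Ck nkm.symm; push_cast at this; exact this)
    

theorem qspecAp_w {p a b : ℤ} {D : ℝ} {C : ℤ → ℝ → ℤ → Prop} (h : Cfg p a b D C)
    {r jk jh jm : ℤ} {z : ℝ}
    (Ck : C jk (z) (r))
    (Ch : C jh (D - z) (-r))
    (Cm : C jm (2 * z) (2 * r))
    (nkh : jk ≠ jh)
    (nkm : jk ≠ jm)
    (g0 : 1 ≤ a - 1)
    (g1 : 1 ≤ a - b + 1)
    (g2 : 1 ≤ -a + b + 1)
    (g3 : 1 ≤ -2 * b + p)
    (g4 : 1 ≤ 2 * b - p + 2)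
    (g5 : 0 < D)
    (g6 : 0 < (p:ℝ) - 2 * D)
    (g7 : 0 < (b:ℝ) - z)
    (g8 : 0 < (b:ℝ) + z)
    (g9 : 0 < (a:ℝ) - z - (r:ℝ))
    (g10 : 0 < (a:ℝ) + z + (r:ℝ))
    (g11 : 1 ≤ -a + b - r)
    (g12 : 0 < -(a:ℝ) + D - z - (r:ℝ))
    : False :=
  qspecAp a b p r D z g0 g1 g2 g3 g4 g5 g6 g7 g8 g9 g10 g11 g12 
    (fun n hn => h.tie2 Ck Ch nkh (-n + (0)) (by push_cast; linarith))
    (fun n hn => h.tie Ck (n + (0)) (by push_cast; linarith))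
    (fun n hn => h.tie Cm (n + (0)) (by push_cast; linarith))
    (fun n hn => h.tie Ch (n + (0)) (by push_cast; linarith))
    (by have := h.fr Ck Ch nkh; push_cast at this; exact this)
    (by have := h.fr Ck Cm nkm; push_cast at this; exact this)
    (by have := h.fr Cm Ck nkm.symm; push_cast at this; exact this)
    

theorem qspecB1_w {p a b : ℤ} {D : ℝ} {C : ℤ → ℝ → ℤ → Prop} (h : Cfg p a b D C)
    {r jk jh jm jn : ℤ} {z : ℝ}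
    (Ck : C jk (z) (r))
    (Ch : C jh (D - z) (-r))
    (Cm : C jm (-D + 2 * z) (2 * r))
    (Cn : C jn (2 * D - 2 * z) (-2 * r))
    (nkh : jk ≠ jh)
    (nkm : jk ≠ jm)
    (g0 : 1 ≤ a - 1)
    (g1 : 1 ≤ a - b + 1)
    (g2 : 1 ≤ -a + b + 1)
    (g3 : 1 ≤ -2 * b + p)
    (g4 : 1 ≤ r + 2)
    (g5 : 1 ≤ -r)
    (g6 : 0 < D)
    (g7 : 0 < (p:ℝ) - 2 * D)
    (g8 : 0 < (b:ℝ) - z)
    (g9 : 0 < (b:ℝ) + z)
    (g10 : 0 < (a:ℝ) - z - (r:ℝ))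
    (g11 : 0 < (a:ℝ) + z + (r:ℝ))
    (g12 : 1 ≤ -a + b - r)
    (g13 : 0 < -(a:ℝ) + D - z - (r:ℝ))
    : False :=
  qspecB1 a b p r D z g0 g1 g2 g3 g4 g5 g6 g7 g8 g9 g10 g11 g12 g13 
    (fun n hn => h.tie Ch (n + (0)) (by push_cast; linarith))
    (fun n hn => h.tie Cn (n + (0)) (by push_cast; linarith))
    (fun n hn => h.tie Cm (-n + (0)) (by push_cast; linarith))
    (fun n hn => h.tie Ck (n + (0)) (by push_cast; linarith))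
    (by have := h.fr Ck Ch nkh; push_cast at this; exact this)
    (by have := h.fr Ck Cm nkm; push_cast at this; exact this)
    (by have := h.fr Cm Ck nkm.symm; push_cast at this; exact this)
    

theorem qspecBp_w {p a b : ℤ} {D : ℝ} {C : ℤ → ℝ → ℤ → Prop} (h : Cfg p a b D C)
    {r jk jh jm jn : ℤ} {z : ℝ}
    (Ck : C jk (z) (r))
    (Ch : C jh (D - z) (-r))
    (Cm : C jm (-D + 2 * z) (2 * r))
    (Cn : C jn (2 * D - 2 * z) (-2 * r))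
    (nkh : jk ≠ jh)
    (nkm : jk ≠ jm)
    (g0 : 1 ≤ a - 1)
    (g1 : 1 ≤ a - b + 1)
    (g2 : 1 ≤ -a + b + 1)
    (g3 : 1 ≤ -2 * b + p)
    (g4 : 1 ≤ 2 * b - p + 2)
    (g5 : 0 < D)
    (g6 : 0 < (p:ℝ) - 2 * D)
    (g7 : 0 < (b:ℝ) - z)
    (g8 : 0 < (b:ℝ) + z)
    (g9 : 0 < (a:ℝ) - z - (r:ℝ))
    (g10 : 0 < (a:ℝ) + z + (r:ℝ))
    (g11 : 1 ≤ -a + b - r)
    (g12 : 0 < -(a:ℝ) + D - z - (r:ℝ))
    : False :=
  qspecBp a b p r D z g0 g1 g2 g3 g4 g5 g6 g7 g8 g9 g10 g11 g12 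
    (fun n hn => h.tie Cm (-n + (0)) (by push_cast; linarith))
    (fun n hn => h.tie Ch (n + (0)) (by push_cast; linarith))
    (fun n hn => h.tie Cn (n + (0)) (by push_cast; linarith))
    (fun n hn => h.tie Ck (n + (0)) (by push_cast; linarith))
    (by have := h.fr Ck Ch nkh; push_cast at this; exact this)
    (by have := h.fr Ck Cm nkm; push_cast at this; exact this)
    (by have := h.fr Cm Ck nkm.symm; push_cast at this; exact this)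
    

theorem specA1_w {p a b : ℤ} {D : ℝ} {C : ℤ → ℝ → ℤ → Prop} (h : Cfg p a b D C)
    {r jk jh jm jn : ℤ} {z : ℝ}
    (Ck : C jk (z) (r))
    (Ch : C jh (D - z) (-r))
    (Cm : C jm (2 * z) (2 * r))
    (Cn : C jn (D - 2 * z) (-2 * r))
    (nkm : jk ≠ jm)
    (g0 : 1 ≤ a - 1)
    (g1 : 1 ≤ a - b + 1)
    (g2 : 1 ≤ -a + b + 1)
    (g3 : 1 ≤ -2 * b + p)
    (g4 : 1 ≤ r)
    (g5 : 1 ≤ -r + 2)
    (g6 : 0 < D)
    (g7 : 0 < (p:ℝ) - 2 * D)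
    (g8 : 0 < (b:ℝ) - z)
    (g9 : 0 < (b:ℝ) + z)
    (g10 : 0 < (a:ℝ) - z - (r:ℝ))
    (g11 : 0 < (a:ℝ) + z + (r:ℝ))
    (g12 : 1 ≤ a - b + r)
    (g13 : 0 < -(b:ℝ) + D - z)
    : False :=
  specA1 a b p r D z g0 g1 g2 g3 g4 g5 g6 g7 g8 g9 g10 g11 g12 g13 
    (fun n hn => h.tie Cm (n + (0)) (by push_cast; linarith))
    (fun n hn => h.tie Ck (n + (0)) (by push_cast; linarith))
    (fun n hn => h.tie Ch (n + (0)) (by push_cast; linarith))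
    (fun n hn => h.tie Cn (n + (0)) (by push_cast; linarith))
    (by have := h.fr Ck Cm nkm; push_cast at this; exact this)
    (by have := h.fr Cm Ck nkm.symm; push_cast at this; exact this)
    

theorem specAp_w {p a b : ℤ} {D : ℝ} {C : ℤ → ℝ → ℤ → Prop} (h : Cfg p a b D C)
    {r jk jh jm : ℤ} {z : ℝ}
    (Ck : C jk (z) (r))
    (Ch : C jh (D - z) (-r))
    (Cm : C jm (2 * z) (2 * r))
    (nkh : jk ≠ jh)
    (nkm : jk ≠ jm)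
    (g0 : 1 ≤ a - 1)
    (g1 : 1 ≤ a - b + 1)
    (g2 : 1 ≤ -a + b + 1)
    (g3 : 1 ≤ -2 * b + p)
    (g4 : 1 ≤ 2 * b - p + 2)
    (g5 : 0 < D)
    (g6 : 0 < (p:ℝ) - 2 * D)
    (g7 : 0 < (b:ℝ) - z)
    (g8 : 0 < (b:ℝ) + z)
    (g9 : 0 < (a:ℝ) - z - (r:ℝ))
    (g10 : 0 < (a:ℝ) + z + (r:ℝ))
    (g11 : 1 ≤ a - b + r)
    (g12 : 0 < -(b:ℝ) + D - z)
    : False :=
  specAp a b p r D z g0 g1 g2 g3 g4 g5 g6 g7 g8 g9 g10 g11 g12 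
    (fun n hn => h.tie2 Ck Ch nkh (-n + (0)) (by push_cast; linarith))
    (fun n hn => h.tie Ck (n + (0)) (by push_cast; linarith))
    (fun n hn => h.tie Cm (n + (0)) (by push_cast; linarith))
    (fun n hn => h.tie Ch (n + (0)) (by push_cast; linarith))
    (by have := h.fr Ck Ch nkh; push_cast at this; exact this)
    (by have := h.fr Ck Cm nkm; push_cast at this; exact this)
    (by have := h.fr Cm Ck nkm.symm; push_cast at this; exact this)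
    

theorem specB1_w {p a b : ℤ} {D : ℝ} {C : ℤ → ℝ → ℤ → Prop} (h : Cfg p a b D C)
    {r jk jh jm jn : ℤ} {z : ℝ}
    (Ck : C jk (z) (r))
    (Ch : C jh (D - z) (-r))
    (Cm : C jm (-D + 2 * z) (2 * r))
    (Cn : C jn (2 * D - 2 * z) (-2 * r))
    (nkh : jk ≠ jh)
    (nkm : jk ≠ jm)
    (g0 : 1 ≤ a - 1)
    (g1 : 1 ≤ a - b + 1)
    (g2 : 1 ≤ -a + b + 1)
    (g3 : 1 ≤ -2 * b + p)
    (g4 : 1 ≤ r)
    (g5 : 1 ≤ -r + 2)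
    (g6 : 0 < D)
    (g7 : 0 < (p:ℝ) - 2 * D)
    (g8 : 0 < (b:ℝ) - z)
    (g9 : 0 < (b:ℝ) + z)
    (g10 : 0 < (a:ℝ) - z - (r:ℝ))
    (g11 : 0 < (a:ℝ) + z + (r:ℝ))
    (g12 : 1 ≤ a - b + r)
    (g13 : 0 < -(b:ℝ) + D - z)
    : False :=
  specB1 a b p r D z g0 g1 g2 g3 g4 g5 g6 g7 g8 g9 g10 g11 g12 g13 
    (fun n hn => h.tie Ch (n + (0)) (by push_cast; linarith))
    (fun n hn => h.tie Cn (n + (0)) (by push_cast; linarith))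
    (fun n hn => h.tie Cm (-n + (0)) (by push_cast; linarith))
    (fun n hn => h.tie Ck (n + (0)) (by push_cast; linarith))
    (by have := h.fr Ck Ch nkh; push_cast at this; exact this)
    (by have := h.fr Ck Cm nkm; push_cast at this; exact this)
    (by have := h.fr Cm Ck nkm.symm; push_cast at this; exact this)
    

theorem specBp_w {p a b : ℤ} {D : ℝ} {C : ℤ → ℝ → ℤ → Prop} (h : Cfg p a b D C)
    {r jk jh jm jn : ℤ} {z : ℝ}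
    (Ck : C jk (z) (r))
    (Ch : C jh (D - z) (-r))
    (Cm : C jm (-D + 2 * z) (2 * r))
    (Cn : C jn (2 * D - 2 * z) (-2 * r))
    (nkh : jk ≠ jh)
    (nkm : jk ≠ jm)
    (g0 : 1 ≤ a - 1)
    (g1 : 1 ≤ a - b + 1)
    (g2 : 1 ≤ -a + b + 1)
    (g3 : 1 ≤ -2 * b + p)
    (g4 : 1 ≤ 2 * b - p + 2)
    (g5 : 0 < D)
    (g6 : 0 < (p:ℝ) - 2 * D)
    (g7 : 0 < (b:ℝ) - z)
    (g8 : 0 < (b:ℝ) + z)
    (g9 : 0 < (a:ℝ) - z - (r:ℝ))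
    (g10 : 0 < (a:ℝ) + z + (r:ℝ))
    (g11 : 1 ≤ a - b + r)
    (g12 : 0 < -(b:ℝ) + D - z)
    : False :=
  specBp a b p r D z g0 g1 g2 g3 g4 g5 g6 g7 g8 g9 g10 g11 g12 
    (fun n hn => h.tie Cm (-n + (0)) (by push_cast; linarith))
    (fun n hn => h.tie Ck (n + (0)) (by push_cast; linarith))
    (fun n hn => h.tie Ch (n + (0)) (by push_cast; linarith))
    (fun n hn => h.tie Cn (n + (0)) (by push_cast; linarith))
    (by have := h.fr Ck Ch nkh; push_cast at this; exact this)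
    (by have := h.fr Ck Cm nkm; push_cast at this; exact this)
    (by have := h.fr Cm Ck nkm.symm; push_cast at this; exact this)
    

theorem stB1_w {p a b : ℤ} {D : ℝ} {C : ℤ → ℝ → ℤ → Prop} (h : Cfg p a b D C)
    {r o jk jn : ℤ} {z w : ℝ}
    (Ck : C jk (z) (r))
    (Cn : C jn (w - (o:ℝ)) (o))
    (nkn : jk ≠ jn)
    (g0 : 1 ≤ a - 1)
    (g1 : 1 ≤ -a + b)
    (g2 : 1 ≤ -2 * b + p)
    (g3 : 0 < D)
    (g4 : 0 < (p:ℝ) - 2 * D)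
    (g5 : 0 < (b:ℝ) - z)
    (g6 : 0 < (b:ℝ) + z)
    (g7 : 0 < (a:ℝ) - z - (r:ℝ))
    (g8 : 0 < (a:ℝ) + z + (r:ℝ))
    (g9 : 1 ≤ -a + b - r + 1)
    (g10 : 0 < -(a:ℝ) + D - z - (r:ℝ))
    (g11 : 0 < z + (r:ℝ))
    (g12 : 0 < -z)
    (g13 : 0 < -z)
    (g14 : 0 < (a:ℝ) - z - (r:ℝ) + w)
    (g15 : 0 < z + (r:ℝ) - w)
    (g16 : 1 ≤ o)
    (g17 : 1 ≤ p - o)
    : False :=
  stB1 a b p r o D z w g0 g1 g2 g3 g4 g5 g6 g7 g8 g9 g10 g11 g12 g13 g14 g15 g16 g17 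
    (fun n hn => h.tie2 Ck Cn nkn (n + (o)) (by push_cast; linarith))
    (fun n hn => h.tie Cn (n + (-o)) (by push_cast; linarith))
    (by have := h.fr Ck Cn nkn; push_cast at this; exact this)
    (by have := h.fr Cn Ck nkn.symm; push_cast at this; exact this)
    

theorem stB2_w {p a b : ℤ} {D : ℝ} {C : ℤ → ℝ → ℤ → Prop} (h : Cfg p a b D C)
    {r o jk jn jm : ℤ} {z w : ℝ}
    (Ck : C jk (z) (r))
    (Cn : C jn (w - (o:ℝ)) (o))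
    (Cm : C jm (D - w + (o:ℝ)) (-o))
    (nkn : jk ≠ jn)
    (g0 : 1 ≤ a - 1)
    (g1 : 1 ≤ -a + b)
    (g2 : 1 ≤ -2 * b + p)
    (g3 : 0 < D)
    (g4 : 0 < (p:ℝ) - 2 * D)
    (g5 : 0 < (b:ℝ) - z)
    (g6 : 0 < (b:ℝ) + z)
    (g7 : 0 < (a:ℝ) - z - (r:ℝ))
    (g8 : 0 < (a:ℝ) + z + (r:ℝ))
    (g9 : 1 ≤ -a + b - r)
    (g10 : 0 < -(a:ℝ) + D - z - (r:ℝ))
    (g11 : 0 < z + (r:ℝ))
    (g12 : 0 < z)
    (g13 : 1 ≤ -a + b + r)
    (g14 : 1 ≤ -r)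
    (g15 : 0 < (a:ℝ) - z - (r:ℝ) + w)
    (g16 : 0 < z + (r:ℝ) - w)
    (g17 : 1 ≤ o)
    (g18 : 1 ≤ p - o)
    : False :=
  stB2 a b p r o D z w g0 g1 g2 g3 g4 g5 g6 g7 g8 g9 g10 g11 g12 g13 g14 g15 g16 g17 g18 
    (fun n hn => h.tie2 Ck Cn nkn (n + (o)) (by push_cast; linarith))
    (fun n hn => h.tie Cn (n + (-o)) (by push_cast; linarith))
    (fun n hn => h.tie Cm (n + (o)) (by push_cast; linarith))
    (by have := h.fr Ck Cn nkn; push_cast at this; exact this)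
    (by have := h.fr Cn Ck nkn.symm; push_cast at this; exact this)
    

theorem stB3_w {p a b : ℤ} {D : ℝ} {C : ℤ → ℝ → ℤ → Prop} (h : Cfg p a b D C)
    {r o jk jn jm : ℤ} {z w : ℝ}
    (Ck : C jk (z) (r))
    (Cn : C jn (w - (o:ℝ)) (o))
    (Cm : C jm (D - w + (o:ℝ)) (-o))
    (nkn : jk ≠ jn)
    (g0 : 1 ≤ a - 1)
    (g1 : 1 ≤ -a + b)
    (g2 : 1 ≤ -2 * b + p)
    (g3 : 0 < D)
    (g4 : 0 < (p:ℝ) - 2 * D)
    (g5 : 0 < (b:ℝ) - z)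
    (g6 : 0 < (b:ℝ) + z)
    (g7 : 0 < (a:ℝ) - z - (r:ℝ))
    (g8 : 0 < (a:ℝ) + z + (r:ℝ))
    (g9 : 1 ≤ -a + b - r)
    (g10 : 0 < -(a:ℝ) + D - z - (r:ℝ))
    (g11 : 0 < z + (r:ℝ))
    (g12 : 0 < z)
    (g13 : 1 ≤ a - b - r + 1)
    (g14 : 0 < (b:ℝ) - D + z)
    (g15 : 1 ≤ -2 * a + b)
    (g16 : 0 < (a:ℝ) - z - (r:ℝ) + w)
    (g17 : 0 < z + (r:ℝ) - w)
    (g18 : 1 ≤ o)
    (g19 : 1 ≤ p - o)
    : False :=
  stB3 a b p r o D z w g0 g1 g2 g3 g4 g5 g6 g7 g8 g9 g10 g11 g12 g13 g14 g15 g16 g17 g18 g19 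
    (fun n hn => h.tie2 Ck Cn nkn (n + (o)) (by push_cast; linarith))
    (fun n hn => h.tie Cn (n + (-o)) (by push_cast; linarith))
    (fun n hn => h.tie Cm (n + (o)) (by push_cast; linarith))
    (by have := h.fr Ck Cn nkn; push_cast at this; exact this)
    (by have := h.fr Cn Ck nkn.symm; push_cast at this; exact this)
    

theorem stBr1_w {p a b : ℤ} {D : ℝ} {C : ℤ → ℝ → ℤ → Prop} (h : Cfg p a b D C)
    {r o jk jn : ℤ} {z w : ℝ}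
    (Ck : C jk (z) (r))
    (Cn : C jn (w - (o:ℝ)) (o))
    (nkn : jk ≠ jn)
    (g0 : 1 ≤ a - 1)
    (g1 : 1 ≤ -a + 3)
    (g2 : 1 ≤ -a + b)
    (g3 : 1 ≤ -2 * b + p)
    (g4 : 1 ≤ r)
    (g5 : 1 ≤ -r + 2)
    (g6 : 0 < D)
    (g7 : 0 < (p:ℝ) - 2 * D)
    (g8 : 0 < (b:ℝ) - z)
    (g9 : 0 < (b:ℝ) + z)
    (g10 : 0 < (a:ℝ) - z - (r:ℝ))
    (g11 : 0 < (a:ℝ) + z + (r:ℝ))
    (g12 : 1 ≤ -a + b - r)
    (g13 : 0 < -(a:ℝ) + D - z - (r:ℝ))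
    (g14 : 0 < z + (r:ℝ))
    (g15 : 0 < z)
    (g16 : 0 < (a:ℝ) - z - (r:ℝ) + w)
    (g17 : 0 < z + (r:ℝ) - w)
    (g18 : 1 ≤ o - 1)
    (g19 : 1 ≤ p - o)
    : False :=
  stBr1 a b p r o D z w g0 g1 g2 g3 g4 g5 g6 g7 g8 g9 g10 g11 g12 g13 g14 g15 g16 g17 g18 g19 
    (fun n hn => h.tie2 Ck Cn nkn (n + (o)) (by push_cast; linarith))
    (by have := h.fr Cn Ck nkn.symm; push_cast at this; exact this)
    

theorem stT1_w {p a b : ℤ} {D : ℝ} {C : ℤ → ℝ → ℤ → Prop} (h : Cfg p a b D C)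
    {r o jk jn jm : ℤ} {z w : ℝ}
    (Ck : C jk (z) (r))
    (Cn : C jn (w - (o:ℝ)) (o))
    (Cm : C jm (D - w + (o:ℝ)) (-o))
    (nkn : jk ≠ jn)
    (g0 : 1 ≤ a - 1)
    (g1 : 1 ≤ -a + b)
    (g2 : 1 ≤ -2 * b + p)
    (g3 : 1 ≤ r)
    (g4 : 0 < D)
    (g5 : 0 < (p:ℝ) - 2 * D)
    (g6 : 0 < (b:ℝ) - z)
    (g7 : 0 < (b:ℝ) + z)
    (g8 : 0 < (a:ℝ) - z - (r:ℝ))
    (g9 : 0 < (a:ℝ) + z + (r:ℝ))
    (g10 : 1 ≤ -a + b - r)
    (g11 : 0 < -(a:ℝ) + D - z - (r:ℝ))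
    (g12 : 0 < -z - (r:ℝ))
    (g13 : 0 < -z)
    (g14 : 0 < -z)
    (g15 : 0 < -z - (r:ℝ) + w)
    (g16 : 0 < (a:ℝ) + z + (r:ℝ) - w)
    (g17 : 1 ≤ o)
    (g18 : 1 ≤ p - o)
    : False :=
  stT1 a b p r o D z w g0 g1 g2 g3 g4 g5 g6 g7 g8 g9 g10 g11 g12 g13 g14 g15 g16 g17 g18 
    (fun n hn => h.tie Cn (n + (-o)) (by push_cast; linarith))
    (fun n hn => h.tie2 Ck Cn nkn (n + (o)) (by push_cast; linarith))
    (fun n hn => h.tie Cm (n + (o)) (by push_cast; linarith))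
    (by have := h.fr Ck Cn nkn; push_cast at this; exact this)
    (by have := h.fr Cn Ck nkn.symm; push_cast at this; exact this)
    

theorem stT2_w {p a b : ℤ} {D : ℝ} {C : ℤ → ℝ → ℤ → Prop} (h : Cfg p a b D C)
    {r o jk jn jm : ℤ} {z w : ℝ}
    (Ck : C jk (z) (r))
    (Cn : C jn (w - (o:ℝ)) (o))
    (Cm : C jm (D - w + (o:ℝ)) (-o))
    (nkn : jk ≠ jn)
    (g0 : 1 ≤ a - 1)
    (g1 : 1 ≤ -a + b)
    (g2 : 1 ≤ -2 * b + p)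
    (g3 : 0 < D)
    (g4 : 0 < (p:ℝ) - 2 * D)
    (g5 : 0 < (b:ℝ) - z)
    (g6 : 0 < (b:ℝ) + z)
    (g7 : 0 < (a:ℝ) - z - (r:ℝ))
    (g8 : 0 < (a:ℝ) + z + (r:ℝ))
    (g9 : 1 ≤ -a + b - r)
    (g10 : 0 < -(a:ℝ) + D - z - (r:ℝ))
    (g11 : 0 < -z - (r:ℝ))
    (g12 : 0 < z)
    (g13 : 1 ≤ b + r)
    (g14 : 1 ≤ -a - r)
    (g15 : 0 < -z - (r:ℝ) + w)
    (g16 : 0 < (a:ℝ) + z + (r:ℝ) - w)
    (g17 : 1 ≤ o)
    (g18 : 1 ≤ p - o)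
    : False :=
  stT2 a b p r o D z w g0 g1 g2 g3 g4 g5 g6 g7 g8 g9 g10 g11 g12 g13 g14 g15 g16 g17 g18 
    (fun n hn => h.tie Cn (n + (-o)) (by push_cast; linarith))
    (fun n hn => h.tie2 Ck Cn nkn (n + (o)) (by push_cast; linarith))
    (fun n hn => h.tie Cm (n + (o)) (by push_cast; linarith))
    (by have := h.fr Ck Cn nkn; push_cast at this; exact this)
    (by have := h.fr Cn Ck nkn.symm; push_cast at this; exact this)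
    

theorem stT3_w {p a b : ℤ} {D : ℝ} {C : ℤ → ℝ → ℤ → Prop} (h : Cfg p a b D C)
    {r o jk jh jn jm : ℤ} {z w : ℝ}
    (Ck : C jk (z) (r))
    (Ch : C jh (D - z) (-r))
    (Cn : C jn (w - (o:ℝ)) (o))
    (Cm : C jm (D - w + (o:ℝ)) (-o))
    (nkn : jk ≠ jn)
    (g0 : 1 ≤ a - 1)
    (g1 : 1 ≤ -a + b)
    (g2 : 1 ≤ -2 * b + p)
    (g3 : 0 < D)
    (g4 : 0 < (p:ℝ) - 2 * D)
    (g5 : 0 < (b:ℝ) - z)
    (g6 : 0 < (b:ℝ) + z)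
    (g7 : 0 < (a:ℝ) - z - (r:ℝ))
    (g8 : 0 < (a:ℝ) + z + (r:ℝ))
    (g9 : 1 ≤ -a + b - r)
    (g10 : 0 < -(a:ℝ) + D - z - (r:ℝ))
    (g11 : 0 < -z - (r:ℝ))
    (g12 : 0 < z)
    (g13 : 1 ≤ -b - r + 1)
    (g14 : 0 < (b:ℝ) - D + z)
    (g15 : 1 ≤ -2 * a + b)
    (g16 : 0 < -z - (r:ℝ) + w)
    (g17 : 0 < (a:ℝ) + z + (r:ℝ) - w)
    (g18 : 1 ≤ o)
    (g19 : 1 ≤ p - o)
    : False :=
  stT3 a b p r o D z w g0 g1 g2 g3 g4 g5 g6 g7 g8 g9 g10 g11 g12 g13 g14 g15 g16 g17 g18 g19 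
    (fun n hn => h.tie Cn (n + (-o)) (by push_cast; linarith))
    (fun n hn => h.tie2 Ck Cn nkn (n + (o)) (by push_cast; linarith))
    (fun n hn => h.tie Cm (n + (o)) (by push_cast; linarith))
    (fun n hn => h.tie Ch (n + (0)) (by push_cast; linarith))
    (by have := h.fr Ck Cn nkn; push_cast at this; exact this)
    (by have := h.fr Cn Ck nkn.symm; push_cast at this; exact this)
    

theorem twokB_w {p a b : ℤ} {D : ℝ} {C : ℤ → ℝ → ℤ → Prop} (h : Cfg p a b D C)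
    {r jk jm : ℤ} {z : ℝ}
    (Ck : C jk (z) (r))
    (Cm : C jm (2 * z) (2 * r))
    (nkm : jk ≠ jm)
    (g0 : 1 ≤ a - 1)
    (g1 : 1 ≤ -a + b)
    (g2 : 1 ≤ -2 * b + p)
    (g3 : 0 < D)
    (g4 : 0 < (p:ℝ) - 2 * D)
    (g5 : 0 < (b:ℝ) - z)
    (g6 : 0 < (b:ℝ) + z)
    (g7 : 0 < (a:ℝ) - z - (r:ℝ))
    (g8 : 0 < (a:ℝ) + z + (r:ℝ))
    (g9 : 1 ≤ -a + b - r + 1)
    (g10 : 0 < -(a:ℝ) + D - z - (r:ℝ))
    (g11 : 0 < z + (r:ℝ))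
    (g12 : 0 < -z - (r:ℝ) + 1)
    : False :=
  twokB a b p r D z g0 g1 g2 g3 g4 g5 g6 g7 g8 g9 g10 g11 g12 
    (fun n hn => h.tie Ck (n + (0)) (by push_cast; linarith))
    (fun n hn => h.tie Cm (n + (0)) (by push_cast; linarith))
    (by have := h.fr Ck Cm nkm; push_cast at this; exact this)
    (by have := h.fr Cm Ck nkm.symm; push_cast at this; exact this)
    

theorem twokT_w {p a b : ℤ} {D : ℝ} {C : ℤ → ℝ → ℤ → Prop} (h : Cfg p a b D C)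
    {r jk jh jm : ℤ} {z : ℝ}
    (Ck : C jk (z) (r))
    (Ch : C jh (D - z) (-r))
    (Cm : C jm (2 * z) (2 * r))
    (nkm : jk ≠ jm)
    (g0 : 1 ≤ a - 1)
    (g1 : 1 ≤ -a + b)
    (g2 : 1 ≤ -2 * b + p)
    (g3 : 0 < D)
    (g4 : 0 < (p:ℝ) - 2 * D)
    (g5 : 0 < (b:ℝ) - z)
    (g6 : 0 < (b:ℝ) + z)
    (g7 : 0 < (a:ℝ) - z - (r:ℝ))
    (g8 : 0 < (a:ℝ) + z + (r:ℝ))
    (g9 : 1 ≤ -a + b - r)
    (g10 : 0 < -(a:ℝ) + D - z - (r:ℝ))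
    (g11 : 0 < -z - (r:ℝ))
    (g12 : 0 < z + (r:ℝ) + 1)
    : False :=
  twokT a b p r D z g0 g1 g2 g3 g4 g5 g6 g7 g8 g9 g10 g11 g12 
    (fun n hn => h.tie Ch (n + (0)) (by push_cast; linarith))
    (by have := h.fr Ck Cm nkm; push_cast at this; exact this)
    (by have := h.fr Cm Ck nkm.symm; push_cast at this; exact this)
    

theorem vrow1_w {p a b : ℤ} {D : ℝ} {C : ℤ → ℝ → ℤ → Prop} (h : Cfg p a b D C)
    {r jk jh je jf : ℤ} {z u : ℝ}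
    (Ck : C jk (z) (r))
    (Ch : C jh (D - z) (-r))
    (Ce : C je (u) (1))
    (Cf : C jf (D - u) (-1))
    (nke : jk ≠ je)
    (nkf : jk ≠ jf)
    (g0 : 1 ≤ a - 1)
    (g1 : 1 ≤ -a + b)
    (g2 : 1 ≤ -2 * b + p)
    (g3 : 0 < D)
    (g4 : 0 < (p:ℝ) - 2 * D)
    (g5 : 0 < (b:ℝ) - z)
    (g6 : 0 < (b:ℝ) + z)
    (g7 : 0 < (a:ℝ) - z - (r:ℝ))
    (g8 : 0 < (a:ℝ) + z + (r:ℝ))
    (g9 : 1 ≤ a - b + r)
    (g10 : 0 < -(b:ℝ) + D - z)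
    (g11 : 0 < (b:ℝ) + u)
    (g12 : 0 < -(b:ℝ) + (p:ℝ) - u)
    : False :=
  vrow1 a b p r D z u g0 g1 g2 g3 g4 g5 g6 g7 g8 g9 g10 g11 g12 
    (fun n hn => h.tie2 Ck Ce nke (n + (0)) (by push_cast; linarith))
    (fun n hn => h.tie Ce (n + (0)) (by push_cast; linarith))
    (fun n hn => h.tie Ch (n + (0)) (by push_cast; linarith))
    (fun n hn => h.tie Ck (n + (0)) (by push_cast; linarith))
    (fun n hn => h.tie2 Ck Cf nkf (-n + (0)) (by push_cast; linarith))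
    (fun n hn => h.tie Cf (n + (0)) (by push_cast; linarith))
    (by have := h.fr Ck Ce nke; push_cast at this; exact this)
    (by have := h.fr Ck Cf nkf; push_cast at this; exact this)
    (by have := h.fr Ce Ck nke.symm; push_cast at this; exact this)
    (by have := h.fr Cf Ck nkf.symm; push_cast at this; exact this)
    

theorem vrow1eq_w {p a b : ℤ} {D : ℝ} {C : ℤ → ℝ → ℤ → Prop} (h : Cfg p a b D C)
    {r jk jh je jf : ℤ} {z u : ℝ}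
    (Ck : C jk (z) (r))
    (Ch : C jh (D - z) (-r))
    (Ce : C je (u) (1))
    (Cf : C jf (D - u) (-1))
    (nke : jk ≠ je)
    (nkf : jk ≠ jf)
    (g0 : 1 ≤ a - 1)
    (g1 : 1 ≤ a - b + 1)
    (g2 : 1 ≤ -a + b + 1)
    (g3 : 1 ≤ -2 * b + p)
    (g4 : 1 ≤ -2 * b + p - 1)
    (g5 : 1 ≤ r - 1)
    (g6 : 0 < D)
    (g7 : 0 < (p:ℝ) - 2 * D)
    (g8 : 0 < (b:ℝ) - z)
    (g9 : 0 < (b:ℝ) + z)
    (g10 : 0 < (a:ℝ) - z - (r:ℝ))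
    (g11 : 0 < (a:ℝ) + z + (r:ℝ))
    (g12 : 1 ≤ a - b + r)
    (g13 : 0 < -(b:ℝ) + D - z)
    (g14 : 0 < (b:ℝ) + u)
    (g15 : 0 < -(b:ℝ) + (p:ℝ) - u)
    : False :=
  vrow1eq a b p r D z u g0 g1 g2 g3 g4 g5 g6 g7 g8 g9 g10 g11 g12 g13 g14 g15 
    (fun n hn => h.tie2 Ck Ce nke (n + (0)) (by push_cast; linarith))
    (fun n hn => h.tie Ce (n + (0)) (by push_cast; linarith))
    (fun n hn => h.tie Cf (n + (0)) (by push_cast; linarith))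
    (fun n hn => h.tie Ck (n + (0)) (by push_cast; linarith))
    (fun n hn => h.tie2 Ck Cf nkf (-n + (0)) (by push_cast; linarith))
    (fun n hn => h.tie Ch (n + (0)) (by push_cast; linarith))
    (by have := h.fr Ck Ce nke; push_cast at this; exact this)
    (by have := h.fr Ck Cf nkf; push_cast at this; exact this)
    (by have := h.fr Ce Ck nke.symm; push_cast at this; exact this)
    (by have := h.fr Cf Ck nkf.symm; push_cast at this; exact this)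
    

end Helper10.KE
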